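import Pool.Agent.Mg.S11659.G9195a8

section

set_option autoImplicit false

namespace Pool.Agent.MP_d347ac_co.H31

open List

variable {V : Type}

def Tri3 (P : V → V → V → Prop) : List V → Prop
  | a :: y :: c :: L => P a y c ∧ Tri3 P (y :: c :: L)
  | _ => True

theorem tri3_cons {P : V → V → V → Prop} {a y c : V} {L : List V} :
    Tri3 P (a :: y :: c :: L) ↔ P a y c ∧ Tri3 P (y :: c :: L) := Iff.rfl

@[simp] theorem tri3_pair {P : V → V → V → Prop} {a y : V} : Tri3 P [a, y] := trivial

theorem tri3_split {P : V → V → V → Prop} {a y : V} {L : List V} :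
    ∀ A : List V, Tri3 P (A ++ a :: y :: L) ↔ Tri3 P (A ++ [a, y]) ∧ Tri3 P (a :: y :: L)
  | [] => by simp
  | [p] => by simp [tri3_cons]
  | [p, q] => by simp [tri3_cons, and_assoc]
  | p :: q :: r :: A => by
    have := tri3_split (P := P) (a := a) (y := y) (L := L) (q :: r :: A)
    simp only [cons_append] at this ⊢
    rw [tri3_cons, tri3_cons, this, and_assoc]

theorem tri3_imp {P P' : V → V → V → Prop} :
    ∀ L : List V, (∀ a y c, a ∈ L → y ∈ L → c ∈ L → P a y c → P' a y c) → Tri3 P L → Tri3 P' L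
  | [] => fun _ _ => trivial
  | [_] => fun _ _ => trivial
  | [_, _] => fun _ _ => trivial
  | a :: y :: c :: L => fun H h =>
    ⟨H a y c (by simp) (by simp) (by simp) h.1,
      tri3_imp (y :: c :: L) (fun a' y' c' ha hy hc =>
        H a' y' c' (mem_cons_of_mem _ ha) (mem_cons_of_mem _ hy) (mem_cons_of_mem _ hc)) h.2⟩

theorem tri3_last {P P' : V → V → V → Prop} {l z w : V} :
    ∀ A : List V, (∀ a y c, a ∈ A → y ∈ A → c ∈ A ++ [l] → P a y c → P' a y c) →
      (∀ a ∈ A, P a l z → P' a l w) → Tri3 P (A ++ [l, z]) → Tri3 P' (A ++ [l, w])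
  | [] => fun _ _ _ => trivial
  | [p] => fun _ H h => ⟨H p (by simp) h.1, trivial⟩
  | [p, q] => fun H0 H h =>
    ⟨H0 p q l (by simp) (by simp) (by simp) h.1, H q (by simp) h.2.1, trivial⟩
  | p :: q :: r :: A => fun H0 H h =>
    ⟨H0 p q r (by simp) (by simp) (by simp) h.1,
      tri3_last (q :: r :: A) (fun a y c ha hy hc =>
        H0 a y c (mem_cons_of_mem _ ha) (mem_cons_of_mem _ hy) (mem_cons_of_mem _ hc))
        (fun a ha => H a (mem_cons_of_mem _ ha)) h.2⟩

theorem tri3_first {P P' : V → V → V → Prop} {r z w : V} :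
    ∀ B : List V, (∀ a y c, a ∈ r :: B → y ∈ B → c ∈ B → P a y c → P' a y c) →
      (∀ c ∈ B, P z r c → P' w r c) → Tri3 P (z :: r :: B) → Tri3 P' (w :: r :: B)
  | [] => fun _ _ _ => trivial
  | [c] => fun _ H h => ⟨H c (by simp) h.1, trivial⟩
  | c :: e :: B => fun H0 H h =>
    ⟨H c (by simp) h.1, H0 r c e (by simp) (by simp) (by simp) h.2.1,
      tri3_imp (c :: e :: B) (fun a y c' ha hy hc => H0 a y c' (mem_cons_of_mem _ ha) hy hc)
        h.2.2⟩

theorem tri3_of_sorted {P : V → V → V → Prop} {h : V → ℝ} :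
    ∀ L : List V, L.Pairwise (fun a b => h a < h b) →
      (∀ a y c, a ∈ L → y ∈ L → c ∈ L → h a < h y → h y < h c → P a y c) → Tri3 P L
  | [] => fun _ _ => trivial
  | [_] => fun _ _ => trivial
  | [_, _] => fun _ _ => trivial
  | a :: y :: c :: L => fun hs H =>
    ⟨H a y c (by simp) (by simp) (by simp) ((pairwise_cons.1 hs).1 y (by simp))
        ((pairwise_cons.1 (pairwise_cons.1 hs).2).1 c (by simp)),
      tri3_of_sorted (y :: c :: L) (pairwise_cons.1 hs).2 (fun a' y' c' ha hy hc =>
        H a' y' c' (mem_cons_of_mem _ ha) (mem_cons_of_mem _ hy) (mem_cons_of_mem _ hc))⟩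

def anc (D : V → Prop) [DecidablePred D] (r : V) : List V → V
  | [] => r
  | y :: M => if D y then y else anc D r M

theorem anc_spec (D : V → Prop) [DecidablePred D] (r : V) :
    ∀ M : List V, anc D r M = r ∨ (anc D r M ∈ M ∧ D (anc D r M))
  | [] => Or.inl rfl
  | y :: M => by
    unfold anc
    split_ifs with hy
    · exact Or.inr ⟨by simp, hy⟩
    · rcases anc_spec D r M with h | h
      · exact Or.inl h
      · exact Or.inr ⟨mem_cons_of_mem _ h.1, h.2⟩

theorem small3 {P1 P2 P3 : ℝ} (h1 : 0 < P1) (h2 : 0 < P2) (h3 : 0 < P3) (k1 k2 k3 : ℝ) :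
    ∃ ε : ℝ, 0 < ε ∧ ε * k1 < P1 ∧ ε * k2 < P2 ∧ ε * k3 < P3 := by
  have key : ∀ P k : ℝ, 0 < P → ∀ᶠ ε in nhdsWithin (0 : ℝ) (Set.Ioi 0), ε * k < P := by
    intro P k hP
    apply Filter.Eventually.filter_mono nhdsWithin_le_nhds
    have : ContinuousAt (fun ε : ℝ => ε * k) 0 := by fun_prop
    exact this.eventually_lt continuousAt_const (by simpa using hP)
  have := ((key P1 k1 h1).and ((key P2 k2 h2).and (key P3 k3 h3))).and self_mem_nhdsWithin
  obtain ⟨ε, h, hε⟩ := this.exists
  exact ⟨ε, hε, h⟩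

theorem append_single_eq (M : List V) (r : V) :
    ∃ L, M ++ [r] = M.headD r :: L := by
  cases M with
  | nil => exact ⟨[], rfl⟩
  | cons y M => exact ⟨M ++ [r], rfl⟩

theorem bump [DecidableEq V] (h : V → ℝ) (D : V → Prop) [DecidablePred D] (z r : V) :
    ∀ (M : List V) (l : V) (ξ : V → ℝ) (σ : ℝ),
      (l :: (M ++ [r])).Pairwise (fun a b => h a < h b) → z ∉ M → (∀ y, D y → ξ y = 0) →
      0 ≤ ξ l → 0 ≤ ξ r → 0 < ξ z → 0 < Lf h ξ l (anc D r M) z →
      (∀ y ∈ M, D y → 0 < (h r - h y) * ξ z - (h z - h y) * ξ r) →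
      ξ (anc D r M) - ξ l < σ * (h (anc D r M) - h l) →
      ∃ ξ' : V → ℝ, (∀ y, y ∉ M ∨ D y → ξ' y = ξ y) ∧ (∀ y ∈ M, ¬ D y → 0 < ξ' y) ∧
        IsChain (fun c c' => 0 < Lf h ξ' c c' z) (l :: (M ++ [r])) ∧
        Tri3 (fun a y c => ¬ D y → 0 < Lf h ξ' a c y) (l :: (M ++ [r])) ∧
        ξ' (M.headD r) - ξ' l < σ * (h (M.headD r) - h l) := by
  intro M
  induction M with
  | nil =>
    intro l ξ σ _ _ _ _ _ _ hv _ hσ
    exact ⟨ξ, fun _ _ => rfl, by simp, by simpa [anc] using hv, trivial, by simpa [anc] using hσ⟩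
  | cons y M ih =>
    intro l ξ σ hs hz hD hl hr hzp hv hDv hσ
    have hs' : (y :: (M ++ [r])).Pairwise (fun a b => h a < h b) := (pairwise_cons.1 hs).2
    have hly : h l < h y := (pairwise_cons.1 hs).1 y (by simp)
    have hyM : ∀ c ∈ M ++ [r], h y < h c := (pairwise_cons.1 hs').1
    have hyM' : y ∉ M := fun hm => lt_irrefl _ (hyM y (by simp [hm]))
    have hlM : l ∉ M := fun hm => by have := hyM l (by simp [hm]); linarith
    have hzM : z ∉ M := fun hm => hz (mem_cons_of_mem _ hm)
    have hzy : z ≠ y := fun e => hz (e ▸ mem_cons_self)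
    have hya : h y < h (anc D r M) := by
      rcases anc_spec D r M with e | e
      · rw [e]; exact hyM r (by simp)
      · exact hyM _ (by simp [e.1])
    have ha0 : 0 ≤ ξ (anc D r M) := by
      rcases anc_spec D r M with e | e
      · rw [e]; exact hr
      · rw [hD _ e.2]
    obtain ⟨L, hL⟩ := append_single_eq M r
    have hw : h y < h (M.headD r) := hyM _ (by rw [hL]; simp)
    by_cases hy : D y
    · have e : anc D r (y :: M) = y := by simp [anc, hy]
      rw [e] at hv hσ
      have hv' : 0 < Lf h ξ y (anc D r M) z := by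
        rcases anc_spec D r M with e | e
        · rw [e]; unfold Lf; rw [hD y hy]
          have := hDv y (by simp) hy; linarith
        · unfold Lf; rw [hD y hy, hD _ e.2]
          have := mul_pos (sub_pos.2 hya) hzp; linarith
      obtain ⟨ξ', a1, a2, a3, a4, -⟩ := ih y ξ
        ((ξ (anc D r M) - ξ y) / (h (anc D r M) - h y) + 1) hs' hzM hD (by rw [hD y hy]) hr hzp hv'
        (fun c hc => hDv c (mem_cons_of_mem _ hc))
        (by
          have : 0 < h (anc D r M) - h y := by linarith
          rw [add_mul, div_mul_cancel₀ _ this.ne']; linarith)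
      have b1 : ξ' l = ξ l := a1 l (Or.inl hlM)
      have b2 : ξ' y = ξ y := a1 y (Or.inl hyM')
      have b3 : ξ' z = ξ z := a1 z (Or.inl hzM)
      refine ⟨ξ', ?_, ?_, ?_, ?_, ?_⟩
      · rintro c (hc | hc)
        · exact a1 c (Or.inl fun hm => hc (mem_cons_of_mem _ hm))
        · exact a1 c (Or.inr hc)
      · intro c hc hn
        rcases mem_cons.1 hc with rfl | hc
        · exact absurd hy hn
        · exact a2 c hc hn
      · rw [cons_append, isChain_cons_cons]
        refine ⟨?_, a3⟩
        unfold Lf at hv ⊢; rw [b1, b2, b3]; exact hv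
      · rw [cons_append, hL, tri3_cons, ← hL]
        exact ⟨fun hn => absurd hy hn, a4⟩
      · simp only [headD_cons]; rw [b1, b2]; exact hσ
    · have e : anc D r (y :: M) = anc D r M := by simp [anc, hy]
      rw [e] at hv hσ
      set a := anc D r M with ha
      have hla : 0 < h a - h l := by linarith
      set v0 := ((h a - h y) * ξ l + (h y - h l) * ξ a) / (h a - h l) with hv0
      have hv0' : (h a - h l) * v0 = (h a - h y) * ξ l + (h y - h l) * ξ a := by
        rw [hv0]; field_simp
      have v0n : 0 ≤ v0 := div_nonneg (add_nonneg (mul_nonneg (by linarith) hl)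
        (mul_nonneg (by linarith) ha0)) hla.le
      have P1 : 0 < σ * (h y - h l) - (v0 - ξ l) := by
        have : (h a - h l) * (σ * (h y - h l) - (v0 - ξ l)) =
            (h y - h l) * (σ * (h a - h l) - (ξ a - ξ l)) := by
          linear_combination (-1) * hv0'
        have h2 : 0 < (h y - h l) * (σ * (h a - h l) - (ξ a - ξ l)) :=
          mul_pos (by linarith) (by linarith)
        rw [← this] at h2
        exact (pos_iff_pos_of_mul_pos h2).1 hla
      have P2 : 0 < (h y - h l) * ξ z - (h y - h z) * ξ l - (h z - h l) * v0 := by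
        have : (h a - h l) * ((h y - h l) * ξ z - (h y - h z) * ξ l - (h z - h l) * v0) =
            (h y - h l) * Lf h ξ l a z := by
          unfold Lf; linear_combination (-(h z - h l)) * hv0'
        have h2 : 0 < (h y - h l) * Lf h ξ l a z := mul_pos (by linarith) hv
        rw [← this] at h2
        exact (pos_iff_pos_of_mul_pos h2).1 hla
      have P3 : 0 < (h a - h y) * ξ z - (h a - h z) * v0 - (h z - h y) * ξ a := by
        have : (h a - h l) * ((h a - h y) * ξ z - (h a - h z) * v0 - (h z - h y) * ξ a) =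
            (h a - h y) * Lf h ξ l a z := by
          unfold Lf; linear_combination (-(h a - h z)) * hv0'
        have h2 : 0 < (h a - h y) * Lf h ξ l a z := mul_pos (by linarith) hv
        rw [← this] at h2
        exact (pos_iff_pos_of_mul_pos h2).1 hla
      obtain ⟨ε, ε0, q1, q2, q3⟩ := small3 P1 P2 P3 1 (h z - h l) (h a - h z)
      have hly' : l ≠ y := fun e => by rw [e] at hly; exact lt_irrefl _ hly
      have hay : a ≠ y := fun e => by rw [e] at hya; exact lt_irrefl _ hya
      have hry : r ≠ y := fun e => by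
        have := hyM r (by simp); rw [e] at this; exact lt_irrefl _ this
      have u1 : Function.update ξ y (v0 + ε) y = v0 + ε := Function.update_self _ _ _
      have u2 : Function.update ξ y (v0 + ε) z = ξ z := Function.update_of_ne hzy _ _
      have u3 : Function.update ξ y (v0 + ε) a = ξ a := Function.update_of_ne hay _ _
      have u4 : Function.update ξ y (v0 + ε) r = ξ r := Function.update_of_ne hry _ _
      have u5 : Function.update ξ y (v0 + ε) l = ξ l := Function.update_of_ne hly' _ _
      have hyl : 0 < h y - h l := by linarith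
      obtain ⟨ξ', a1, a2, a3, a4, a5⟩ := ih y (Function.update ξ y (v0 + ε))
        ((v0 + ε - ξ l) / (h y - h l)) hs' hzM
        (fun c hc => by
          rw [Function.update_of_ne (fun e : c = y => hy (e ▸ hc))]; exact hD c hc)
        (by rw [u1]; linarith) (by rw [u4]; exact hr) (by rw [u2]; exact hzp)
        (by unfold Lf; rw [u1, u2, u3]; linarith)
        (fun c hc hc' => by rw [u2, u4]; exact hDv c (mem_cons_of_mem _ hc) hc')
        (by
          rw [u1, u3, div_mul_eq_mul_div, lt_div_iff₀ hyl]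
          have : 0 < ε * (h a - h l) := mul_pos ε0 hla
          linarith)
      have b1 : ξ' l = ξ l := (a1 l (Or.inl hlM)).trans u5
      have b2 : ξ' y = v0 + ε := (a1 y (Or.inl hyM')).trans u1
      have b3 : ξ' z = ξ z := (a1 z (Or.inl hzM)).trans u2
      refine ⟨ξ', ?_, ?_, ?_, ?_, ?_⟩
      · rintro c (hc | hc)
        · rw [a1 c (Or.inl fun hm => hc (mem_cons_of_mem _ hm))]
          exact Function.update_of_ne (fun e : c = y => hc (e ▸ mem_cons_self)) _ _
        · rw [a1 c (Or.inr hc)]
          exact Function.update_of_ne (fun e : c = y => hy (e ▸ hc)) _ _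
      · intro c hc hn
        rcases mem_cons.1 hc with rfl | hc
        · rw [b2]; linarith
        · exact a2 c hc hn
      · rw [cons_append, isChain_cons_cons]
        refine ⟨?_, a3⟩
        unfold Lf; rw [b1, b2, b3]; linarith
      · rw [cons_append, hL, tri3_cons, ← hL]
        refine ⟨fun _ => ?_, a4⟩
        rw [b2, div_mul_eq_mul_div, lt_div_iff₀ hyl] at a5
        unfold Lf; rw [b1, b2]; linarith
      · simp only [headD_cons]; rw [b1, b2]; linarith

/-- concavity invariant along the contour -/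
def Conc (d : Dat V) (D : V → Prop) (ord : List V) (h ξ : V → ℝ) (a y c : V) : Prop :=
  ¬ D y → 0 ≤ Lf h ξ a c y ∧ ((∀ u ∈ ord, y ∉ d.N u) → 0 < Lf h ξ a c y)

theorem Lf_congr {h ξ ξ' : V → ℝ} {a c y : V} (ha : ξ' a = ξ a) (hc : ξ' c = ξ c)
    (hy : ξ' y = ξ y) : Lf h ξ' a c y = Lf h ξ a c y := by
  unfold Lf; rw [ha, hc, hy]

theorem append_single_eq' (l : V) (M : List V) :
    ∃ L w, l :: M = L ++ [w] := by
  rcases (l :: M).eq_nil_or_concat with e | ⟨L, w, e⟩
  · simp at e
  · exact ⟨L, w, by simpa using e⟩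

theorem Build.topdown [DecidableEq V] {d : Dat V} {ord C : List V} (hB : Build d ord C)
    {h : V → ℝ} (H : Mono d ord h) (D : V → Prop) [DecidablePred D] (Db : D d.b) (Dt : D d.t)
    (hD : ∀ v ∈ ord, D v → ∀ w ∈ d.N v, D w) :
    ∀ ξ : V → ℝ, (∀ y, D y → ξ y = 0) → (∀ y ∈ C, ¬ D y → 0 < ξ y) →
      Tri3 (Conc d D ord h ξ) C →
      ∃ ξ' : V → ℝ, (∀ y, y ∈ C ∨ y ∉ ord ∨ D y → ξ' y = ξ y) ∧
        ∀ z ∈ ord, ¬ D z → Sees d h ξ' z := by
  induction hB with
  | base hne => intro ξ _ _ _; exact ⟨ξ, fun _ _ => rfl, by simp⟩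
  | @step ord A B z hB h1 h2 h3 ih =>
    intro ξ hξ hpos htri
    have ih := ih H.tail fun u hu => hD u (mem_cons_of_mem _ hu)
    have hsC := hB.sorted H.tail
    have hnd := hB.nodup
    have hinf : d.N z <:+: A ++ d.lo z :: (d.mid z ++ d.hi z :: B) :=
      ⟨A, B, by simp [Dat.N]⟩
    have hsN : (d.N z).Pairwise (fun a b => h a < h b) := hsC.sublist hinf.sublist
    obtain ⟨hlo, hhi⟩ := H.2 z mem_cons_self
    have hzI : ¬ In d ord z := not_in_of h1 h2 h3
    have hNI : ∀ w ∈ d.N z, In d ord w := fun w hw => hB.mem w (mem_N_sub hw)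
    have mlo : d.lo z ∈ d.N z := by simp [Dat.N]
    have mhi : d.hi z ∈ d.N z := by simp [Dat.N]
    have mmid : ∀ y ∈ d.mid z, y ∈ d.N z := fun y hy => by simp [Dat.N, hy]
    have hzM : z ∉ d.mid z := fun hm => hzI (hNI z (mmid z hm))
    have dA : ∀ y ∈ A, y ∉ d.N z := by
      intro y hy hn
      refine (nodup_append.1 hnd).2.2 y hy y ?_ rfl
      simp only [Dat.N, mem_cons, mem_append, not_mem_nil, or_false] at hn ⊢
      tauto
    have dB : ∀ y ∈ B, y ∉ d.N z := by
      intro y hy hn
      have e : A ++ d.lo z :: (d.mid z ++ d.hi z :: B) = (A ++ d.N z) ++ B := by simp [Dat.N]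
      rw [e] at hnd
      exact (nodup_append.1 hnd).2.2 y (mem_append_right _ hn) y hy rfl
    have hlM : d.lo z ∉ d.mid z := fun hm => by
      have := (pairwise_cons.1 hsN).1 (d.lo z) (by simp [hm]); exact lt_irrefl _ this
    have hrM : d.hi z ∉ d.mid z := fun hm => by
      have := (pairwise_append.1 (pairwise_cons.1 hsN).2).2.2 _ hm (d.hi z) (by simp)
      exact lt_irrefl _ this
    have hAl : ∀ a ∈ A, h a < h (d.lo z) := fun a ha =>
      (pairwise_append.1 hsC).2.2 a ha _ (by simp)
    have hBr : ∀ c ∈ B, h (d.hi z) < h c := by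
      intro c hc
      have e : A ++ d.lo z :: (d.mid z ++ d.hi z :: B) =
        (A ++ d.lo z :: d.mid z) ++ d.hi z :: B := by simp
      rw [e] at hsC
      exact (pairwise_cons.1 (pairwise_append.1 hsC).2.1).1 c hc
    rw [tri3_split, tri3_cons] at htri
    obtain ⟨t1, t2, t3⟩ := htri
    have nonneg : ∀ y ∈ A ++ d.lo z :: z :: d.hi z :: B, 0 ≤ ξ y := by
      intro y hy
      by_cases hy' : D y
      · rw [hξ y hy']
      · exact (hpos y hy hy').le
    -- step 1: the new values on the covered vertices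
    have step1 : ∃ ξ1 : V → ℝ, (∀ y, y ∉ d.mid z ∨ D y → ξ1 y = ξ y) ∧
        (∀ y ∈ d.mid z, ¬ D y → 0 < ξ1 y) ∧
        (¬ D z → IsChain (fun c c' => 0 < Lf h ξ1 c c' z) (d.N z)) ∧
        Tri3 (fun a y c => ¬ D y → 0 < Lf h ξ1 a c y) (d.N z) := by
      by_cases hz : D z
      · refine ⟨ξ, fun _ _ => rfl, fun y hy hn => absurd (hD z mem_cons_self hz y (mmid y hy)) hn,
          fun hn => absurd hz hn, ?_⟩
        exact tri3_of_sorted _ hsN fun a y c _ hy _ _ _ hn =>
          absurd (hD z mem_cons_self hz y hy) hn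
      · have hst : 0 < Lf h ξ (d.lo z) (d.hi z) z := by
          refine (t2 hz).2 ?_
          intro u hu hm
          rcases mem_cons.1 hu with rfl | hu
          · exact hzI (hNI _ hm)
          · exact hzI (hB.memN u hu z hm)
        have l0 := nonneg (d.lo z) (by simp)
        have r0 := nonneg (d.hi z) (by simp)
        have z0 := hpos z (by simp) hz
        have hmid : ∀ y ∈ d.mid z, h (d.lo z) < h y ∧ h y < h (d.hi z) := fun y hy =>
          ⟨(pairwise_cons.1 hsN).1 y (by simp [hy]),
            (pairwise_append.1 (pairwise_cons.1 hsN).2).2.2 _ hy (d.hi z) (by simp)⟩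
        have hv : 0 < Lf h ξ (d.lo z) (anc D (d.hi z) (d.mid z)) z := by
          rcases anc_spec D (d.hi z) (d.mid z) with e | e
          · rw [e]; exact hst
          · obtain ⟨q1, q2⟩ := hmid _ e.1
            have e0 := hξ _ e.2
            generalize anc D (d.hi z) (d.mid z) = a at *
            unfold Lf at hst ⊢
            rw [e0]
            rcases le_total (h a) (h z) with q | q
            · have := mul_pos (sub_pos.2 q1) z0
              have := mul_nonneg (sub_nonneg.2 q) l0
              linarith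
            · have i1 : (h (d.hi z) - h z) * ((h a - h (d.lo z)) * ξ z - (h a - h z) * ξ (d.lo z))
                  = (h a - h z) * ((h (d.hi z) - h (d.lo z)) * ξ z - (h (d.hi z) - h z) * ξ (d.lo z)
                    - (h z - h (d.lo z)) * ξ (d.hi z))
                    + (h a - h z) * ((h z - h (d.lo z)) * ξ (d.hi z))
                    + (h (d.hi z) - h a) * ((h z - h (d.lo z)) * ξ z) := by ring
              have j1 := mul_nonneg (sub_nonneg.2 q) hst.le
              have j2 := mul_nonneg (sub_nonneg.2 q) (mul_nonneg (sub_nonneg.2 hlo.le) r0)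
              have j3 := mul_pos (sub_pos.2 q2) (mul_pos (sub_pos.2 hlo) z0)
              have j4 : 0 < (h (d.hi z) - h z) *
                  ((h a - h (d.lo z)) * ξ z - (h a - h z) * ξ (d.lo z)) := by linarith
              have := (pos_iff_pos_of_mul_pos j4).1 (sub_pos.2 hhi)
              linarith
        have hDv : ∀ y ∈ d.mid z, D y →
            0 < (h (d.hi z) - h y) * ξ z - (h z - h y) * ξ (d.hi z) := by
          intro a ha _
          obtain ⟨q1, q2⟩ := hmid _ ha
          unfold Lf at hst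
          rcases le_total (h z) (h a) with q | q
          · have := mul_pos (sub_pos.2 q2) z0
            have := mul_nonneg (sub_nonneg.2 q) r0
            linarith
          · have i1 : (h z - h (d.lo z)) * ((h (d.hi z) - h a) * ξ z - (h z - h a) * ξ (d.hi z))
                = (h z - h a) * ((h (d.hi z) - h (d.lo z)) * ξ z - (h (d.hi z) - h z) * ξ (d.lo z)
                  - (h z - h (d.lo z)) * ξ (d.hi z))
                  + (h z - h a) * ((h (d.hi z) - h z) * ξ (d.lo z))
                  + (h a - h (d.lo z)) * ((h (d.hi z) - h z) * ξ z) := by ring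
            have j1 := mul_nonneg (sub_nonneg.2 q) hst.le
            have j2 := mul_nonneg (sub_nonneg.2 q) (mul_nonneg (sub_nonneg.2 hhi.le) l0)
            have j3 := mul_pos (sub_pos.2 q1) (mul_pos (sub_pos.2 hhi) z0)
            have j4 : 0 < (h z - h (d.lo z)) *
                ((h (d.hi z) - h a) * ξ z - (h z - h a) * ξ (d.hi z)) := by linarith
            exact (pos_iff_pos_of_mul_pos j4).1 (sub_pos.2 hlo)
        have hla : 0 < h (anc D (d.hi z) (d.mid z)) - h (d.lo z) := by
          rcases anc_spec D (d.hi z) (d.mid z) with e | e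
          · rw [e]; linarith
          · have := (hmid _ e.1).1; linarith
        obtain ⟨ξ1, a1, a2, a3, a4, -⟩ := bump h D z (d.hi z) (d.mid z) (d.lo z) ξ
          ((ξ (anc D (d.hi z) (d.mid z)) - ξ (d.lo z)) /
            (h (anc D (d.hi z) (d.mid z)) - h (d.lo z)) + 1) hsN hzM hξ l0 r0 z0 hv hDv
          (by rw [add_mul, div_mul_cancel₀ _ hla.ne']; linarith)
        exact ⟨ξ1, a1, a2, fun _ => a3, a4⟩
    obtain ⟨ξ1, a1, a2, a3, a4⟩ := step1
    have b1 : ξ1 (d.lo z) = ξ (d.lo z) := a1 _ (Or.inl hlM)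
    have b2 : ξ1 (d.hi z) = ξ (d.hi z) := a1 _ (Or.inl hrM)
    have b3 : ξ1 z = ξ z := a1 _ (Or.inl hzM)
    have bA : ∀ y ∈ A, ξ1 y = ξ y := fun y hy => a1 y (Or.inl fun hm => dA y hy (mmid y hm))
    have bB : ∀ y ∈ B, ξ1 y = ξ y := fun y hy => a1 y (Or.inl fun hm => dB y hy (mmid y hm))
    have same : ∀ a y c, ξ1 a = ξ a → ξ1 y = ξ y → ξ1 c = ξ c → y ∉ d.N z →
        Conc d D (z :: ord) h ξ a y c → Conc d D ord h ξ1 a y c := by
      intro a y c ea ey ec hy hc hn
      rw [Lf_congr ea ec ey]
      refine ⟨(hc hn).1, fun hm => (hc hn).2 ?_⟩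
      intro u hu
      rcases mem_cons.1 hu with rfl | hu
      · exact hy
      · exact hm u hu
    obtain ⟨L1, hL1⟩ := append_single_eq (d.mid z) (d.hi z)
    obtain ⟨L2, w2, hL2⟩ := append_single_eq' (d.lo z) (d.mid z)
    set w1 := (d.mid z).headD (d.hi z) with hw1
    have hN1 : d.N z = d.lo z :: w1 :: L1 := by unfold Dat.N; rw [hL1]
    have hN2 : d.N z = L2 ++ [w2, d.hi z] := by
      have : d.N z = (d.lo z :: d.mid z) ++ [d.hi z] := rfl
      rw [this, hL2]; simp
    have htri1 : Tri3 (Conc d D ord h ξ1) (A ++ d.lo z :: (d.mid z ++ d.hi z :: B)) := by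
      have e1 : A ++ d.lo z :: (d.mid z ++ d.hi z :: B) = A ++ d.lo z :: w1 :: (L1 ++ B) := by
        have : d.mid z ++ d.hi z :: B = (d.mid z ++ [d.hi z]) ++ B := by simp
        rw [this, hL1]; simp
      have e2 : d.lo z :: w1 :: (L1 ++ B) = L2 ++ w2 :: d.hi z :: B := by
        have : d.lo z :: w1 :: (L1 ++ B) = d.N z ++ B := by rw [hN1]; simp
        rw [this, hN2]; simp
      rw [e1]
      refine (tri3_split A).2 ⟨?_, ?_⟩
      swap
      rw [e2]
      refine (tri3_split L2).2 ⟨?_, ?_⟩
      rotate_left 2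
      · refine tri3_last A ?_ ?_ t1
        · intro a y c ha hy hc
          refine same a y c (bA a ha) (bA y hy) ?_ (dA y hy)
          rcases mem_append.1 hc with hc | hc
          · exact bA c hc
          · simp at hc; rw [hc]; exact b1
        · intro a ha hc hn
          have hz : ¬ D z := fun hz => hn (hD z mem_cons_self hz _ mlo)
          have k1 := (hc hn).1
          have k2 : 0 < Lf h ξ1 (d.lo z) w1 z := by
            have := a3 hz; rw [hN1, isChain_cons_cons] at this; exact this.1
          have k3 : h (d.lo z) < h w1 := by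
            rw [hN1] at hsN; exact (pairwise_cons.1 hsN).1 w1 (by simp)
          have k4 := hAl a ha
          rw [← Lf_congr (bA a ha) b3 b1] at k1
          have : 0 < Lf h ξ1 a w1 (d.lo z) := by
            have i1 : (h z - h (d.lo z)) * Lf h ξ1 a w1 (d.lo z) =
                (h w1 - h (d.lo z)) * Lf h ξ1 a z (d.lo z) +
                  (h (d.lo z) - h a) * Lf h ξ1 (d.lo z) w1 z := by unfold Lf; ring
            have j1 := mul_nonneg (sub_nonneg.2 k3.le) k1
            have j2 := mul_pos (sub_pos.2 k4) k2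
            have j4 : 0 < (h z - h (d.lo z)) * Lf h ξ1 a w1 (d.lo z) := by linarith
            exact (pos_iff_pos_of_mul_pos j4).1 (sub_pos.2 hlo)
          exact ⟨this.le, fun _ => this⟩
      · rw [← hN2]
        exact tri3_imp _ (fun a y c _ _ _ hc hn => ⟨(hc hn).le, fun _ => hc hn⟩) a4
      · refine tri3_first B ?_ ?_ t3
        · intro a y c ha hy hc
          refine same a y c ?_ (bB y hy) (bB c hc) (dB y hy)
          rcases mem_cons.1 ha with ha | ha
          · rw [ha]; exact b2
          · exact bB a ha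
        · intro c hc' hc hn
          have hz : ¬ D z := fun hz => hn (hD z mem_cons_self hz _ mhi)
          have k1 := (hc hn).1
          have k2 : 0 < Lf h ξ1 w2 (d.hi z) z := by
            have := chain_sub (a3 hz) (l₁ := [w2, d.hi z]) ⟨L2, [], by rw [hN2]; simp⟩
            simpa using this
          have k3 : h w2 < h (d.hi z) :=
            pair_lt hsN (c := w2) (c' := d.hi z) ⟨L2, [], by rw [hN2]; simp⟩
          have k4 := hBr c hc'
          rw [← Lf_congr b3 (bB c hc') b2] at k1
          have : 0 < Lf h ξ1 w2 c (d.hi z) := by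
            have i1 : (h (d.hi z) - h z) * Lf h ξ1 w2 c (d.hi z) =
                (h (d.hi z) - h w2) * Lf h ξ1 z c (d.hi z) +
                  (h c - h (d.hi z)) * Lf h ξ1 w2 (d.hi z) z := by unfold Lf; ring
            have j1 := mul_nonneg (sub_nonneg.2 k3.le) k1
            have j2 := mul_pos (sub_pos.2 k4) k2
            have j4 : 0 < (h (d.hi z) - h z) * Lf h ξ1 w2 c (d.hi z) := by linarith
            exact (pos_iff_pos_of_mul_pos j4).1 (sub_pos.2 hhi)
          exact ⟨this.le, fun _ => this⟩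
    obtain ⟨ξ', c1, c2⟩ := ih ξ1 (fun y hy => (a1 y (Or.inr hy)).trans (hξ y hy))
      (by
        intro y hy hn
        by_cases hm : y ∈ d.mid z
        · exact a2 y hm hn
        · rw [a1 y (Or.inl hm)]
          apply hpos y _ hn
          simp only [mem_append, mem_cons] at hy ⊢
          tauto) htri1
    refine ⟨ξ', ?_, ?_⟩
    · rintro y (hy | hy | hy)
      · by_cases hyz : y = z
        · subst hyz; rw [c1 y (Or.inr (Or.inl h1))]; exact b3
        · have hy' : y ∈ A ∨ y = d.lo z ∨ y = d.hi z ∨ y ∈ B := by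
            simp only [mem_append, mem_cons] at hy
            tauto
          rw [c1 y (Or.inl (by simp only [mem_append, mem_cons]; tauto))]
          rcases hy' with q | q | q | q
          · exact bA y q
          · rw [q]; exact b1
          · rw [q]; exact b2
          · exact bB y q
      · have hy1 : y ∉ ord := fun hm => hy (mem_cons_of_mem _ hm)
        rw [c1 y (Or.inr (Or.inl hy1))]
        by_cases hm : y ∈ d.mid z
        · rcases hNI y (mmid y hm) with q | q | q
          · exact absurd q hy1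
          · exact a1 y (Or.inr (q ▸ Db))
          · exact a1 y (Or.inr (q ▸ Dt))
        · exact a1 y (Or.inl hm)
      · rw [c1 y (Or.inr (Or.inr hy))]; exact a1 y (Or.inr hy)
    · intro u hu hn
      rcases mem_cons.1 hu with rfl | hu
      · refine IsChain.imp_of_mem_imp ?_ (a3 hn)
        intro a b ha hb hab
        rw [Lf_congr (c1 a (Or.inl (mem_N_sub ha))) (c1 b (Or.inl (mem_N_sub hb)))
          (c1 u (Or.inr (Or.inl h1)))]
        exact hab
      · exact c2 u hu hn

end Pool.Agent.MP_d347ac_co.H31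

end

section

set_option autoImplicit false

namespace Pool.Agent.MP_d347ac_co.H31

open List

variable {V : Type}

def Pre (d : Dat V) (ord : List V) (u v : V) : Prop := v ∈ ord ∧ u ∈ d.N v

def Below (d : Dat V) (ord : List V) : V → V → Prop := Relation.ReflTransGen (Pre d ord)

def Cov (d : Dat V) (ord : List V) (o z : V) : Prop :=
  ∃ c ∈ ord, o ∈ d.mid c ∧ Below d ord c z

def QMono (d : Dat V) (ord : List V) (g : V → Prop) : Prop :=
  (∀ v ∈ ord, (g (d.lo v) → g v) ∧ (g v → g (d.hi v))) ∧ (g d.b → g d.t)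

def QLe (d : Dat V) (ord : List V) (u v : V) : Prop := ∀ g, QMono d ord g → g u → g v

theorem Below.time {d : Dat V} {ord : List V} {τ : V → ℕ}
    (hτ : ∀ v ∈ ord, ∀ w ∈ d.N v, τ w < τ v) {u v : V} (h : Below d ord u v) :
    u = v ∨ τ u < τ v := by
  induction h with
  | refl => exact Or.inl rfl
  | tail _ e ih =>
    right
    have := hτ _ e.1 _ e.2
    rcases ih with rfl | ih <;> omega

theorem Below.mem_ord {d : Dat V} {ord : List V} {u v : V} (h : Below d ord u v) (hu : u ∈ ord) :
    v ∈ ord := by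
  induction h with
  | refl => exact hu
  | tail _ e _ => exact e.1

theorem Cov.trans_below {d : Dat V} {ord : List V} {o z v : V} (h : Cov d ord o z)
    (h' : Below d ord z v) : Cov d ord o v := by
  obtain ⟨c, h1, h2, h3⟩ := h
  exact ⟨c, h1, h2, h3.trans h'⟩

theorem mid_N {d : Dat V} {c o : V} (h : o ∈ d.mid c) : o ∈ d.N c := by simp [Dat.N, h]

theorem Cov.below {d : Dat V} {ord : List V} {o z : V} (h : Cov d ord o z) : Below d ord o z := by
  obtain ⟨c, h1, h2, h3⟩ := h
  exact Relation.ReflTransGen.head ⟨h1, mid_N h2⟩ h3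

theorem chain_fwd {R : V → V → Prop} {g : V → Prop} :
    ∀ (L : List V) (a : V), IsChain R (a :: L) → (∀ x y, x ∈ a :: L → y ∈ a :: L → R x y → g x → g y) →
      g a → ∀ u ∈ a :: L, g u
  | [], a => fun _ _ ha u hu => by simp at hu; rw [hu]; exact ha
  | b :: L, a => fun hc H ha u hu => by
    rw [isChain_cons_cons] at hc
    rcases mem_cons.1 hu with rfl | hu
    · exact ha
    · exact chain_fwd L b hc.2
        (fun x y hx hy => H x y (mem_cons_of_mem _ hx) (mem_cons_of_mem _ hy))
        (H a b (by simp) (by simp) hc.1 ha) u hu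

theorem chain_last {R : V → V → Prop} {g : V → Prop} {r : V} :
    ∀ (L : List V), IsChain R (L ++ [r]) →
      (∀ x y, x ∈ L ++ [r] → y ∈ L ++ [r] → R x y → g x → g y) →
      ∀ u ∈ L ++ [r], g u → g r
  | [] => fun _ _ u hu => by simp at hu; rw [hu]; exact id
  | a :: L => fun hc H u hu gu => by
    rcases mem_cons.1 hu with rfl | hu
    · exact chain_fwd (L ++ [r]) u hc H gu r (by simp)
    · exact chain_last L hc.tail
        (fun x y hx hy => H x y (mem_cons_of_mem _ hx) (mem_cons_of_mem _ hy)) u hu gu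

theorem Build.F2 [DecidableEq V] {d : Dat V} {ord C : List V} (hB : Build d ord C) {o z : V}
    (hc : Cov d ord o z) : ¬ QLe d ord o z ∧ ¬ QLe d ord z o := by
  obtain ⟨τ, -, hτ⟩ := hB.time
  obtain ⟨h, H, -⟩ := hB.exists_mono
  obtain ⟨c, hc, ho, hz⟩ := hc
  have hE := hB.chainE.2
  have hsN := hB.sortedN H hc
  have o1 : h (d.lo c) < h o := (pairwise_cons.1 hsN).1 o (by simp [ho])
  have o2 : h o < h (d.hi c) :=
    (pairwise_append.1 (pairwise_cons.1 hsN).2).2.2 _ ho (d.hi c) (by simp)
  have notup : ∀ w ∈ d.N c, ¬ Below d ord c w := by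
    intro w hw hb
    have := hτ c hc w hw
    rcases hb.time hτ with e | e
    · rw [e] at this; omega
    · omega
  have mlo : ∀ v, d.lo v ∈ d.N v := fun v => by simp [Dat.N]
  have mhi : ∀ v, d.hi v ∈ d.N v := fun v => by simp [Dat.N]
  have up : ∀ v ∈ ord, ∀ w ∈ d.N v, Below d ord c w → Below d ord c v :=
    fun v hv w hw hb => hb.tail ⟨hv, hw⟩
  have nb : ¬ Below d ord c d.b := fun hb => hB.base_notMem.1 (hb.mem_ord hc)
  have nt : ¬ Below d ord c d.t := fun hb => hB.base_notMem.2 (hb.mem_ord hc)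
  constructor
  · intro hq
    set g : V → Prop := fun v => ¬ Below d ord c v ∧ h o ≤ h v with hg
    have g2 : ∀ v ∈ ord, g v → g (d.hi v) := fun v hv gv =>
      ⟨fun hb => gv.1 (up v hv _ (mhi v) hb), gv.2.trans (H.2 v hv).2.le⟩
    have g3 : g d.b → g d.t := fun gb => ⟨nt, gb.2.trans H.1.le⟩
    have key : ∀ n, ∀ v ∈ ord, τ v < n → Below d ord c v → ¬ g (d.lo v) := by
      intro n
      induction n with
      | zero => intro v _ hv; omega
      | succ n ih =>
        intro v hv hn hb gl
        rcases hb.cases_tail with e | ⟨u, hu, e⟩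
        · subst e; have := gl.2; linarith
        · have := chain_fwd (g := g) _ _ (hE v hv) (by
            intro x y _ hy e gx
            rcases e with ⟨e, rfl⟩ | ⟨e, rfl⟩ | ⟨rfl, rfl⟩
            · by_cases hy' : Below d ord c y
              · have := hτ v hv y hy
                exact absurd gx (ih y e (by omega) hy')
              · exact ⟨hy', gx.2.trans (H.2 y e).1.le⟩
            · exact g2 x e gx
            · exact g3 gx) gl u e.2
          exact this.1 hu
    have hm : QMono d ord g := by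
      refine ⟨fun v hv => ⟨fun gl => ?_, g2 v hv⟩, g3⟩
      by_cases hb : Below d ord c v
      · exact absurd gl (key _ v hv (Nat.lt_succ_self _) hb)
      · exact ⟨hb, gl.2.trans (H.2 v hv).1.le⟩
    exact (hq g hm ⟨notup o (mid_N ho), le_rfl⟩).1 hz
  · intro hq
    set g : V → Prop := fun v => Below d ord c v ∨ h o < h v with hg
    have g1 : ∀ v ∈ ord, g (d.lo v) → g v := fun v hv gv =>
      gv.elim (fun hb => Or.inl (up v hv _ (mlo v) hb)) fun q => Or.inr (q.trans (H.2 v hv).1)
    have g3 : g d.b → g d.t := fun gb => gb.elim (fun q => absurd q nb) fun q => Or.inr (q.trans H.1)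
    have key : ∀ n, ∀ v ∈ ord, τ v < n → Below d ord c v → g (d.hi v) := by
      intro n
      induction n with
      | zero => intro v _ hv; omega
      | succ n ih =>
        intro v hv hn hb
        rcases hb.cases_tail with e | ⟨u, hu, e⟩
        · subst e; exact Or.inr o2
        · exact chain_last (g := g) (d.lo v :: d.mid v) (hE v hv) (by
            intro x y hx _ e gx
            rcases e with ⟨e, rfl⟩ | ⟨e, rfl⟩ | ⟨rfl, rfl⟩
            · exact g1 y e gx
            · rcases gx with gx | gx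
              · have := hτ v hv x hx
                exact ih x e (by omega) gx
              · exact Or.inr (gx.trans (H.2 x e).2)
            · exact g3 gx) u e.2 (Or.inl hu)
    have hm : QMono d ord g := by
      refine ⟨fun v hv => ⟨g1 v hv, fun gv => ?_⟩, g3⟩
      rcases gv with gv | gv
      · exact key _ v hv (Nat.lt_succ_self _) gv
      · exact Or.inr (gv.trans (H.2 v hv).2)
    rcases hq g hm (Or.inl hz) with q | q
    · exact notup o (mid_N ho) q
    · exact lt_irrefl _ q

section stage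

variable [Fintype V] [DecidableEq V]

structure Closed (d : Dat V) (ord : List V) (D : Finset V) : Prop where
  b : d.b ∈ D
  t : d.t ∈ D
  cl : ∀ v ∈ D, ∀ u, Pre d ord u v → u ∈ D

omit [Fintype V] [DecidableEq V] in
theorem Closed.below {d : Dat V} {ord : List V} {D : Finset V} (hD : Closed d ord D) {u v : V}
    (h : Below d ord u v) (hv : v ∈ D) : u ∈ D := by
  induction h using Relation.ReflTransGen.head_induction_on with
  | refl => exact hv
  | head e _ ih => exact hD.cl _ ih _ e

def Valid (d : Dat V) (ord : List V) (h : V → ℝ) (D : Finset V) (x : V → ℝ) : Prop :=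
  ∀ z ∈ ord, z ∈ D → Sees d h x z

theorem lemmaT {d : Dat V} {ord C : List V} (hB : Build d ord C) {h : V → ℝ}
    (H : Mono d ord h) {D : Finset V} (hD : Closed d ord D) (v : V) :
    ∃ (ξ : V → ℝ) (M : ℝ), (∀ y ∈ D, ξ y = 0) ∧
      (∀ z ∈ ord, Below d ord z v → z ∉ D → Sees d h ξ z) ∧
      ∀ y ∈ ord, Below d ord y v → y ∉ D → ¬ Cov d ord y v → ξ y = M - |h y - h v| := by
  classical
  set D' : V → Prop := fun y => y ∈ D ∨ Below d ord y v with hD'
  obtain ⟨C', hB', -⟩ := hB.filter D' (by
    rintro u hu (q | q) w hw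
    · exact Or.inl (hD.cl u q w ⟨hu, hw⟩)
    · exact Or.inr (Relation.ReflTransGen.head ⟨hu, hw⟩ q))
  set ord' := ord.filter (fun y => D' y) with hord'
  have mem' : ∀ y, y ∈ ord' ↔ y ∈ ord ∧ D' y := fun y => by simp [hord']
  have H' : Mono d ord' h := ⟨H.1, fun u hu => H.2 u ((mem' u).1 hu).1⟩
  set M : ℝ := 1 + ∑ y, |h y - h v| with hM
  have hφ : ∀ y, 0 < M - |h y - h v| := by
    intro y
    have : |h y - h v| ≤ ∑ y, |h y - h v| :=
      Finset.single_le_sum (f := fun y => |h y - h v|) (fun _ _ => abs_nonneg _) (Finset.mem_univ y)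
    linarith
  set ξ0 : V → ℝ := fun y => if y ∈ D then 0 else M - |h y - h v| with hξ0
  have le0 : ∀ y, ξ0 y ≤ M - |h y - h v| := by
    intro y; simp only [hξ0]; split_ifs
    · exact (hφ y).le
    · exact le_rfl
  obtain ⟨ξ, a1, a2⟩ := hB'.topdown H' (fun y => y ∈ D) hD.b hD.t
    (fun u hu q w hw => hD.cl u q w ⟨((mem' u).1 hu).1, hw⟩) ξ0
    (fun y hy => by simp [hξ0, hy]) (fun y _ hy => by simpa [hξ0, hy] using hφ y)
    (by
      refine tri3_of_sorted C' (hB'.sorted H') ?_
      intro a y c _ hy _ h1 h2 hn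
      have ey : ξ0 y = M - |h y - h v| := by simp [hξ0, hn]
      have la := mul_le_mul_of_nonneg_left (le0 a) (sub_nonneg.2 h2.le)
      have lc := mul_le_mul_of_nonneg_left (le0 c) (sub_nonneg.2 h1.le)
      constructor
      · have cv : (h c - h a) * |h y - h v| ≤
            (h c - h y) * |h a - h v| + (h y - h a) * |h c - h v| := by
          have e : (h c - h a) * (h y - h v) =
              (h c - h y) * (h a - h v) + (h y - h a) * (h c - h v) := by ring
          have := abs_add_le ((h c - h y) * (h a - h v)) ((h y - h a) * (h c - h v))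
          rw [← e, abs_mul, abs_mul, abs_mul, abs_of_pos (by linarith : 0 < h c - h a),
            abs_of_pos (by linarith : 0 < h c - h y), abs_of_pos (by linarith : 0 < h y - h a)]
            at this
          exact this
        unfold Lf; rw [ey]; linarith
      · intro hmax
        have hyv : y = v := by
          rcases hB'.mem y hy with q | q | q
          · rcases ((mem' y).1 q).2 with q' | q'
            · exact absurd q' hn
            · rcases q'.cases_head with e | ⟨u, e, hu⟩
              · exact e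
              · exact absurd e.2 (hmax u ((mem' u).2 ⟨e.1, Or.inr hu⟩))
          · exact absurd (q ▸ hD.b) hn
          · exact absurd (q ▸ hD.t) hn
        subst hyv
        rw [abs_of_neg (by linarith : h a - h y < 0)] at la
        rw [abs_of_pos (by linarith : 0 < h c - h y)] at lc
        have := mul_pos (sub_pos.2 h1) (sub_pos.2 h2)
        unfold Lf; rw [ey]; simp only [sub_self, abs_zero, sub_zero]; linarith)
  refine ⟨ξ, M, fun y hy => ?_, fun z hz hb hn => a2 z ((mem' z).2 ⟨hz, Or.inr hb⟩) hn, ?_⟩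
  · rw [a1 y (Or.inr (Or.inr hy))]; simp [hξ0, hy]
  · intro y hy hb hn hc
    rcases hB'.covered y (Or.inl ((mem' y).2 ⟨hy, Or.inr hb⟩)) with q | ⟨c, q1, q2⟩
    · rw [a1 y (Or.inl q)]; simp [hξ0, hn]
    · obtain ⟨q3, q4 | q4⟩ := (mem' c).1 q1
      · exact absurd (hD.cl c q4 y ⟨q3, mid_N q2⟩) hn
      · exact absurd ⟨c, q3, q2, q4⟩ hc

theorem big_scale {ι : Type} [Fintype ι] (f g : ι → ℝ) :
    ∃ K : ℝ, ∀ i, 0 < g i → 0 < f i + K * g i := by
  have : ∀ i, ∀ᶠ K : ℝ in Filter.atTop, 0 < g i → 0 < f i + K * g i := by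
    intro i
    by_cases hg : 0 < g i
    · filter_upwards [Filter.eventually_gt_atTop (-f i / g i)] with K hK _
      rw [div_lt_iff₀ hg] at hK; linarith
    · exact Filter.Eventually.of_forall fun _ h => absurd h hg
  exact (Filter.eventually_all.2 this).exists

theorem extend {d : Dat V} {ord : List V} {h : V → ℝ} {D D' : Finset V} (hD : Closed d ord D)
    {x ξ : V → ℝ} (hx : Valid d ord h D x) (h0 : ∀ y ∈ D, ξ y = 0)
    (hs : ∀ z ∈ ord, z ∈ D' → z ∉ D → Sees d h ξ z) :
    ∃ (K : ℝ) (x' : V → ℝ), Valid d ord h D' x' ∧ (∀ y ∈ D, x' y = x y) ∧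
      ∀ y, y ∉ D → x' y = K * ξ y := by
  set x0 : V → ℝ := fun y => if y ∈ D then x y else 0 with hx0
  obtain ⟨K, hK⟩ := big_scale (fun i : V × V × V => Lf h x0 i.1 i.2.1 i.2.2)
    (fun i => Lf h ξ i.1 i.2.1 i.2.2)
  have e1 : ∀ y ∈ D, x0 y + K * ξ y = x y := fun y hy => by simp [hx0, hy, h0 y hy]
  refine ⟨K, fun y => x0 y + K * ξ y, ?_, e1, fun y hy => by simp [hx0, hy]⟩
  intro z hz hz'
  by_cases hzD : z ∈ D
  · refine IsChain.imp_of_mem_imp ?_ (hx z hz hzD)
    intro a b ha hb hab
    rw [Lf_congr (ξ := x) (e1 a (hD.cl z hzD a ⟨hz, ha⟩)) (e1 b (hD.cl z hzD b ⟨hz, hb⟩))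
      (e1 z hzD)]
    exact hab
  · refine (hs z hz hz' hzD).imp ?_
    intro a b hab
    have := hK (a, b, z) hab
    have e : Lf h (fun y => x0 y + K * ξ y) a b z = Lf h x0 a b z + K * Lf h ξ a b z := by
      unfold Lf; ring
    rw [e]; exact this

theorem add_minimal {d : Dat V} {ord C : List V} (hB : Build d ord C) {h : V → ℝ}
    (H : Mono d ord h) {D O : Finset V} (hD : Closed d ord D) {x : V → ℝ}
    (hx : Valid d ord h D x) (hO : ∀ o ∈ O, o ∉ D ∧ ∀ u, Pre d ord u o → u ∈ D) :
    ∃ (K : ℝ) (x' : V → ℝ), Valid d ord h (D ∪ O) x' ∧ (∀ y ∈ D, x' y = x y) ∧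
      ∀ y ∈ O, x' y = K := by
  obtain ⟨K, x', a1, a2, a3⟩ := extend (D' := D ∪ O) (ξ := fun y => if y ∈ D then 0 else 1) hD hx
    (fun y hy => by simp [hy]) (by
      intro z hz hz' hn
      have hzO : z ∈ O := by simpa [hn] using hz'
      have hc : IsChain (fun a b => h a < h b) (d.N z) := (hB.sortedN H hz).isChain
      refine IsChain.imp_of_mem_imp ?_ hc
      intro a b ha hb hab
      unfold Lf
      simp [(hO z hzO).2 a ⟨hz, ha⟩, (hO z hzO).2 b ⟨hz, hb⟩, hn, hab])
  exact ⟨K, x', a1, a2, fun y hy => by rw [a3 y (hO y hy).1]; simp [(hO y hy).1]⟩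

theorem free_ext {d : Dat V} {ord C : List V} (hB : Build d ord C) {h : V → ℝ}
    (H : Mono d ord h) {D' : Finset V} (hD' : Closed d ord D') :
    ∀ (n : ℕ) (D : Finset V) (x : V → ℝ), (D' \ D).card = n → Closed d ord D →
      Valid d ord h D x → ∃ x' : V → ℝ, Valid d ord h D' x' ∧ ∀ y ∈ D, x' y = x y := by
  obtain ⟨τ, -, hτ⟩ := hB.time
  intro n
  induction n with
  | zero =>
    intro D x hn _ hx
    have : D' ⊆ D := Finset.sdiff_eq_empty_iff_subset.1 (Finset.card_eq_zero.1 hn)
    exact ⟨x, fun z hz hz' => hx z hz (this hz'), fun _ _ => rfl⟩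
  | succ n ih =>
    intro D x hn hD hx
    obtain ⟨o, ho, hmin⟩ := Finset.exists_min_image (D' \ D) τ
      (Finset.card_pos.1 (by omega))
    rw [Finset.mem_sdiff] at ho
    have hpre : ∀ u, Pre d ord u o → u ∈ D := by
      intro u hu
      by_contra hn
      have := hmin u (Finset.mem_sdiff.2 ⟨hD'.cl o ho.1 u hu, hn⟩)
      have := hτ o hu.1 u hu.2
      omega
    obtain ⟨K, x1, a1, a2, -⟩ := add_minimal hB H (O := {o}) hD hx (by
      intro o' ho'; rw [Finset.mem_singleton.1 ho']; exact ⟨ho.2, hpre⟩)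
    obtain ⟨x', b1, b2⟩ := ih (D ∪ {o}) x1 (by
      have : D' \ (D ∪ {o}) = (D' \ D).erase o := by
        ext y; simp only [Finset.mem_sdiff, Finset.mem_union, Finset.mem_singleton,
          Finset.mem_erase]; tauto
      rw [this, Finset.card_erase_of_mem (Finset.mem_sdiff.2 ho), hn]; rfl)
      ⟨Finset.mem_union_left _ hD.b, Finset.mem_union_left _ hD.t, by
        intro v hv u hu
        rcases Finset.mem_union.1 hv with hv | hv
        · exact Finset.mem_union_left _ (hD.cl v hv u hu)
        · rw [Finset.mem_singleton.1 hv] at hu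
          exact Finset.mem_union_left _ (hpre u hu)⟩ a1
    exact ⟨x', b1, fun y hy => (b2 y (Finset.mem_union_left _ hy)).trans (a2 y hy)⟩

/-- the vertices of `S` are covered by at most `k` lines -/
def Lines (h x : V → ℝ) (S : Finset V) (k : ℕ) : Prop :=
  ∃ Ls : Finset (ℝ × ℝ × ℝ), Ls.card ≤ k ∧ (∀ l ∈ Ls, l.1 ≠ 0 ∨ l.2.1 ≠ 0) ∧
    ∀ y ∈ S, ∃ l ∈ Ls, l.1 * x y + l.2.1 * h y = l.2.2

structure Good (d : Dat V) (ord : List V) (h : V → ℝ) (S D : Finset V) (x : V → ℝ) (k : ℕ) :
    Prop where
  cl : Closed d ord D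
  val : Valid d ord h D x
  cov : Lines h x (S ∩ D) k

omit [Fintype V] in
theorem Lines.add {h x x' : V → ℝ} {S T : Finset V} {k m : ℕ} (h1 : Lines h x S k)
    (hx : ∀ y ∈ S, x' y = x y) (h2 : Lines h x' (T \ S) m) : Lines h x' T (k + m) := by
  classical
  obtain ⟨L1, a1, a2, a3⟩ := h1
  obtain ⟨L2, b1, b2, b3⟩ := h2
  refine ⟨L1 ∪ L2, (Finset.card_union_le _ _).trans (by omega), ?_, ?_⟩
  · intro l hl
    rcases Finset.mem_union.1 hl with hl | hl
    · exact a2 l hl
    · exact b2 l hl
  · intro y hy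
    by_cases hS : y ∈ S
    · obtain ⟨l, hl, e⟩ := a3 y hS
      exact ⟨l, Finset.mem_union_left _ hl, by rw [hx y hS]; exact e⟩
    · obtain ⟨l, hl, e⟩ := b3 y (Finset.mem_sdiff.2 ⟨hy, hS⟩)
      exact ⟨l, Finset.mem_union_right _ hl, e⟩

open Classical in
noncomputable def down (d : Dat V) (ord : List V) (v : V) : Finset V :=
  Finset.univ.filter (fun y => Below d ord y v)

omit [DecidableEq V] in
theorem mem_down {d : Dat V} {ord : List V} {v y : V} : y ∈ down d ord v ↔ Below d ord y v := by
  simp [down]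

theorem opT {d : Dat V} {ord C : List V} (hB : Build d ord C) {h : V → ℝ}
    (H : Mono d ord h) {S D : Finset V} (hS : ∀ y ∈ S, y ∈ ord) {x : V → ℝ} {k : ℕ}
    (G : Good d ord h S D x k) (v : V) (hv : ∀ y ∈ S, Cov d ord y v → y ∈ D) :
    ∃ x', Good d ord h S (D ∪ down d ord v) x' (k + 2) := by
  classical
  obtain ⟨ξ, M, a1, a2, a3⟩ := lemmaT hB H G.cl v
  obtain ⟨K, x', b1, b2, b3⟩ := extend (D' := D ∪ down d ord v) G.cl G.val a1 (by
    intro z hz hz' hn
    exact a2 z hz (mem_down.1 (by simpa [hn] using hz')) hn)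
  refine ⟨x', ⟨Finset.mem_union_left _ G.cl.b, Finset.mem_union_left _ G.cl.t, ?_⟩, b1, ?_⟩
  · intro w hw u hu
    rcases Finset.mem_union.1 hw with hw | hw
    · exact Finset.mem_union_left _ (G.cl.cl w hw u hu)
    · exact Finset.mem_union_right _ (mem_down.2 (Relation.ReflTransGen.head hu (mem_down.1 hw)))
  · refine G.cov.add (fun y hy => b2 y (Finset.mem_inter.1 hy).2) ?_
    refine ⟨{(1, K, K * M + K * h v), (1, -K, K * M - K * h v)}, Finset.card_le_two, ?_, ?_⟩
    · intro l hl
      simp only [Finset.mem_insert, Finset.mem_singleton] at hl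
      rcases hl with rfl | rfl <;> simp
    · intro y hy
      simp only [Finset.mem_sdiff, Finset.mem_inter, Finset.mem_union, not_and] at hy
      have hn : y ∉ D := hy.2 hy.1.1
      have hb : Below d ord y v := mem_down.1 (hy.1.2.resolve_left hn)
      have e := a3 y (hS y hy.1.1) hb hn fun hc => hn (hv y hy.1.1 hc)
      rw [b3 y hn, e]
      rcases le_total (h y) (h v) with q | q
      · refine ⟨(1, -K, K * M - K * h v), by simp, ?_⟩
        rw [abs_of_nonpos (by linarith)]; ring
      · refine ⟨(1, K, K * M + K * h v), by simp, ?_⟩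
        rw [abs_of_nonneg (by linarith)]; ring

theorem opV {d : Dat V} {ord C : List V} (hB : Build d ord C) {h : V → ℝ}
    (H : Mono d ord h) {S D O : Finset V} {x : V → ℝ} {k : ℕ}
    (G : Good d ord h S D x k) (hOS : O ⊆ S)
    (hO : ∀ o ∈ O, o ∉ D ∧ ∀ y ∈ S, Below d ord y o → y ≠ o → y ∈ D) :
    ∃ D' x', D ⊆ D' ∧ O ⊆ D' ∧ Good d ord h S D' x' (k + 1) := by
  classical
  obtain ⟨τ, -, hτ⟩ := hB.time
  set D1 := D ∪ (O.biUnion (down d ord) \ O) with hD1
  have mem1 : ∀ y, y ∈ D1 ↔ y ∈ D ∨ ((∃ o ∈ O, Below d ord y o) ∧ y ∉ O) := by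
    intro y; simp [hD1, mem_down]
  have key : ∀ u w, ∀ o ∈ O, Pre d ord u w → Below d ord w o → u ∈ D1 := by
    intro u w o ho hu hw
    have hb : Below d ord u o := Relation.ReflTransGen.head hu hw
    rw [mem1]
    by_cases huO : u ∈ O
    · left
      refine (hO o ho).2 u (hOS huO) hb ?_
      rintro rfl
      have := hτ w hu.1 u hu.2
      rcases hw.time hτ with e | e
      · rw [e] at this; omega
      · omega
    · exact Or.inr ⟨⟨o, ho, hb⟩, huO⟩
  have c1 : Closed d ord D1 := by
    refine ⟨(mem1 _).2 (Or.inl G.cl.b), (mem1 _).2 (Or.inl G.cl.t), ?_⟩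
    intro w hw u hu
    rcases (mem1 w).1 hw with q | ⟨⟨o, ho, q⟩, -⟩
    · exact (mem1 _).2 (Or.inl (G.cl.cl w q u hu))
    · exact key u w o ho hu q
  obtain ⟨x1, a1, a2⟩ := free_ext hB H c1 _ D x rfl G.cl G.val
  obtain ⟨K, x', b1, b2, b3⟩ := add_minimal hB H (O := O) c1 a1 (by
    intro o ho
    refine ⟨?_, fun u hu => key u o o ho hu Relation.ReflTransGen.refl⟩
    rw [mem1]
    rintro (q | q)
    · exact (hO o ho).1 q
    · exact q.2 ho)
  have sub : D ⊆ D1 := Finset.subset_union_left
  refine ⟨D1 ∪ O, x', sub.trans Finset.subset_union_left, Finset.subset_union_right,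
    ⟨Finset.mem_union_left _ c1.b, Finset.mem_union_left _ c1.t, ?_⟩, b1, ?_⟩
  · intro w hw u hu
    rcases Finset.mem_union.1 hw with hw | hw
    · exact Finset.mem_union_left _ (c1.cl w hw u hu)
    · exact Finset.mem_union_left _ (key u w w hw hu Relation.ReflTransGen.refl)
  · refine G.cov.add (fun y hy => ?_) ?_
    · have := (Finset.mem_inter.1 hy).2
      rw [b2 y (sub this), a2 y this]
    · refine ⟨{(1, 0, K)}, by simp, by simp, ?_⟩
      intro y hy
      simp only [Finset.mem_sdiff, Finset.mem_inter, Finset.mem_union, not_and] at hy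
      have hn : y ∉ D := hy.2 hy.1.1
      have hyO : y ∈ O := by
        rcases hy.1.2 with q | q
        · rcases (mem1 y).1 q with q | ⟨⟨o, ho, q⟩, q'⟩
          · exact absurd q hn
          · exact absurd ((hO o ho).2 y hy.1.1 q fun e => q' (e ▸ ho)) hn
        · exact q
      exact ⟨(1, 0, K), by simp, by simp [b3 y hyO]⟩

theorem layerV {d : Dat V} {ord C : List V} (hB : Build d ord C) {h : V → ℝ}
    (H : Mono d ord h) {S O : Finset V} (hOS : O ⊆ S) :
    ∀ (r : ℕ) (D : Finset V) (x : V → ℝ) (k : ℕ), Good d ord h S D x k →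
      (∀ o ∈ O, ((S ∩ down d ord o) \ D).card ≤ r) →
      ∃ D' x', D ⊆ D' ∧ O ⊆ D' ∧ Good d ord h S D' x' (k + r) := by
  classical
  obtain ⟨τ, -, hτ⟩ := hB.time
  intro r
  induction r with
  | zero =>
    intro D x k G hr
    refine ⟨D, x, Finset.Subset.refl _, ?_, G⟩
    intro o ho
    have := Finset.sdiff_eq_empty_iff_subset.1 (Finset.card_eq_zero.1 (Nat.le_zero.1 (hr o ho)))
    exact this (Finset.mem_inter.2 ⟨hOS ho, mem_down.2 Relation.ReflTransGen.refl⟩)
  | succ r ih =>
    intro D x k G hr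
    set O1 := S.filter (fun o => o ∉ D ∧ ∀ y ∈ S, Below d ord y o → y ≠ o → y ∈ D) with hO1
    obtain ⟨D1, x1, s1, s2, G1⟩ := opV hB H (O := O1) G (Finset.filter_subset _ _)
      (fun o ho => (Finset.mem_filter.1 ho).2)
    obtain ⟨D', x', t1, t2, G'⟩ := ih D1 x1 (k + 1) G1 (by
      intro o ho
      rcases ((S ∩ down d ord o) \ D).eq_empty_or_nonempty with e | e
      · have : (S ∩ down d ord o) \ D1 ⊆ (S ∩ down d ord o) \ D :=
          Finset.sdiff_subset_sdiff (Finset.Subset.refl _) s1
        rw [e] at this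
        rw [Finset.subset_empty.1 this]; simp
      · obtain ⟨y, hy, hmin⟩ := Finset.exists_min_image _ τ e
        have hy' := hy
        simp only [Finset.mem_sdiff, Finset.mem_inter, mem_down] at hy'
        have hyO : y ∈ O1 := by
          refine Finset.mem_filter.2 ⟨hy'.1.1, hy'.2, ?_⟩
          intro y' h1 h2 h3
          by_contra hn
          have := hmin y' (by
            simp only [Finset.mem_sdiff, Finset.mem_inter, mem_down]
            exact ⟨⟨h1, h2.trans hy'.1.2⟩, hn⟩)
          rcases h2.time hτ with q | q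
          · exact h3 q
          · omega
        have : (S ∩ down d ord o) \ D1 ⊆ ((S ∩ down d ord o) \ D).erase y := by
          intro w hw
          rw [Finset.mem_sdiff] at hw
          refine Finset.mem_erase.2 ⟨?_, Finset.mem_sdiff.2 ⟨hw.1, fun q => hw.2 (s1 q)⟩⟩
          rintro rfl
          exact hw.2 (s2 hyO)
        have h1 := Finset.card_le_card this
        rw [Finset.card_erase_of_mem hy] at h1
        have := hr o ho
        omega)
    exact ⟨D', x', s1.trans t1, t2, by rwa [show k + (r + 1) = k + 1 + r by ring]⟩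

theorem layerT {d : Dat V} {ord C : List V} (hB : Build d ord C) {h : V → ℝ}
    (H : Mono d ord h) {S O : Finset V} (hS : ∀ y ∈ S, y ∈ ord) (R : ℕ) :
    ∀ (n : ℕ) (D : Finset V) (x : V → ℝ) (k : ℕ), (S \ D).card ≤ n → Good d ord h S D x k →
      (∀ o ∈ O, ∀ y ∈ S, Cov d ord y o → y ∈ D) →
      ∃ D' x' k', D ⊆ D' ∧ Good d ord h S D' x' k' ∧
        R * k' + 2 * (S ∩ D).card ≤ R * k + 2 * (S ∩ D').card ∧
        ∀ o ∈ O, ((S ∩ down d ord o) \ D').card ≤ R := by
  intro n
  induction n with
  | zero =>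
    intro D x k hn G _
    refine ⟨D, x, k, Finset.Subset.refl _, G, le_rfl, fun o _ => ?_⟩
    have : (S ∩ down d ord o) \ D ⊆ S \ D :=
      Finset.sdiff_subset_sdiff Finset.inter_subset_left (Finset.Subset.refl _)
    have := Finset.card_le_card this
    omega
  | succ n ih =>
    intro D x k hn G hO
    by_cases hex : ∀ o ∈ O, ((S ∩ down d ord o) \ D).card ≤ R
    · exact ⟨D, x, k, Finset.Subset.refl _, G, le_rfl, hex⟩
    · push Not at hex
      obtain ⟨o, ho, hR⟩ := hex
      obtain ⟨x1, G1⟩ := opT hB H hS G o (hO o ho)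
      have e1 : S ∩ (D ∪ down d ord o) = (S ∩ D) ∪ ((S ∩ down d ord o) \ D) := by
        ext y; simp only [Finset.mem_inter, Finset.mem_union, Finset.mem_sdiff]; tauto
      have e2 : (S ∩ (D ∪ down d ord o)).card = (S ∩ D).card + ((S ∩ down d ord o) \ D).card := by
        rw [e1, Finset.card_union_of_disjoint]
        exact Finset.disjoint_left.2 fun y h1 h2 =>
          (Finset.mem_sdiff.1 h2).2 (Finset.mem_inter.1 h1).2
      have e3 := Finset.card_sdiff_add_card_inter S D
      have e4 := Finset.card_sdiff_add_card_inter S (D ∪ down d ord o)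
      obtain ⟨D', x', k', a1, a2, a3, a4⟩ := ih (D ∪ down d ord o) x1 (k + 2) (by omega) G1
        (fun o' ho' y hy hc => Finset.mem_union_left _ (hO o' ho' y hy hc))
      refine ⟨D', x', k', Finset.subset_union_left.trans a1, a2, ?_, a4⟩
      have e5 : R * (k + 2) = R * k + R * 2 := by ring
      rw [e2, e5] at a3
      omega

theorem layers {d : Dat V} {ord C : List V} (hB : Build d ord C) {h : V → ℝ}
    (H : Mono d ord h) {S : Finset V} (hS : ∀ y ∈ S, y ∈ ord) (R : ℕ) (ρ : V → ℕ)
    (hρ : ∀ y ∈ S, ∀ y' ∈ S, Cov d ord y y' → ρ y < ρ y') :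
    ∀ j : ℕ, ∃ D x k, Good d ord h S D x k ∧ (∀ y ∈ S, ρ y < j → y ∈ D) ∧
      R * k ≤ j * (R * R) + 2 * (S ∩ D).card := by
  intro j
  induction j with
  | zero =>
    refine ⟨{d.b, d.t}, fun _ => 0, 0, ⟨⟨by simp, by simp, ?_⟩, ?_, ?_⟩, by simp, by simp⟩
    · intro v hv u hu
      simp only [Finset.mem_insert, Finset.mem_singleton] at hv
      rcases hv with rfl | rfl
      · exact absurd hu.1 hB.base_notMem.1
      · exact absurd hu.1 hB.base_notMem.2
    · intro v hv' hv
      simp only [Finset.mem_insert, Finset.mem_singleton] at hv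
      rcases hv with rfl | rfl
      · exact absurd hv' hB.base_notMem.1
      · exact absurd hv' hB.base_notMem.2
    · refine ⟨∅, by simp, by simp, ?_⟩
      intro v hv
      simp only [Finset.mem_inter, Finset.mem_insert, Finset.mem_singleton] at hv
      rcases hv with ⟨hv', rfl | rfl⟩
      · exact absurd (hS _ hv') hB.base_notMem.1
      · exact absurd (hS _ hv') hB.base_notMem.2
  | succ j ih =>
    obtain ⟨D, x, k, G, a1, a2⟩ := ih
    set O := S.filter (fun y => ρ y = j) with hO
    obtain ⟨D1, x1, k1, b1, G1, b2, b3⟩ := layerT hB H (O := O) hS R _ D x k le_rfl G (by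
      intro o ho y hy hc
      have := hρ y hy o (Finset.mem_filter.1 ho).1 hc
      rw [(Finset.mem_filter.1 ho).2] at this
      exact a1 y hy this)
    obtain ⟨D2, x2, c1, c2, G2⟩ := layerV hB H (O := O) (Finset.filter_subset _ _) R D1 x1 k1 G1 b3
    refine ⟨D2, x2, k1 + R, G2, ?_, ?_⟩
    · intro y hy hj
      rcases Nat.lt_succ_iff_lt_or_eq.1 hj with q | q
      · exact c1 (b1 (a1 y hy q))
      · exact c2 (Finset.mem_filter.2 ⟨hy, q⟩)
    · have : (S ∩ D1).card ≤ (S ∩ D2).card :=
        Finset.card_le_card (Finset.inter_subset_inter (Finset.Subset.refl _) c1)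
      rw [mul_add, add_mul]
      omega

end stage

end Pool.Agent.MP_d347ac_co.H31

end
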