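import Pool.Agent.Mg.S11659.Gad9707
import Mathlib

section

set_option autoImplicit false

namespace Pool.Agent.MP_d347ac_co

open Relation

universe u
variable {V : Type u}

theorem exists_path {r : V → V → Prop} (X : Set V) {x y : V} (hx : x ∈ X)
    (h : ReflTransGen r x y) :
    ∃ s m, s ∈ X ∧ (s :: m).Nodup ∧ (∀ a b, Cons (s :: m) a b → r a b) ∧
      (∃ i, s :: m = i ++ [y]) ∧ ∀ v ∈ m, v ∉ X := by
  induction h with
  | refl => exact ⟨x, [], hx, by simp, by simp, ⟨[], rfl⟩, by simp⟩
  | @tail y z _ hyz ih =>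
    obtain ⟨s, m, hs, hn, hc, ⟨i, hi⟩, hX⟩ := ih
    by_cases hz : z ∈ X
    · exact ⟨z, [], hz, by simp, by simp, ⟨[], rfl⟩, by simp⟩
    by_cases hzm : z ∈ m
    · obtain ⟨L, R, rfl⟩ := List.append_of_mem hzm
      refine ⟨s, L ++ [z], hs, hn.sublist (by simp), fun a b hab => hc a b ?_, ⟨s :: L, rfl⟩,
        fun v hv => hX v (by simp at hv ⊢; tauto)⟩
      have := hab.append_right R
      simpa using this
    · refine ⟨s, m ++ [z], hs, ?_, fun a b hab => ?_, ⟨s :: m, rfl⟩, fun v hv => ?_⟩
      · have : s :: (m ++ [z]) = (s :: m) ++ [z] := rfl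
        rw [this, List.nodup_append]
        refine ⟨hn, by simp, fun a ha b hb e => ?_⟩
        simp only [List.mem_singleton] at hb
        subst hb e
        rcases List.mem_cons.1 ha with e | e
        · exact hz (e ▸ hs)
        · exact hzm e
      · have e : s :: (m ++ [z]) = i ++ y :: [z] := by
          have : s :: (m ++ [z]) = (s :: m) ++ [z] := rfl
          rw [this, hi]; simp
        rw [e, cons_append_cons, ← hi] at hab
        rcases hab with hab | hab
        · exact hc _ _ hab
        · simp at hab; obtain ⟨rfl, rfl⟩ := hab; exact hyz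
      · rcases List.mem_append.1 hv with hv | hv
        · exact hX v hv
        · simp at hv; exact hv ▸ hz

theorem reach_symm {r : V → V → Prop} (hs : ∀ a b, r a b → r b a) {W : V → Prop} {x y : V}
    (hx : W x) (h : ReflTransGen (fun a b => r a b ∧ W b) x y) :
    W y ∧ ReflTransGen (fun a b => r a b ∧ W b) y x := by
  induction h with
  | refl => exact ⟨hx, ReflTransGen.refl⟩
  | tail _ hyz ih => exact ⟨hyz.2, ReflTransGen.head ⟨hs _ _ hyz.1, ih.1⟩ ih.2⟩

theorem reach_list {r : V → V → Prop} {x : V} {l : List V}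
    (h : ∀ a b, Cons (x :: l) a b → r a b) : ∀ v ∈ x :: l, ReflTransGen r x v :=
  cons_all (P := fun v => ReflTransGen r x v) ReflTransGen.refl
    (fun a b hab ha => ha.tail (h a b hab))

section
variable [Finite V] {T : Reg V} (hT : Amb T) {D : Reg V} (hle : Le D T) {C : List V}
  (hD : Cell D C)
include hT hle hD

theorem reach_bd {v w : V} (hw : vx D w) (hwv : w ≠ v) :
    ∃ c ∈ C, ReflTransGen (fun a b => adj D a b ∧ b ≠ v) w c := by
  by_contra hcon
  push Not at hcon
  let A : V → Prop := fun u => ReflTransGen (fun a b => adj D a b ∧ b ≠ v) w u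
  let S : Reg V := fun a b c => D a b c ∧ (A a ∨ A b ∨ A c)
  have hS : Rot S := fun a b c h => ⟨hD.rot _ _ _ h.1, by tauto⟩
  have hSD : Le S D := fun a b c h => h.1
  obtain ⟨b, c, hw⟩ := hw
  obtain ⟨a, b, ⟨c, h1, h2⟩, h3⟩ := hT.nz S hS (hSD.trans hle)
    ⟨w, b, c, hw, Or.inl ReflTransGen.refl⟩
  have hab : ¬ A a ∧ ¬ A b := by
    by_cases hr : he D b a
    · obtain ⟨c', hc'⟩ := hr
      exact ⟨fun x => h3 ⟨c', hc', by tauto⟩, fun x => h3 ⟨c', hc', by tauto⟩⟩
    · have := (hD.bdry _ _).1 ⟨⟨c, h1⟩, hr⟩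
      exact ⟨hcon _ this.mem_left, hcon _ this.mem_right⟩
  have hc : A c := by tauto
  have e1 : a = v := by
    by_contra e
    exact hab.1 (hc.tail ⟨Or.inl ⟨b, hD.rot.two h1⟩, e⟩)
  have e2 : b = v := by
    by_contra e
    exact hab.2 (hc.tail ⟨Or.inr ⟨a, hD.rot _ _ _ h1⟩, e⟩)
  exact hT.ne _ _ _ (hle _ _ _ h1) (e1.trans e2.symm)

theorem reach_avoid {v w w' : V} (hw : vx D w) (hwv : w ≠ v) (hw' : vx D w') (hwv' : w' ≠ v) :
    ReflTransGen (fun a b => adj D a b ∧ b ≠ v) w w' := by
  obtain ⟨c, hc, h⟩ := reach_bd hT hle hD hw hwv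
  obtain ⟨c', hc', h'⟩ := reach_bd hT hle hD hw' hwv'
  have s := reach_symm (r := adj D) (fun _ _ => adj.symm) (W := fun b => b ≠ v) hwv h
  have s' := reach_symm (r := adj D) (fun _ _ => adj.symm) (W := fun b => b ≠ v) hwv' h'
  refine h.trans (ReflTransGen.trans ?_ s'.2)
  obtain ⟨E, hE, hE1, hE2⟩ : ∃ E : List V, (∀ a b, Cons E a b → Nx C a b) ∧
      (∀ u ∈ C, u ≠ v → u ∈ E) ∧ v ∉ E := by
    by_cases hv : v ∈ C
    · obtain ⟨L, R, rfl⟩ := List.append_of_mem hv
      refine ⟨R ++ L, fun a b hab => ?_, fun u hu huv => ?_, ?_⟩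
      · rw [nx_rot]
        exact Cons.nx (by simpa using hab.append_left [v])
      · simp [huv] at hu ⊢; tauto
      · have := hD.rotate.nodup
        simp only [List.cons_append, List.nodup_cons] at this
        exact this.1
    · exact ⟨C, fun a b => Cons.nx, fun u hu _ => hu, hv⟩
  have m := hE1 c hc s.1
  have m' := hE1 c' hc' s'.1
  obtain ⟨e, E', rfl⟩ := List.exists_cons_of_ne_nil (List.ne_nil_of_mem m)
  have key := reach_list (r := fun a b => adj D a b ∧ b ≠ v) (x := e) (l := E') (fun a b hab =>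
    ⟨hD.adj_of_nx (hE _ _ hab), fun x => hE2 (x ▸ hab.mem_right)⟩)
  have k1 := reach_symm (r := adj D) (fun _ _ => adj.symm) (W := fun b => b ≠ v)
    (fun x => hE2 (by simp [x])) (key c m)
  exact k1.2.trans (key c' m')

theorem star_closed {E : Reg V} (hE : Rot E) (hED : Le E D) {v : V} (hv : vx E v)
    (h1 : ∀ w, ¬ bd E v w) (h2 : ∀ w, ¬ bd E w v) : ∀ b c, D v b c → E v b c := by
  intro x2 y2 ht
  by_contra hn
  have hET := hED.trans hle
  have hx2 : ¬ he E v x2 := fun x => hn (he.mem hT hET x (hle _ _ _ ht))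
  obtain ⟨x0, y0, h0⟩ := hv
  have a0 : he D v x0 := ⟨_, hED _ _ _ h0⟩
  have a2 : he D v x2 := ⟨_, ht⟩
  have hr := reach_avoid hT hle hD (v := v) (a0.vx_right hD.rot) (he.ne hT hle a0).symm
    (a2.vx_right hD.rot) (he.ne hT hle a2).symm
  obtain ⟨x1, m, hx1, hnd, hc, ⟨i, hi⟩, hX⟩ := exists_path {x | he E v x} (x := x0) ⟨_, h0⟩ hr
  have hx1 : he E v x1 := hx1
  have hm : m ≠ [] := by
    rintro rfl
    cases i with
    | nil => simp at hi; exact hx2 (hi ▸ hx1)
    | cons _ i => simp at hi
  have hvm : v ∉ x1 :: m := by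
    intro hv
    rcases List.mem_cons.1 hv with e | e
    · exact he.ne hT hET hx1 e
    · obtain ⟨a, ha⟩ := exists_cons_pred (s := x1) e
      exact (hc _ _ ha).2 rfl
  have hg : (v :: x1 :: m).Nodup := List.nodup_cons.2 ⟨hvm, hnd⟩
  have hl : 3 ≤ (v :: x1 :: m).length := by
    have := List.length_pos_iff.2 hm; simp; omega
  have n1 : Nx (v :: x1 :: m) v x1 := Cons.nx (by simp)
  have n2 : Nx (v :: x1 :: m) x2 v := (nx_iff _ _ _).2 (Or.inr ⟨⟨v :: i, by simp [hi]⟩, _, rfl⟩)
  obtain ⟨R, hR, hRD, hbd⟩ := hD.sc _ hg hl (fun a b hab => by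
    rcases (nx_iff _ _ _).1 hab with h | ⟨⟨L, e⟩, R, e'⟩
    · rcases (cons_cons _ _ _ _ _).1 h with ⟨rfl, rfl⟩ | h
      · exact Or.inl (hx1.mono hED)
      · exact (hc _ _ h).1
    · have e1 : b = v := by simp at e'; exact e'.1.symm
      subst e1
      rw [← n2.pred_uniq hg hab]
      exact Or.inr a2)
  have hRT := hRD.trans hle
  let W : Reg V := fun a b c => E a b c ∧ R a b c
  have hW : Rot W := fun a b c h => ⟨hE _ _ _ h.1, hR _ _ _ h.2⟩
  have hWE : Le W E := fun a b c h => h.1
  have hWR : Le W R := fun a b c h => h.2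
  have hWT := hWE.trans hET
  have mk : ∀ a b, he E a b → he R a b → he W a b := fun a b ⟨c, hc⟩ x =>
    ⟨c, hc, he.mem hT hRT x (hET _ _ _ hc)⟩
  have r1 : ∀ w, he E v w → he E w v := fun w x => by by_contra y; exact h1 w ⟨x, y⟩
  have r2 : ∀ w, he E w v → he E v w := fun w x => by by_contra y; exact h2 w ⟨x, y⟩
  rcases hbd with hbd | hbd
  · have b1 := (hbd _ _).2 n1
    obtain ⟨u, hu⟩ := bd_prev hT hW hWT (a := v) (b := x1)
      ⟨mk _ _ hx1 b1.1, fun x => b1.2 (x.mono hWR)⟩
    have e1 := r2 _ (hu.1.mono hWE)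
    have b2 : bd R u v := ⟨hu.1.mono hWR, fun x => hu.2 (mk _ _ e1 x)⟩
    have := ((hbd _ _).1 b2).pred_uniq hg n2
    exact hx2 (this ▸ e1)
  · have b1 := (hbd _ _).2 n1
    obtain ⟨u, hu⟩ := bd_next hT hW hWT (a := x1) (b := v)
      ⟨mk _ _ (r1 _ hx1) b1.1, fun x => b1.2 (x.mono hWR)⟩
    have e1 := hu.1.mono hWE
    have b2 : bd R v u := ⟨hu.1.mono hWR, fun x => hu.2 (mk _ _ (r1 _ e1) x)⟩
    have := ((hbd _ _).1 b2).pred_uniq hg n2
    exact hx2 (this ▸ e1)

/-- all triangles at an interior vertex of a subcell belong to the subcell -/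
theorem int_closed {E : Reg V} {C' : List V} (hE : WCell E C') (hED : Le E D) {v : V}
    (hv : vx E v) (hn : v ∉ C') : ∀ b c, D v b c → E v b c := by
  rcases hE with hE | hE
  · obtain ⟨b, c, h⟩ := hv
    exact absurd h (hE.2 _ _ _)
  · exact star_closed hT hle hD hE.rot hED hv
      (fun w h => hn ((hE.bdry _ _).1 h).mem_left) (fun w h => hn ((hE.bdry _ _).1 h).mem_right)

/-- a vertex common to the two parts of a split lies on both boundaries -/
theorem common_mem {D1 D2 : Reg V} {C1 C2 : List V} (h1 : WCell D1 C1) (h2 : WCell D2 C2)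
    (hor : ∀ a b c, D a b c ↔ D1 a b c ∨ D2 a b c) (hdis : ∀ a b c, D1 a b c → ¬ D2 a b c)
    {v : V} (v1 : vx D1 v) (v2 : vx D2 v) : v ∈ C1 ∧ v ∈ C2 := by
  have l1 : Le D1 D := fun a b c x => (hor a b c).2 (Or.inl x)
  have l2 : Le D2 D := fun a b c x => (hor a b c).2 (Or.inr x)
  constructor
  · by_contra hn
    obtain ⟨b, c, h⟩ := v2
    exact hdis _ _ _ (int_closed hT hle hD h1 l1 v1 hn _ _ (l2 _ _ _ h)) h
  · by_contra hn
    obtain ⟨b, c, h⟩ := v1
    exact hdis _ _ _ h (int_closed hT hle hD h2 l2 v2 hn _ _ (l1 _ _ _ h))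

end

end Pool.Agent.MP_d347ac_co

end

section

set_option autoImplicit false

namespace Pool.Agent.MP_d347ac_co.H31

open List

variable {V : Type}

/-- Data of a canonical ordering. -/
structure Dat (V : Type) where
  b : V
  t : V
  lo : V → V
  hi : V → V
  mid : V → List V

/-- The earlier neighbours of `v`, bottom to top. -/
def Dat.N (d : Dat V) (v : V) : List V := d.lo v :: (d.mid v ++ [d.hi v])

/-- Canonical ordering: `ord` lists the added vertices (latest first), the second list is the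
current contour from bottom to top. -/
inductive Build (d : Dat V) : List V → List V → Prop
  | base : d.b ≠ d.t → Build d [] [d.b, d.t]
  | step {ord A B : List V} {v : V} :
      Build d ord (A ++ d.lo v :: (d.mid v ++ d.hi v :: B)) → v ∉ ord → v ≠ d.b → v ≠ d.t →
      Build d (v :: ord) (A ++ d.lo v :: v :: d.hi v :: B)

theorem chain_sub {R : V → V → Prop} {l l₁ : List V} (h : IsChain R l) (h' : l₁ <:+: l) :
    IsChain R l₁ := by
  rcases h' with ⟨l₂, l₃, rfl⟩
  exact h.left_of_append.right_of_append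

theorem chain3 {R : V → V → Prop} {A M B : List V} {l r : V} :
    IsChain R (A ++ l :: (M ++ r :: B)) ↔
      IsChain R (A ++ [l]) ∧ IsChain R (l :: (M ++ [r])) ∧ IsChain R (r :: B) := by
  have h1 : IsChain R (A ++ l :: (M ++ r :: B)) ↔
      IsChain R (A ++ [l]) ∧ IsChain R (l :: (M ++ r :: B)) := isChain_split
  have h2 : IsChain R ((l :: M) ++ r :: B) ↔
      IsChain R ((l :: M) ++ [r]) ∧ IsChain R (r :: B) := isChain_split
  rw [h1]
  exact and_congr Iff.rfl h2

theorem chain3' {R : V → V → Prop} {A B : List V} {l v r : V} :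
    IsChain R (A ++ l :: v :: r :: B) ↔
      IsChain R (A ++ [l]) ∧ R l v ∧ R v r ∧ IsChain R (r :: B) := by
  rw [isChain_split]
  simp [isChain_cons_cons]

/-- vertices present -/
def In (d : Dat V) (ord : List V) (y : V) : Prop := y ∈ ord ∨ y = d.b ∨ y = d.t

theorem In.mono {d : Dat V} {ord : List V} {y v : V} (h : In d ord y) : In d (v :: ord) y := by
  rcases h with h | h | h
  · exact Or.inl (mem_cons_of_mem _ h)
  · exact Or.inr (Or.inl h)
  · exact Or.inr (Or.inr h)

theorem mem_N_sub {d : Dat V} {A B : List V} {v w : V} (h : w ∈ d.N v) :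
    w ∈ A ++ d.lo v :: (d.mid v ++ d.hi v :: B) := by
  simp only [Dat.N, mem_cons, mem_append, not_mem_nil, or_false] at h ⊢
  tauto

theorem Build.ne {d : Dat V} {ord C : List V} (h : Build d ord C) : d.b ≠ d.t := by
  induction h with
  | base h => exact h
  | step _ _ _ _ ih => exact ih

theorem Build.mem {d : Dat V} {ord C : List V} (h : Build d ord C) : ∀ y ∈ C, In d ord y := by
  induction h with
  | base h => intro y hy; simp only [mem_cons, not_mem_nil, or_false] at hy; exact Or.inr hy
  | @step ord A B v _ _ _ _ ih =>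
    intro y hy
    by_cases hv : y = v
    · exact Or.inl (hv ▸ mem_cons_self)
    · apply In.mono
      apply ih
      simp only [mem_cons, mem_append] at hy ⊢
      tauto

theorem not_in_of {d : Dat V} {ord : List V} {v : V} (h1 : v ∉ ord) (h2 : v ≠ d.b)
    (h3 : v ≠ d.t) : ¬ In d ord v := by
  rintro (h | h | h) <;> contradiction

theorem Build.memN {d : Dat V} {ord C : List V} (h : Build d ord C) :
    ∀ v ∈ ord, ∀ w ∈ d.N v, In d ord w := by
  induction h with
  | base h => intro v hv; simp at hv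
  | @step ord A B v hB _ _ _ ih =>
    intro u hu w hw
    rcases mem_cons.1 hu with rfl | hu
    · exact (hB.mem w (mem_N_sub hw)).mono
    · exact (ih u hu w hw).mono

theorem Build.base_notMem {d : Dat V} {ord C : List V} (h : Build d ord C) :
    d.b ∉ ord ∧ d.t ∉ ord := by
  induction h with
  | base h => simp
  | step _ _ h2 h3 ih =>
    simp only [mem_cons, not_or]
    exact ⟨⟨h2.symm, ih.1⟩, ⟨h3.symm, ih.2⟩⟩

theorem Build.nodup {d : Dat V} {ord C : List V} (h : Build d ord C) : C.Nodup := by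
  induction h with
  | base h => simp [h]
  | @step ord A B v hB h1 h2 h3 ih =>
    have hv : v ∉ A ++ d.lo v :: (d.mid v ++ d.hi v :: B) :=
      fun hm => not_in_of h1 h2 h3 (hB.mem v hm)
    have hsub : (A ++ d.lo v :: d.hi v :: B).Nodup := by
      refine Nodup.sublist ?_ ih
      refine Sublist.append_left ?_ _
      refine Sublist.cons_cons _ ?_
      exact sublist_append_right _ _
    have hperm : (A ++ d.lo v :: v :: d.hi v :: B).Perm (v :: (A ++ d.lo v :: d.hi v :: B)) := by
      have : A ++ d.lo v :: v :: d.hi v :: B = (A ++ [d.lo v]) ++ v :: (d.hi v :: B) := by simp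
      rw [this]
      refine perm_middle.trans ?_
      simp
    rw [hperm.nodup_iff, nodup_cons]
    refine ⟨?_, hsub⟩
    intro hm
    apply hv
    simp only [mem_append, mem_cons] at hm ⊢
    tauto

theorem Build.covered {d : Dat V} {ord C : List V} (h : Build d ord C) :
    ∀ y, In d ord y → y ∈ C ∨ ∃ c ∈ ord, y ∈ d.mid c := by
  induction h with
  | base h =>
    rintro y (hy | hy | hy)
    · simp at hy
    · left; simp [hy]
    · left; simp [hy]
  | @step ord A B v hB h1 h2 h3 ih =>
    intro y hy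
    by_cases hv : y = v
    · left; simp [hv]
    · have hy' : In d ord y := by
        rcases hy with hy | hy
        · rcases mem_cons.1 hy with hy | hy
          · exact absurd hy hv
          · exact Or.inl hy
        · exact Or.inr hy
      rcases ih y hy' with hC | ⟨c, hc, hyc⟩
      · by_cases hm : y ∈ d.mid v
        · exact Or.inr ⟨v, mem_cons_self, hm⟩
        · left
          simp only [mem_append, mem_cons] at hC ⊢
          tauto
      · exact Or.inr ⟨c, mem_cons_of_mem _ hc, hyc⟩

theorem Build.time [DecidableEq V] {d : Dat V} {ord C : List V} (h : Build d ord C) :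
    ∃ τ : V → ℕ, (∀ y, τ y ≤ ord.length) ∧ ∀ v ∈ ord, ∀ w ∈ d.N v, τ w < τ v := by
  induction h with
  | base h => exact ⟨fun _ => 0, by simp, by simp⟩
  | @step ord A B v hB h1 h2 h3 ih =>
    obtain ⟨τ, hτ0, hτ⟩ := ih
    refine ⟨Function.update τ v (ord.length + 1), ?_, ?_⟩
    · intro y
      by_cases hy : y = v
      · subst hy; simp
      · rw [Function.update_of_ne hy]; have := hτ0 y; simp; omega
    · intro u hu w hw
      rcases mem_cons.1 hu with rfl | hu
      · have hw' : w ≠ u := fun e => not_in_of h1 h2 h3 (e ▸ hB.mem w (mem_N_sub hw))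
        rw [Function.update_of_ne hw', Function.update_self]
        have := hτ0 w; omega
      · have hw' : w ≠ v := fun e => not_in_of h1 h2 h3 (e ▸ hB.memN u hu w hw)
        have hu' : u ≠ v := fun e => h1 (e ▸ hu)
        rw [Function.update_of_ne hw', Function.update_of_ne hu']
        exact hτ u hu w hw

/-- admissible heights -/
def Mono (d : Dat V) (ord : List V) (h : V → ℝ) : Prop :=
  h d.b < h d.t ∧ ∀ v ∈ ord, h (d.lo v) < h v ∧ h v < h (d.hi v)

theorem Mono.tail {d : Dat V} {ord : List V} {v : V} {h : V → ℝ} (H : Mono d (v :: ord) h) :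
    Mono d ord h := ⟨H.1, fun u hu => H.2 u (mem_cons_of_mem _ hu)⟩

/-- the three kinds of contour edges -/
def E (d : Dat V) (ord : List V) (w w' : V) : Prop :=
  (w' ∈ ord ∧ w = d.lo w') ∨ (w ∈ ord ∧ w' = d.hi w) ∨ (w = d.b ∧ w' = d.t)

theorem E.mono {d : Dat V} {ord : List V} {v w w' : V} (h : E d ord w w') :
    E d (v :: ord) w w' := by
  rcases h with ⟨h, h'⟩ | ⟨h, h'⟩ | h
  · exact Or.inl ⟨mem_cons_of_mem _ h, h'⟩
  · exact Or.inr (Or.inl ⟨mem_cons_of_mem _ h, h'⟩)
  · exact Or.inr (Or.inr h)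

theorem Build.chainE {d : Dat V} {ord C : List V} (h : Build d ord C) :
    IsChain (E d ord) C ∧ ∀ v ∈ ord, IsChain (E d ord) (d.N v) := by
  induction h with
  | base h =>
    refine ⟨?_, by simp⟩
    simp only [isChain_pair]
    exact Or.inr (Or.inr ⟨rfl, rfl⟩)
  | @step ord A B v hB h1 h2 h3 ih =>
    obtain ⟨ih1, ih2⟩ := ih
    rw [chain3] at ih1
    refine ⟨?_, ?_⟩
    · rw [chain3']
      exact ⟨ih1.1.imp fun _ _ => E.mono, Or.inl ⟨mem_cons_self, rfl⟩,
        Or.inr (Or.inl ⟨mem_cons_self, rfl⟩), ih1.2.2.imp fun _ _ => E.mono⟩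
    · intro u hu
      rcases mem_cons.1 hu with rfl | hu
      · exact ih1.2.1.imp fun _ _ => E.mono
      · exact (ih2 u hu).imp fun _ _ => E.mono

theorem E.lt {d : Dat V} {ord : List V} {h : V → ℝ} (H : Mono d ord h) {w w' : V}
    (e : E d ord w w') : h w < h w' := by
  rcases e with ⟨e, rfl⟩ | ⟨e, rfl⟩ | ⟨rfl, rfl⟩
  · exact (H.2 _ e).1
  · exact (H.2 _ e).2
  · exact H.1

theorem Build.sorted {d : Dat V} {ord C : List V} (hB : Build d ord C) {h : V → ℝ}
    (H : Mono d ord h) : C.Pairwise (fun a b => h a < h b) := by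
  have hc : IsChain (fun a b => h a < h b) C := hB.chainE.1.imp fun _ _ e => e.lt H
  have : Trans (fun a b => h a < h b) (fun a b => h a < h b) (fun a b => h a < h b) :=
    ⟨fun h1 h2 => lt_trans h1 h2⟩
  exact isChain_iff_pairwise.1 hc

theorem Build.sortedN {d : Dat V} {ord C : List V} (hB : Build d ord C) {h : V → ℝ}
    (H : Mono d ord h) {v : V} (hv : v ∈ ord) : (d.N v).Pairwise (fun a b => h a < h b) := by
  have hc : IsChain (fun a b => h a < h b) (d.N v) := (hB.chainE.2 v hv).imp fun _ _ e => e.lt H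
  have : Trans (fun a b => h a < h b) (fun a b => h a < h b) (fun a b => h a < h b) :=
    ⟨fun h1 h2 => lt_trans h1 h2⟩
  exact isChain_iff_pairwise.1 hc

theorem Build.exists_mono [DecidableEq V] {d : Dat V} {ord C : List V} (hB : Build d ord C) :
    ∃ h : V → ℝ, Mono d ord h ∧ ∀ y, 0 < h y ∧ h y < 1 := by
  induction hB with
  | base h =>
    refine ⟨fun y => if y = d.b then 1 / 3 else 2 / 3, ⟨?_, by simp⟩, ?_⟩
    · simp [h.symm]; norm_num
    · intro y; dsimp only; split_ifs <;> norm_num
  | @step ord A B v hB h1 h2 h3 ih =>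
    obtain ⟨h, H, hr⟩ := ih
    have hs := hB.sorted H
    have hlt : h (d.lo v) < h (d.hi v) := by
      have h' := (pairwise_append.1 hs).2.1
      exact (pairwise_cons.1 h').1 _ (by simp)
    have hlo : d.lo v ≠ v := fun e => not_in_of h1 h2 h3 (e ▸ hB.mem _ (by simp))
    have hhi : d.hi v ≠ v := fun e => not_in_of h1 h2 h3 (e ▸ hB.mem _ (by simp))
    refine ⟨Function.update h v ((h (d.lo v) + h (d.hi v)) / 2), ⟨?_, ?_⟩, ?_⟩
    · rw [Function.update_of_ne h2.symm, Function.update_of_ne h3.symm]; exact H.1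
    · intro u hu
      rcases mem_cons.1 hu with rfl | hu
      · rw [Function.update_of_ne hlo, Function.update_of_ne hhi, Function.update_self]
        constructor <;> linarith
      · have e1 : d.lo u ≠ v := fun e =>
          not_in_of h1 h2 h3 (e ▸ hB.memN u hu _ (by simp [Dat.N]))
        have e2 : d.hi u ≠ v := fun e =>
          not_in_of h1 h2 h3 (e ▸ hB.memN u hu _ (by simp [Dat.N]))
        have e3 : u ≠ v := fun e => h1 (e ▸ hu)
        rw [Function.update_of_ne e1, Function.update_of_ne e2, Function.update_of_ne e3]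
        exact H.2 u hu
    · intro y
      by_cases hy : y = v
      · subst hy
        rw [Function.update_self]
        have := hr (d.lo y); have := hr (d.hi y)
        constructor <;> linarith
      · rw [Function.update_of_ne hy]; exact hr y

theorem pair_infix_split {c c' l : V} {A B : List V} :
    [c, c'] <:+: (A ++ l :: B) → [c, c'] <:+: (A ++ [l]) ∨ [c, c'] <:+: (l :: B) := by
  intro h
  by_contra hn
  push Not at hn
  have h1 : IsChain (fun x y => ¬ (x = c ∧ y = c')) (A ++ [l]) := by
    refine (isChain_isInfix (A ++ [l])).imp ?_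
    rintro x y hxy ⟨rfl, rfl⟩
    exact hn.1 hxy
  have h2 : IsChain (fun x y => ¬ (x = c ∧ y = c')) (l :: B) := by
    refine (isChain_isInfix (l :: B)).imp ?_
    rintro x y hxy ⟨rfl, rfl⟩
    exact hn.2 hxy
  have h3 := chain_sub (isChain_split.2 ⟨h1, h2⟩) h
  simp at h3

theorem pair_infix_mem {c c' l : V} {A : List V} (h : [c, c'] <:+: (A ++ [l])) : c ∈ A := by
  obtain ⟨P, Q, h⟩ := h
  have : (P ++ [c, c'] ++ Q).dropLast = A := by rw [h]; simp
  rw [← this]
  rcases Q.eq_nil_or_concat with rfl | ⟨Q', q, rfl⟩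
  · have : P ++ [c, c'] ++ [] = (P ++ [c]) ++ [c'] := by simp
    rw [this, dropLast_concat]; simp
  · have : P ++ [c, c'] ++ Q'.concat q = (P ++ [c, c'] ++ Q') ++ [q] := by simp
    rw [this, dropLast_concat]; simp

theorem pair_infix_mem' {c c' l : V} {B : List V} (h : [c, c'] <:+: (l :: B)) : c' ∈ B := by
  obtain ⟨P, Q, h⟩ := h
  cases P with
  | nil => simp at h; rw [← h.2]; simp
  | cons p P => simp at h; rw [← h.2]; simp

theorem infix_of_chain {C : List V} (hC : C.Nodup) :
    ∀ (L : List V) (x y : V), IsChain (fun c c' => [c, c'] <:+: C) (x :: y :: L) →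
      (x :: y :: L) <:+: C := by
  intro L
  induction L with
  | nil => intro x y h; simpa using h
  | cons z L ih =>
    intro x y h
    rw [isChain_cons_cons] at h
    obtain ⟨P, Q, h1⟩ := h.1
    obtain ⟨P', Q', h2⟩ := ih y z h.2
    have e1 : C = (P ++ [x]) ++ y :: Q := by rw [← h1]; simp
    have e2 : C = P' ++ y :: (z :: L ++ Q') := by rw [← h2]; simp
    have n1 : y ∉ P ++ [x] := by
      rw [e1] at hC
      intro hm
      exact (nodup_append.1 hC).2.2 y hm y (by simp) rfl
    have n2 : y ∉ Q := by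
      rw [e1] at hC
      exact (nodup_cons.1 (nodup_append.1 hC).2.1).1
    have := (append_cons_inj_of_notMem n1 n2).1 (e1.symm.trans e2)
    refine ⟨P, Q', ?_⟩
    rw [e2, ← this.1]; simp

theorem Build.filter {d : Dat V} {ord C : List V} (hB : Build d ord C) (D : V → Prop)
    [DecidablePred D] (hD : ∀ v ∈ ord, D v → ∀ w ∈ d.N v, D w) :
    ∃ C', Build d (ord.filter (fun y => D y)) C' ∧
      IsChain (fun c c' => D c → D c' → [c, c'] <:+: C') C := by
  induction hB with
  | base h => exact ⟨[d.b, d.t], Build.base h, by simp⟩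
  | @step ord A B v hB h1 h2 h3 ih =>
    obtain ⟨C', hB', hch⟩ := ih fun u hu => hD u (mem_cons_of_mem _ hu)
    rw [chain3] at hch
    by_cases hv : D v
    · have hN := hD v mem_cons_self hv
      have hinf : d.N v <:+: C' := by
        have hc : IsChain (fun c c' => [c, c'] <:+: C') (d.N v) := by
          refine IsChain.imp_of_mem_imp ?_ hch.2.1
          intro a b ha hb hab
          exact hab (hN a ha) (hN b hb)
        unfold Dat.N at hc ⊢
        cases hm : d.mid v ++ [d.hi v] with
        | nil => simp at hm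
        | cons y L => rw [hm] at hc; exact infix_of_chain hB'.nodup L _ _ hc
      obtain ⟨A', B', hC'⟩ := hinf
      have hC'' : C' = A' ++ d.lo v :: (d.mid v ++ d.hi v :: B') := by
        rw [← hC']; simp [Dat.N]
      rw [hC''] at hB'
      have hnd := hB.nodup
      refine ⟨A' ++ d.lo v :: v :: d.hi v :: B', ?_, ?_⟩
      · rw [filter_cons_of_pos (by simpa using hv)]
        exact Build.step hB' (fun hm => h1 (mem_filter.1 hm).1) h2 h3
      · have key : ∀ c c', [c, c'] <:+: C' → ¬ [c, c'] <:+: d.N v →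
            [c, c'] <:+: A' ++ d.lo v :: v :: d.hi v :: B' := by
          intro c c' hc hn
          rw [hC''] at hc
          rcases pair_infix_split hc with hc | hc
          · exact hc.trans ⟨[], v :: d.hi v :: B', by simp⟩
          · have : d.lo v :: (d.mid v ++ d.hi v :: B') = (d.lo v :: d.mid v) ++ d.hi v :: B' :=
              rfl
            rw [this] at hc
            rcases pair_infix_split hc with hc | hc
            · exact absurd hc hn
            · exact hc.trans ⟨A' ++ [d.lo v, v], [], by simp⟩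
        rw [chain3']
        refine ⟨?_, fun _ _ => ⟨A', d.hi v :: B', by simp⟩,
          fun _ _ => ⟨A' ++ [d.lo v], B', by simp⟩, ?_⟩
        · have h4 := (isChain_isInfix (A ++ [d.lo v]))
          have h5 := (IsChain.iff_mem (R := fun c c' => D c → D c' → [c, c'] <:+: C')
            (l := A ++ [d.lo v]))
          rw [isChain_iff_forall_rel_of_append_cons_cons]
          intro a b P Q hPQ ha hb
          have hab := (isChain_iff_forall_rel_of_append_cons_cons.1 hch.1) hPQ ha hb
          refine key a b hab ?_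
          intro hn
          have m1 : a ∈ A := pair_infix_mem (c' := b) (l := d.lo v) ⟨P, Q, by rw [hPQ]; simp⟩
          have m2 : a ∈ d.lo v :: d.mid v := pair_infix_mem (l := d.hi v) hn
          refine (nodup_append.1 hnd).2.2 a m1 a ?_ rfl
          simp only [mem_cons, mem_append] at m2 ⊢
          tauto
        · rw [isChain_iff_forall_rel_of_append_cons_cons]
          intro a b P Q hPQ ha hb
          have hab := (isChain_iff_forall_rel_of_append_cons_cons.1 hch.2.2) hPQ ha hb
          refine key a b hab ?_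
          intro hn
          have m1 : b ∈ B := pair_infix_mem' (c := a) (l := d.hi v) ⟨P, Q, by rw [hPQ]; simp⟩
          have m2 : b ∈ d.mid v ++ [d.hi v] := pair_infix_mem' hn
          have e : A ++ d.lo v :: (d.mid v ++ d.hi v :: B) =
              (A ++ d.lo v :: (d.mid v ++ [d.hi v])) ++ B := by simp
          rw [e] at hnd
          refine (nodup_append.1 hnd).2.2 b ?_ b m1 rfl
          simp only [mem_cons, mem_append] at m2 ⊢
          tauto
    · refine ⟨C', ?_, ?_⟩
      · rw [filter_cons_of_neg (by simpa using hv)]; exact hB'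
      · rw [chain3']
        exact ⟨hch.1, fun _ h => absurd h hv, fun h => absurd h hv, hch.2.2⟩

end Pool.Agent.MP_d347ac_co.H31

end

section

set_option autoImplicit false

namespace Pool.Agent.MP_d347ac_co

open Relation H31

variable {V : Type}

theorem build_congr {d d' : Dat V} {ord C : List V} (h : Build d ord C) (hb : d'.b = d.b)
    (ht : d'.t = d.t)
    (e : ∀ v ∈ ord, d'.lo v = d.lo v ∧ d'.hi v = d.hi v ∧ d'.mid v = d.mid v) :
    Build d' ord C := by
  induction h with
  | base h => rw [← hb, ← ht]; exact Build.base (by rw [hb, ht]; exact h)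
  | @step ord A B v _ h1 h2 h3 ih =>
    obtain ⟨e1, e2, e3⟩ := e v (by simp)
    have := ih (fun u hu => e u (List.mem_cons_of_mem _ hu))
    rw [← e1, ← e2, ← e3] at this
    rw [← e1, ← e2]
    exact Build.step this h1 (hb ▸ h2) (ht ▸ h3)

section
variable [Finite V] {T : Reg V} (hT : Amb T) {D : Reg V} (hle : Le D T) {C : List V}
  (hD : Cell D C)
include hT hle hD

theorem exists_free (n : ℕ) : ∀ (A : List V) (x : V) (M : List V) (y : V) (B : List V),
    M.length ≤ n → C = A ++ x :: M ++ y :: B → M ≠ [] → adj D x y →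
    ∃ A l v r B, C = A ++ l :: v :: r :: B ∧ ∀ w ∈ C, adj D v w → w = l ∨ w = r := by
  induction n with
  | zero => intro A x M y B h _ hM; exact absurd (List.length_eq_zero_iff.1 (by omega)) hM
  | succ n ih =>
    intro A x M y B hl hC hM hxy
    obtain ⟨v, M', rfl⟩ := List.exists_cons_of_ne_nil hM
    obtain ⟨r, R, hR⟩ := List.exists_cons_of_ne_nil (l := M' ++ [y]) (by simp)
    have hC' : C = A ++ x :: v :: r :: (R ++ B) := by
      rw [hC, show r :: (R ++ B) = (M' ++ [y]) ++ B by rw [hR]; rfl]; simp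
    by_cases hw : ∀ w ∈ C, adj D v w → w = x ∨ w = r
    · exact ⟨A, x, v, r, R ++ B, hC', hw⟩
    push Not at hw
    obtain ⟨w, hwC, hvw, hwx, hwr⟩ := hw
    have hwv : w ≠ v := (adj.ne hT hle hvw).symm
    by_cases hwR : w ∈ R
    · obtain ⟨R1, R2, rfl⟩ := List.append_of_mem hwR
      apply ih (A ++ [x]) v (r :: R1) w (R2 ++ B) _ (by rw [hC']; simp) (by simp) hvw
      have := congrArg List.length hR
      simp at this hl ⊢; omega
    exfalso
    have hwBA : w ∈ B ++ A := by
      rw [hC'] at hwC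
      simp [hwx, hwr, hwv, hwR] at hwC ⊢; tauto
    have hD' : Cell D (x :: (v :: M') ++ y :: (B ++ A)) := by
      have := Cell.rotate (A := A) (B := x :: (v :: M') ++ y :: B) (by simpa [hC] using hD)
      simpa using this
    obtain ⟨D1, D2, hor, hdis, h1, h2⟩ := split hT hle (P := []) hD' (by simp) (by simp)
      (fun a b h => by simp at h; obtain ⟨rfl, rfl⟩ := h; exact hxy)
    have c1 := h1.cell (by simp)
    have c2 := h2.cell (by have := List.length_pos_of_mem hwBA; simp at this ⊢; omega)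
    have hn := hD'.nodup
    have hn' : ((x :: v :: M' ++ [y]) ++ (B ++ A)).Nodup := by simpa using hn
    have nw : w ∉ x :: (v :: M') ++ y :: ([] : List V).reverse := fun h =>
      List.disjoint_of_nodup_append hn' (by simpa using h) hwBA
    have nv : v ∉ y :: (B ++ A) ++ [x] := by
      intro h
      simp only [List.cons_append, List.nodup_cons, List.mem_cons, List.mem_append] at hn h
      simp at h
      tauto
    have : adj D1 v w ∨ adj D2 v w := by
      rcases hvw with ⟨c, h⟩ | ⟨c, h⟩
      · exact ((hor _ _ _).1 h).imp (fun h => Or.inl ⟨c, h⟩) (fun h => Or.inl ⟨c, h⟩)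
      · exact ((hor _ _ _).1 h).imp (fun h => Or.inr ⟨c, h⟩) (fun h => Or.inr ⟨c, h⟩)
    rcases this with h | h
    · exact nw (common_mem hT hle hD' h1 h2 hor hdis (h.vx_right c1.rot)
        (c2.vx_of_mem (by simp at hwBA ⊢; tauto))).1
    · exact nv (common_mem hT hle hD' h1 h2 hor hdis (c1.vx_of_mem (by simp))
        (h.vx_left c2.rot)).2

theorem link_path {l v r : V} (h1 : Nx C l v) (h2 : Nx C v r) :
    ∃ M : List V, (r :: M ++ [l]).Nodup ∧ ∀ a b, D v a b ↔ Cons (r :: M ++ [l]) a b := by
  have b1 := (hD.bdry _ _).2 h1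
  have b2 := (hD.bdry _ _).2 h2
  have hlr : l ≠ r := by
    rintro rfl
    exact h1.asymm hD.nodup hD.len h2
  let S : Reg V := fun a b c => D a b c ∧ (a = v ∨ b = v ∨ c = v)
  have hS : Rot S := fun a b c h => ⟨hD.rot _ _ _ h.1, by tauto⟩
  have hSD : Le S D := fun a b c h => h.1
  have ne1 : ∀ a b, D v a b → a ≠ v ∧ b ≠ v := fun a b h =>
    ⟨(hT.ne _ _ _ (hle _ _ _ h)).symm, hT.ne _ _ _ (hle _ _ _ (hD.rot.two h))⟩
  have hv : ∀ u, ReflTransGen (D v) r u → u ≠ v := by
    intro u hu
    induction hu with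
    | refl => exact (he.ne hT hle b2.1).symm
    | tail _ h _ => exact (ne1 _ _ h).2
  have hr : ReflTransGen (D v) r l := by
    obtain ⟨c0, hc0⟩ := b2.1
    obtain ⟨c, d, ⟨⟨e, h3, h4⟩, h5⟩, hc, hd⟩ := flow hT hS (hSD.trans hle)
      {u | ReflTransGen (D v) r u} (a := v) (b := r)
      ⟨⟨c0, hc0, Or.inl rfl⟩, fun x => b2.2 (x.mono hSD)⟩ (fun x => hv v x rfl) ReflTransGen.refl
    rcases h4 with h4 | h4 | h4
    · exact absurd h4 (hv c hc)
    · subst h4
      have : bd D c d := ⟨⟨e, h3⟩, fun ⟨f, hf⟩ => h5 ⟨f, hf, Or.inl rfl⟩⟩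
      rw [← ((hD.bdry _ _).1 this).pred_uniq hD.nodup h1]
      exact hc
    · subst h4
      exact absurd (ReflTransGen.tail hc (hD.rot.two h3)) hd
  obtain ⟨s, m, hs, hn, hc, ⟨i, hi⟩, -⟩ := exists_path {r} (x := r) rfl hr
  have hs : s = r := hs
  subst hs
  obtain ⟨M, rfl⟩ : ∃ M, i = s :: M := by
    cases i with
    | nil => simp at hi; exact absurd hi.1.symm hlr
    | cons a i => simp at hi; exact ⟨i, by rw [hi.1]⟩
  rw [hi] at hn hc
  refine ⟨M, hn, fun a b => ⟨fun hab => ?_, hc a b⟩⟩
  by_contra hnot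
  set pth := s :: M ++ [l] with hpth
  let E : Reg V := fun a b c => D a b c ∧
    ((a = v ∧ ¬ Cons pth b c) ∨ (b = v ∧ ¬ Cons pth c a) ∨ (c = v ∧ ¬ Cons pth a b))
  have hE : Rot E := fun a b c h => ⟨hD.rot _ _ _ h.1, by tauto⟩
  have hED : Le E D := fun a b c h => h.1
  have eE : ∀ a b, E v a b ↔ D v a b ∧ ¬ Cons pth a b := fun a b => by
    constructor
    · rintro ⟨h, h'⟩
      have := ne1 _ _ h
      exact ⟨h, by tauto⟩
    · rintro ⟨h, h'⟩
      exact ⟨h, Or.inl ⟨rfl, h'⟩⟩
  obtain ⟨s', hs'⟩ := exists_cons_succ (l := s :: M) (e := l) (a := s) (by simp)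
  have key := star_closed hT hle hD hE hED (v := v) ⟨a, b, (eE _ _).2 ⟨hab, hnot⟩⟩ (by
    rintro w ⟨⟨c, h3⟩, h4⟩
    obtain ⟨h3, h5⟩ := (eE _ _).1 h3
    have nos : ∀ w', ¬ Cons pth w w' := fun w' h =>
      h5 (hT.uniq _ _ _ _ (hle _ _ _ (hc _ _ h)) (hle _ _ _ h3) ▸ h)
    have : he D w v := by
      by_contra hn'
      have := ((hD.bdry _ _).1 ⟨⟨c, h3⟩, hn'⟩).succ_uniq hD.nodup h2
      exact nos s' (this ▸ hs')
    obtain ⟨c', hc'⟩ := this
    refine h4 ⟨c', hE.two ((eE _ _).2 ⟨hD.rot _ _ _ hc', fun h => ?_⟩)⟩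
    have : w ∈ (s :: M) ++ [l] := h.mem_right
    rcases List.mem_append.1 this with h' | h'
    · obtain ⟨w', hw'⟩ := exists_cons_succ (e := l) h'
      exact nos w' hw'
    · simp at h'
      exact b1.2 (h' ▸ ⟨c, h3⟩)) (by
    rintro w ⟨⟨c, h3⟩, h4⟩
    obtain ⟨h3, h5⟩ := (eE _ _).1 (hE _ _ _ h3)
    have nop : ∀ w', ¬ Cons pth w' w := fun w' h =>
      h5 (hT.uniq _ _ _ _ (hle _ _ _ (hD.rot.two (hc _ _ h))) (hle _ _ _ (hD.rot.two h3)) ▸ h)
    obtain ⟨l', hl'⟩ := exists_cons_pred (s := s) (l := M ++ [l]) (b := l) (by simp)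
    have : he D v w := by
      by_contra hn'
      have := ((hD.bdry _ _).1 ⟨⟨c, hD.rot.two h3⟩, hn'⟩).pred_uniq hD.nodup h1
      exact nop l' (this ▸ hl')
    obtain ⟨c', hc'⟩ := this
    refine h4 ⟨c', (eE _ _).2 ⟨hc', fun h => ?_⟩⟩
    have : w ∈ s :: (M ++ [l]) := h.mem_left
    rcases List.mem_cons.1 this with h' | h'
    · exact b2.2 (h' ▸ ⟨c, hD.rot.two h3⟩)
    · obtain ⟨w', hw'⟩ := exists_cons_pred (s := s) h'
      exact nop w' hw')
  exact ((eE _ _).1 (key _ _ (hc _ _ hs'))).2 hs'

end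

/-- edges of a canonical ordering -/
def EE (d : Dat V) (ord : List V) (u w : V) : Prop :=
  (w ∈ ord ∧ u ∈ d.N w) ∨ (u ∈ ord ∧ w ∈ d.N u) ∨ (u = d.b ∧ w = d.t) ∨ (u = d.t ∧ w = d.b)

theorem cell_build [Finite V] {T : Reg V} (hT : Amb T) (b t : V) (hbt : b ≠ t) (n : ℕ) :
    ∀ (D : Reg V) (m : List V), {u | vx D u}.ncard ≤ n → Le D T → WCell D (b :: m ++ [t]) →
    ∃ (d : Dat V) (ord : List V), d.b = b ∧ d.t = t ∧ Build d ord (b :: m ++ [t]) ∧
      (∀ v ∈ ord, vx D v) ∧ (∀ v, vx D v → In d ord v) ∧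
      ∀ u w, adj D u w ∨ Cons (b :: m ++ [t]) u w → EE d ord u w := by
  classical
  induction n using Nat.strong_induction_on with
  | _ n ih =>
  intro D m hn hle hW
  rcases hW with hW | hD
  · have : m = [] := List.length_eq_zero_iff.1 (by have := hW.1; simpa using this)
    subst this
    refine ⟨⟨b, t, id, id, fun _ => []⟩, [], rfl, rfl, Build.base hbt, by simp,
      fun v ⟨x, y, h⟩ => absurd h (hW.2 _ _ _), ?_⟩
    rintro u w ((⟨c, h⟩ | ⟨c, h⟩) | h)
    · exact absurd h (hW.2 _ _ _)
    · exact absurd h (hW.2 _ _ _)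
    · simp at h
      exact Or.inr (Or.inr (Or.inl ⟨h.1.symm, h.2.symm⟩))
  have hm : m ≠ [] := by rintro rfl; have := hD.len; simp at this
  obtain ⟨A, l, v, r, B, hC, hfree⟩ := exists_free hT hle hD m.length [] b m t [] le_rfl (by simp) hm
    (hD.adj_of_nx ((nx_iff _ _ _).2 (Or.inr ⟨⟨b :: m, rfl⟩, _, rfl⟩))).symm
  have n1 : Nx (b :: m ++ [t]) l v := Cons.nx ((cons_iff _ _ _).2 ⟨A, r :: B, hC⟩)
  have n2 : Nx (b :: m ++ [t]) v r := Cons.nx ((cons_iff _ _ _).2 ⟨A ++ [l], B, by simp [hC]⟩)
  obtain ⟨M, hMn, hM⟩ := link_path hT hle hD n1 n2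
  have hD' : Cell D (l :: [v] ++ r :: (B ++ A)) := by
    have := Cell.rotate (A := A) (B := l :: v :: r :: B) (hC ▸ hD)
    simpa using this
  have hMadj : ∀ u ∈ r :: M ++ [l], adj D v u := by
    intro u hu
    rcases List.mem_append.1 hu with h | h
    · obtain ⟨w, hw⟩ := exists_cons_succ (e := l) h
      exact Or.inl ⟨w, (hM _ _).2 hw⟩
    · simp at h; subst h
      exact (hD.adj_of_nx n1).symm
  have hMC : ∀ u ∈ M, u ∉ b :: m ++ [t] := by
    intro u hu huC
    simp only [List.cons_append, List.nodup_cons, List.mem_append, List.nodup_append] at hMn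
    rcases hfree u huC (hMadj u (by simp [hu])) with e | e
    · exact hMn.2.2.2 u hu l (by simp) e
    · exact hMn.1 (Or.inl (e ▸ hu))
  obtain ⟨D1, D2, hor, hdis, h1, h2⟩ := split hT hle (P := M.reverse) hD'
    (List.nodup_reverse.2 (hMn.sublist (by simp)))
    (fun u hu h => hMC u (List.mem_reverse.1 hu) (by rw [hC]; simp at h ⊢; tauto))
    (fun a b h => by
      have e : l :: M.reverse ++ [r] = (r :: M ++ [l]).reverse := by simp
      rw [e, cons_reverse] at h
      exact Or.inr ⟨v, hD.rot _ _ _ ((hM _ _).2 h)⟩)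
  have c1 := h1.cell (by simp)
  have l1 : Le D1 D := fun a b c x => (hor a b c).2 (Or.inl x)
  have l2 : Le D2 D := fun a b c x => (hor a b c).2 (Or.inr x)
  have hnC := hD'.nodup
  have hv2 : ¬ vx D2 v := by
    intro h
    have := (common_mem hT hle hD' h1 h2 hor hdis (c1.vx_of_mem (by simp)) h).2
    have hvM : v ∉ M := fun h => hMC v h n2.mem_left
    simp only [List.cons_append, List.nodup_cons, List.mem_cons, List.mem_append] at hnC this
    simp [hvM] at this
    tauto
  have g1 : ∀ a b, Nx (l :: [v] ++ r :: M.reverse.reverse) a b ↔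
      (l = a ∧ v = b) ∨ (v = a ∧ r = b) ∨ Cons (r :: M ++ [l]) a b := fun a b => by
    rw [nx_split]; simp [or_assoc]
  have star : ∀ a b c, D1 a b c → a = v ∨ b = v ∨ c = v := by
    intro a b c h
    by_contra hcon
    let W : Reg V := fun a b c => D1 a b c ∧ ¬ (a = v ∨ b = v ∨ c = v)
    have hW : Rot W := fun a b c h => ⟨c1.rot _ _ _ h.1, by tauto⟩
    obtain ⟨x, y, ⟨z, h3, h4⟩, h5⟩ := hT.nz W hW (fun a b c h => hle _ _ _ (l1 _ _ _ h.1))
      ⟨a, b, c, h, hcon⟩
    by_cases hr : he D1 y x
    · obtain ⟨z', hz'⟩ := hr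
      by_cases e : z' = v
      · subst e
        have := (hM _ _).1 (hD.rot.two (l1 _ _ _ hz'))
        exact ((c1.bdry _ _).2 ((g1 _ _).2 (Or.inr (Or.inr this)))).2 ⟨z, h3⟩
      · exact h5 ⟨z', hz', by tauto⟩
    · rcases (g1 _ _).1 ((c1.bdry _ _).1 ⟨⟨z, h3⟩, hr⟩) with e | e | e
      · exact h4 (Or.inr (Or.inl e.2.symm))
      · exact h4 (Or.inl e.1.symm)
      · have := hD.rot _ _ _ ((hM _ _).2 e)
        exact h4 (Or.inr (Or.inr (hT.uniq _ _ _ _ (hle _ _ _ (l1 _ _ _ h3)) (hle _ _ _ this))))
  obtain ⟨m', hm'⟩ : ∃ m', A ++ l :: (M.reverse ++ r :: B) = b :: m' ++ [t] := by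
    have e1 : ∃ X, A ++ [l] = b :: X := by
      cases A with
      | nil => simp at hC; exact ⟨[], by simp [hC.1]⟩
      | cons a A => simp at hC; exact ⟨A ++ [l], by simp [hC.1]⟩
    have e2 : ∃ Y, r :: B = Y ++ [t] := by
      rcases List.eq_nil_or_concat B with rfl | ⟨B', z, rfl⟩
      · have : (b :: m) ++ [t] = (A ++ [l, v]) ++ [r] := by simpa using hC
        have := List.append_inj_right' this rfl
        simp at this
        exact ⟨[], by simp [this]⟩
      · have : (b :: m) ++ [t] = (A ++ l :: v :: r :: B') ++ [z] := by simpa using hC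
        have := List.append_inj_right' this rfl
        simp at this
        exact ⟨r :: B', by simp [this]⟩
    obtain ⟨X, hX⟩ := e1
    obtain ⟨Y, hY⟩ := e2
    refine ⟨X ++ M.reverse ++ Y, ?_⟩
    rw [hY, show A ++ l :: (M.reverse ++ (Y ++ [t])) = (A ++ [l]) ++ (M.reverse ++ (Y ++ [t])) by simp,
      hX]
    simp
  have h2' : WCell D2 (b :: m' ++ [t]) := by
    rw [← hm']
    rcases h2 with h2 | h2
    · exact Or.inl ⟨by have := h2.1; simp at this ⊢; omega, h2.2⟩
    · have := Cell.rotate (A := r :: B) (B := A ++ l :: M.reverse) (by simpa using h2)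
      exact Or.inr (by simpa using this)
  have hlt : {u | vx D2 u}.ncard < {u | vx D u}.ncard :=
    Set.ncard_lt_ncard ⟨fun u hu => vx.mono l2 hu, fun h => hv2 (h (hD.vx_of_mem n2.mem_left))⟩
      (Set.toFinite _)
  obtain ⟨d, ord, hb, ht, hB, o1, o2, o3⟩ := ih _ (lt_of_lt_of_le hlt hn) D2 m' le_rfl
    (l2.trans hle) h2'
  have hvo : v ∉ ord := fun h => hv2 (o1 v h)
  let d' : Dat V := ⟨b, t, Function.update d.lo v l, Function.update d.hi v r,
    Function.update d.mid v M.reverse⟩
  have e : ∀ u ∈ ord, d'.lo u = d.lo u ∧ d'.hi u = d.hi u ∧ d'.mid u = d.mid u := fun u hu => by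
    have : u ≠ v := fun e => hvo (e ▸ hu)
    simp [d', this]
  have eN : ∀ u ∈ ord, d'.N u = d.N u := fun u hu => by
    obtain ⟨e1, e2, e3⟩ := e u hu
    simp only [Dat.N, e1, e2, e3]
  have eNv : d'.N v = l :: (M.reverse ++ [r]) := by simp [Dat.N, d']
  have hB' : Build d' ord (b :: m' ++ [t]) := build_congr hB hb.symm ht.symm e
  have hnC' := hD.nodup
  have hvb : v ≠ b := by
    rintro rfl
    have := n1.pred_uniq hnC' ((nx_iff _ _ _).2 (Or.inr ⟨⟨v :: m, rfl⟩, _, rfl⟩))
    subst this
    have i1 := (Cons.idx hnC' ((cons_iff _ _ _).2 ⟨A, r :: B, hC⟩))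
    simp at i1
  have hvt : v ≠ t := by
    rintro rfl
    have i1 := (Cons.left_mem_init (l := b :: m) (e := v)
      ((cons_iff _ _ _).2 ⟨A ++ [l], B, by simpa using hC⟩ : Cons (b :: m ++ [v]) v r))
    exact List.disjoint_of_nodup_append hnC' i1 (by simp)
  have mono : ∀ u w, EE d ord u w → EE d' (v :: ord) u w := by
    rintro u w (⟨x, y⟩ | ⟨x, y⟩ | x | x)
    · exact Or.inl ⟨by simp [x], eN w x ▸ y⟩
    · exact Or.inr (Or.inl ⟨by simp [x], eN u x ▸ y⟩)
    · exact Or.inr (Or.inr (Or.inl (by rw [hb, ht] at x; exact x)))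
    · exact Or.inr (Or.inr (Or.inr (by rw [hb, ht] at x; exact x)))
  have symmE : ∀ u w, EE d' (v :: ord) u w → EE d' (v :: ord) w u := by
    intro u w h; unfold EE at h ⊢; tauto
  have nbr : ∀ a c, D v a c → a ∈ d'.N v ∧ c ∈ d'.N v := fun a c h => by
    have := (hM _ _).1 h
    have m1 := this.mem_left
    have m2 := this.mem_right
    rw [eNv]
    simp at m1 m2 ⊢; tauto
  have heE : ∀ u w, he D u w → EE d' (v :: ord) u w := by
    rintro u w ⟨c, h⟩
    rcases (hor _ _ _).1 h with h' | h'
    · rcases star _ _ _ h' with x | x | x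
      · subst x
        exact Or.inr (Or.inl ⟨by simp, (nbr _ _ h).1⟩)
      · subst x
        exact Or.inl ⟨by simp, (nbr _ _ (hD.rot _ _ _ h)).2⟩
      · subst x
        have := (hM _ _).1 (hD.rot.two h)
        apply symmE
        apply mono
        apply o3
        right
        rw [← hm']
        have e : l :: M.reverse ++ [r] = (r :: M ++ [l]).reverse := by simp
        have := (cons_reverse _ _ _).2 this
        rw [← e] at this
        have := (this.append_left A).append_right B
        simpa using this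
    · exact mono _ _ (o3 _ _ (Or.inl (Or.inl ⟨c, h'⟩)))
  refine ⟨d', v :: ord, rfl, rfl, ?_, ?_, ?_, ?_⟩
  · rw [hC]
    have e1 : d'.lo v = l := by simp [d']
    have e2 : d'.hi v = r := by simp [d']
    have e3 : d'.mid v = M.reverse := by simp [d']
    rw [← e1, ← e2]
    apply Build.step _ hvo hvb hvt
    rw [e1, e2, e3, hm']
    exact hB'
  · intro u hu
    rcases List.mem_cons.1 hu with rfl | hu
    · exact hD.vx_of_mem n2.mem_left
    · exact (o1 u hu).mono l2
  · rintro u ⟨x, y, h⟩
    rcases heE u x ⟨y, h⟩ with ⟨p, q⟩ | ⟨p, _⟩ | p | p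
    · have hB'' : Build d' (v :: ord) (A ++ d'.lo v :: v :: d'.hi v :: B) := by
        apply Build.step _ hvo hvb hvt
        have e1 : d'.lo v = l := by simp [d']
        have e2 : d'.hi v = r := by simp [d']
        have e3 : d'.mid v = M.reverse := by simp [d']
        rw [e1, e2, e3, hm']
        exact hB'
      exact hB''.memN x p u q
    · exact Or.inl p
    · exact Or.inr (Or.inl p.1)
    · exact Or.inr (Or.inr p.1)
  · rintro u w (h | h)
    · exact h.elim (heE _ _) (fun h => symmE _ _ (heE _ _ h))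
    · exact heE _ _ ((hD.bdry _ _).2 h.nx).1

theorem exists_build_of (hI : PartI) (n : ℕ) (G : SimpleGraph (Fin n)) (p : Fin n → ℝ × ℝ)
    (h : Plane G p) :
    ∃ (K : ℕ) (d : H31.Dat (Fin K)) (ord ctr : List (Fin K)) (φ : Fin n → Fin K),
      H31.Build d ord ctr ∧ Function.Injective φ ∧ (∀ v, φ v ∈ ord) ∧
      ∀ u v, G.Adj u v → φ u ∈ d.N (φ v) ∨ φ v ∈ d.N (φ u) := by
  obtain ⟨N, T, a, b, c, φ, hT, hC, hinj, hφ, hE⟩ := hI n G p h
  have hac : a ≠ c := by have := hC.nodup; simp at this; tauto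
  obtain ⟨d, ord, hb, ht, hB, -, o2, o3⟩ := cell_build hT a c hac _ T [b] le_rfl (Le.refl T)
    (Or.inr hC)
  have hn : ∀ v, φ v ≠ d.b ∧ φ v ≠ d.t := fun v => by
    have := (hφ v).1
    rw [hb, ht]; simp at this; tauto
  refine ⟨N, d, ord, _, φ, hB, hinj, fun v => ?_, fun u v huv => ?_⟩
  · rcases o2 _ (hφ v).2 with x | x | x
    · exact x
    · exact absurd x (hn v).1
    · exact absurd x (hn v).2
  · rcases o3 _ _ (Or.inl (hE u v huv)) with x | x | x | x
    · exact Or.inl x.2
    · exact Or.inr x.2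
    · exact absurd x.1 (hn u).1
    · exact absurd x.1 (hn u).2

end Pool.Agent.MP_d347ac_co

end

section

set_option autoImplicit false

namespace Pool.Agent.MP_d347ac_co.H31

open List

variable {V : Type}

/-- positive iff the point `p` lies strictly to the right of the line through `c, c'`
(when `h c < h c'`). -/
def LfP (h x : V → ℝ) (c c' : V) (p : ℝ × ℝ) : ℝ :=
  (h c' - h c) * p.1 - (h c' - p.2) * x c - (p.2 - h c) * x c'

def Lf (h x : V → ℝ) (c c' z : V) : ℝ :=
  (h c' - h c) * x z - (h c' - h z) * x c - (h z - h c) * x c'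

def pos (h x : V → ℝ) (y : V) : ℝ × ℝ := (x y, h y)

theorem Lf_neg (h x : V → ℝ) (c c' z : V) : Lf (fun y => - h y) x c' c z = Lf h x c c' z := by
  unfold Lf; ring

/-- every vertex of `S` sees its earlier neighbours -/
def Sees (d : Dat V) (h x : V → ℝ) (z : V) : Prop :=
  IsChain (fun c c' => 0 < Lf h x c c' z) (d.N z)

theorem up_aux (h x : V → ℝ) (v a : V) (hav : h a < h v) :
    ∀ (L : List V) (y : V), (y :: L).Pairwise (fun a b => h a < h b) →
      IsChain (fun c c' => 0 < Lf h x c c' v) (y :: L) → h a ≤ h y → Lf h x a v y ≤ 0 →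
      ∀ c ∈ L, h c ≤ h v → Lf h x a v c < 0 := by
  intro L
  induction L with
  | nil => simp
  | cons z L ih =>
    intro y hs hc hay hy c hcm hcv
    rw [isChain_cons_cons] at hc
    have hyz : h y < h z := (pairwise_cons.1 hs).1 z (by simp)
    have hs' := (pairwise_cons.1 hs).2
    have hzc : h z ≤ h c := by
      rcases mem_cons.1 hcm with rfl | hcm
      · exact le_rfl
      · exact ((pairwise_cons.1 hs').1 c hcm).le
    have hz : Lf h x a v z < 0 := by
      have id : (h v - h y) * Lf h x a v z =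
          (h v - h z) * Lf h x a v y - (h v - h a) * Lf h x y z v := by unfold Lf; ring
      have h1 : (h v - h z) * Lf h x a v y ≤ 0 :=
        mul_nonpos_of_nonneg_of_nonpos (by linarith) hy
      have h2 : 0 < (h v - h a) * Lf h x y z v := mul_pos (by linarith) hc.1
      by_contra hn
      push Not at hn
      have : 0 ≤ (h v - h y) * Lf h x a v z := mul_nonneg (by linarith) hn
      linarith
    rcases mem_cons.1 hcm with rfl | hcm
    · exact hz
    · exact ih z hs' hc.2 (by linarith) hz.le c hcm hcv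

theorem up_lemma (h x : V → ℝ) (v : V) :
    ∀ (L : List V), L.Pairwise (fun a b => h a < h b) →
      IsChain (fun c c' => 0 < Lf h x c c' v) L →
      ∀ w ∈ L, ∀ c ∈ L, h w < h c → h c ≤ h v → Lf h x w v c < 0 := by
  intro L
  induction L with
  | nil => simp
  | cons y L ih =>
    intro hs hc w hw c hcm hwc hcv
    have hcL : c ∈ L := by
      rcases mem_cons.1 hcm with rfl | hcm
      · rcases mem_cons.1 hw with rfl | hw
        · exact absurd hwc (lt_irrefl _)
        · exact absurd ((pairwise_cons.1 hs).1 w hw) (by linarith)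
      · exact hcm
    rcases mem_cons.1 hw with rfl | hw
    · exact up_aux h x v w (by linarith) L w hs hc le_rfl (by unfold Lf; linarith) c hcL hcv
    · exact ih (pairwise_cons.1 hs).2 hc.tail w hw c hcL hwc hcv

theorem rev_hyp {h x : V → ℝ} {v : V} {L : List V} (hs : L.Pairwise (fun a b => h a < h b))
    (hc : IsChain (fun c c' => 0 < Lf h x c c' v) L) :
    L.reverse.Pairwise (fun a b => (fun y => - h y) a < (fun y => - h y) b) ∧
      IsChain (fun c c' => 0 < Lf (fun y => - h y) x c c' v) L.reverse := by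
  constructor
  · rw [pairwise_reverse]
    exact hs.imp fun hab => by simpa using hab
  · rw [isChain_reverse]
    exact hc.imp fun a b hab => by rw [Lf_neg]; exact hab

theorem down_lemma (h x : V → ℝ) (v : V) (L : List V) (hs : L.Pairwise (fun a b => h a < h b))
    (hc : IsChain (fun c c' => 0 < Lf h x c c' v) L) :
    ∀ w ∈ L, ∀ c ∈ L, h c < h w → h v ≤ h c → Lf h x v w c < 0 := by
  intro w hw c hcm hcw hvc
  obtain ⟨h1, h2⟩ := rev_hyp hs hc
  have := up_lemma (fun y => - h y) x v L.reverse h1 h2 w (by simpa using hw) c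
    (by simpa using hcm) (by simpa using hcw) (by simpa using hvc)
  rwa [Lf_neg] at this

theorem sorted_inj {h : V → ℝ} {L : List V} (hs : L.Pairwise (fun a b => h a < h b)) {a b : V}
    (ha : a ∈ L) (hb : b ∈ L) (e : h a = h b) : a = b := by
  induction L with
  | nil => simp at ha
  | cons y L ih =>
    rw [pairwise_cons] at hs
    rcases mem_cons.1 ha with ha' | ha' <;> rcases mem_cons.1 hb with hb' | hb'
    · rw [ha', hb']
    · have := hs.1 b hb'; rw [← ha'] at this; linarith
    · have := hs.1 a ha'; rw [← hb'] at this; linarith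
    · exact ih hs.2 ha' hb'

theorem pair_lt {h : V → ℝ} {L : List V} (hs : L.Pairwise (fun a b => h a < h b)) {c c' : V}
    (hc : [c, c'] <:+: L) : h c < h c' := by
  have := hs.sublist hc.sublist
  simpa using this

theorem pair_between {h : V → ℝ} {L : List V} (hs : L.Pairwise (fun a b => h a < h b))
    {c c' w : V} (hc : [c, c'] <:+: L) (hw : w ∈ L) : h w ≤ h c ∨ h c' ≤ h w := by
  obtain ⟨P, Q, rfl⟩ := hc
  simp only [mem_append, mem_cons, not_mem_nil, or_false] at hw
  rw [pairwise_append] at hs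
  obtain ⟨h1, h2, h3⟩ := hs
  rw [pairwise_append] at h1
  rcases hw with (hw | rfl | rfl) | hw
  · exact Or.inl (h1.2.2 w hw c (by simp)).le
  · exact Or.inl le_rfl
  · exact Or.inr le_rfl
  · exact Or.inr (h3 c' (by simp) w hw).le

theorem half_fan (h x : V → ℝ) (v : V) (L : List V) (hs : L.Pairwise (fun a b => h a < h b))
    (hc : IsChain (fun c c' => 0 < Lf h x c c' v) L) {w c c' : V} (hw : w ∈ L) (hcm : c ∈ L)
    (hcc : h c < h c') (hF : 0 < Lf h x c c' v) (hwc : h w ≤ h c) {s : ℝ} (s0 : 0 < s)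
    (s1 : s ≤ 1) (hy : h c ≤ (1 - s) * h w + s * h v) :
    0 < (1 - s) * Lf h x c c' w + s * Lf h x c c' v := by
  rcases hwc.eq_or_lt with e | hlt
  · have := sorted_inj hs hw hcm e
    subst this
    have : Lf h x w c' w = 0 := by unfold Lf; ring
    rw [this]; simpa using mul_pos s0 hF
  · rcases s1.eq_or_lt with rfl | s1'
    · simpa using hF
    have hv : h c < h v := by
      by_contra hn
      push Not at hn
      nlinarith
    have hl := up_lemma h x v L hs hc w hw c hcm hlt hv.le
    have id : (h v - h c) * ((1 - s) * Lf h x c c' w + s * Lf h x c c' v) =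
        (1 - s) * ((h c' - h c) * (- Lf h x w v c)) +
          Lf h x c c' v * ((1 - s) * h w + s * h v - h c) := by unfold Lf; ring
    have h1 : 0 < (1 - s) * ((h c' - h c) * (- Lf h x w v c)) :=
      mul_pos (by linarith) (mul_pos (by linarith) (by linarith))
    have h2 : 0 ≤ Lf h x c c' v * ((1 - s) * h w + s * h v - h c) :=
      mul_nonneg hF.le (by linarith)
    by_contra hn
    push Not at hn
    have : (h v - h c) * ((1 - s) * Lf h x c c' w + s * Lf h x c c' v) ≤ 0 :=
      mul_nonpos_of_nonneg_of_nonpos (by linarith) hn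
    linarith

theorem fan (h x : V → ℝ) (v : V) (L : List V) (hs : L.Pairwise (fun a b => h a < h b))
    (hc : IsChain (fun c c' => 0 < Lf h x c c' v) L) {w c c' : V} (hw : w ∈ L)
    (hcc : [c, c'] <:+: L) {s : ℝ} (s0 : 0 < s) (s1 : s ≤ 1)
    (hy : h c ≤ (1 - s) * h w + s * h v) (hy' : (1 - s) * h w + s * h v ≤ h c') :
    0 < (1 - s) * Lf h x c c' w + s * Lf h x c c' v := by
  have hlt := pair_lt hs hcc
  have hF : 0 < Lf h x c c' v := by simpa using chain_sub hc hcc
  have m1 : c ∈ L := hcc.subset (by simp)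
  have m2 : c' ∈ L := hcc.subset (by simp)
  rcases pair_between hs hcc hw with h1 | h1
  · exact half_fan h x v L hs hc hw m1 hlt hF h1 s0 s1 hy
  · obtain ⟨r1, r2⟩ := rev_hyp hs hc
    have := half_fan (fun y => - h y) x v L.reverse r1 r2 (w := w) (c := c') (c' := c)
      (by simpa using hw) (by simpa using m2) (by simpa using hlt) (by rw [Lf_neg]; exact hF)
      (by simpa using h1) s0 s1 (by linarith)
    rwa [Lf_neg, Lf_neg] at this

/-- edges, directed from the earlier to the later endpoint -/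
def Ed (d : Dat V) (ord : List V) (u v : V) : Prop :=
  (v ∈ ord ∧ u ∈ d.N v) ∨ (u = d.b ∧ v = d.t)

def WL (h x : V → ℝ) (C : List V) (p : ℝ × ℝ) : Prop :=
  ∃ c c', [c, c'] <:+: C ∧ h c ≤ p.2 ∧ p.2 ≤ h c' ∧ LfP h x c c' p ≤ 0

theorem seg_param {h x : V → ℝ} {u v : V} {p : ℝ × ℝ} (hp : p ∈ segment ℝ (pos h x u) (pos h x v)) :
    ∃ s : ℝ, 0 ≤ s ∧ s ≤ 1 ∧ p.1 = (1 - s) * x u + s * x v ∧ p.2 = (1 - s) * h u + s * h v := by
  obtain ⟨a, b, ha, hb, hab, rfl⟩ := hp
  refine ⟨b, hb, by linarith, ?_, ?_⟩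
  · have : a = 1 - b := by linarith
    simp [pos, this]
  · have : a = 1 - b := by linarith
    simp [pos, this]

theorem LfP_comb {h x : V → ℝ} {c c' u v : V} {p : ℝ × ℝ} {s : ℝ}
    (h1 : p.1 = (1 - s) * x u + s * x v) (h2 : p.2 = (1 - s) * h u + s * h v) :
    LfP h x c c' p = (1 - s) * Lf h x c c' u + s * Lf h x c c' v := by
  unfold LfP Lf; rw [h1, h2]; ring

structure PlaneInv (d : Dat V) (ord C : List V) (h x : V → ℝ) : Prop where
  wl : ∀ u v, Ed d ord u v → ∀ p ∈ segment ℝ (pos h x u) (pos h x v), WL h x C p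
  inj : ∀ u v, In d ord u → In d ord v → pos h x u = pos h x v → u = v
  off : ∀ u v w, Ed d ord u v → In d ord w → w ≠ u → w ≠ v →
    pos h x w ∉ segment ℝ (pos h x u) (pos h x v)
  cross : ∀ u v u' v', Ed d ord u v → Ed d ord u' v' → s(u, v) ≠ s(u', v') →
    ∀ z ∈ segment ℝ (pos h x u) (pos h x v), z ∈ segment ℝ (pos h x u') (pos h x v') →
      ∃ w, (w = u ∨ w = v) ∧ (w = u' ∨ w = v') ∧ z = pos h x w

theorem PlaneInv.wlv {d : Dat V} {ord C : List V} {h x : V → ℝ} (I : PlaneInv d ord C h x)
    {y : V} (hy : In d ord y) : WL h x C (pos h x y) := by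
  rcases hy with hy | rfl | rfl
  · exact I.wl (d.lo y) y (Or.inl ⟨hy, by simp [Dat.N]⟩) _ (right_mem_segment _ _ _)
  · exact I.wl d.b d.t (Or.inr ⟨rfl, rfl⟩) _ (left_mem_segment _ _ _)
  · exact I.wl d.b d.t (Or.inr ⟨rfl, rfl⟩) _ (right_mem_segment _ _ _)

theorem N_bounds {d : Dat V} {h : V → ℝ} {v w : V}
    (hs : (d.N v).Pairwise (fun a b => h a < h b)) (hw : w ∈ d.N v) :
    h (d.lo v) ≤ h w ∧ h w ≤ h (d.hi v) := by
  constructor
  · rcases mem_cons.1 hw with rfl | hw
    · exact le_rfl
    · exact ((pairwise_cons.1 hs).1 w hw).le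
  · have e : d.N v = (d.lo v :: d.mid v) ++ [d.hi v] := rfl
    rw [e] at hs hw
    rcases mem_append.1 hw with hw | hw
    · exact ((pairwise_append.1 hs).2.2 w hw _ (by simp)).le
    · simp at hw; rw [hw]

theorem Build.plane {d : Dat V} {ord C : List V} (hB : Build d ord C) {h x : V → ℝ}
    (H : Mono d ord h) (hx : ∀ z ∈ ord, Sees d h x z) : PlaneInv d ord C h x := by
  induction hB with
  | base hne =>
    have hE : ∀ u v, Ed d [] u v → u = d.b ∧ v = d.t := by
      rintro u v (h | h)
      · simp at h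
      · exact h
    have hI : ∀ u, In d [] u → u = d.b ∨ u = d.t := by
      rintro u (h | h)
      · simp at h
      · exact h
    have hbt := H.1
    refine ⟨?_, ?_, ?_, ?_⟩
    · intro u v e p hp
      obtain ⟨rfl, rfl⟩ := hE u v e
      obtain ⟨s, s0, s1, e1, e2⟩ := seg_param hp
      refine ⟨d.b, d.t, infix_refl _, by nlinarith, by nlinarith, ?_⟩
      rw [LfP_comb e1 e2]
      unfold Lf; nlinarith
    · intro u v hu hv e
      have e2 : h u = h v := congrArg Prod.snd e
      rcases hI u hu with rfl | rfl <;> rcases hI v hv with rfl | rfl <;>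
        first | rfl | (exfalso; linarith)
    · intro u v w e hw h1 h2
      obtain ⟨rfl, rfl⟩ := hE u v e
      rcases hI w hw with rfl | rfl <;> contradiction
    · intro u v u' v' e e' hne
      obtain ⟨rfl, rfl⟩ := hE u v e
      obtain ⟨rfl, rfl⟩ := hE u' v' e'
      exact absurd rfl hne
  | @step ord A B v hB h1 h2 h3 ih =>
    have I := ih H.tail fun z hz => hx z (mem_cons_of_mem _ hz)
    have hsC := hB.sorted H.tail
    have hinf : d.N v <:+: A ++ d.lo v :: (d.mid v ++ d.hi v :: B) :=
      ⟨A, B, by simp [Dat.N]⟩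
    have hsN : (d.N v).Pairwise (fun a b => h a < h b) := hsC.sublist hinf.sublist
    have hsee : IsChain (fun c c' => 0 < Lf h x c c' v) (d.N v) := hx v mem_cons_self
    obtain ⟨hlo, hhi⟩ := H.2 v mem_cons_self
    have hvI : ¬ In d ord v := not_in_of h1 h2 h3
    have hNI : ∀ w ∈ d.N v, In d ord w := fun w hw => hB.mem w (mem_N_sub hw)
    have mlo : d.lo v ∈ d.N v := by simp [Dat.N]
    have mhi : d.hi v ∈ d.N v := by simp [Dat.N]
    -- localisation of contour pairs
    have loc : ∀ c c', [c, c'] <:+: A ++ d.lo v :: (d.mid v ++ d.hi v :: B) →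
        ([c, c'] <:+: A ++ [d.lo v] ∧ h c' ≤ h (d.lo v)) ∨ [c, c'] <:+: d.N v ∨
          ([c, c'] <:+: d.hi v :: B ∧ h (d.hi v) ≤ h c) := by
      intro c c' hc
      rcases pair_infix_split hc with hc | hc
      · refine Or.inl ⟨hc, ?_⟩
        have m : c' ∈ A ++ [d.lo v] := hc.subset (by simp)
        rcases mem_append.1 m with m | m
        · exact ((pairwise_append.1 hsC).2.2 c' m _ (by simp)).le
        · simp at m; rw [m]
      · have : d.lo v :: (d.mid v ++ d.hi v :: B) = (d.lo v :: d.mid v) ++ d.hi v :: B := rfl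
        rw [this] at hc
        rcases pair_infix_split hc with hc | hc
        · exact Or.inr (Or.inl hc)
        · refine Or.inr (Or.inr ⟨hc, ?_⟩)
          have m : c ∈ d.hi v :: B := hc.subset (by simp)
          rcases mem_cons.1 m with m | m
          · rw [m]
          · have e : A ++ d.lo v :: (d.mid v ++ d.hi v :: B) =
                (A ++ d.lo v :: d.mid v) ++ d.hi v :: B := by simp
            rw [e] at hsC
            exact ((pairwise_cons.1 (pairwise_append.1 hsC).2.1).1 c m).le
    -- new half-open segments avoid the old drawing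
    have avoid : ∀ w ∈ d.N v, ∀ p ∈ segment ℝ (pos h x w) (pos h x v),
        WL h x (A ++ d.lo v :: (d.mid v ++ d.hi v :: B)) p → p = pos h x w := by
      intro w hw p hp ⟨c, c', hc, y1, y2, hL⟩
      obtain ⟨s, s0, s1, e1, e2⟩ := seg_param hp
      rcases s0.eq_or_lt with rfl | s0'
      · ext
        · simpa [pos] using e1
        · simpa [pos] using e2
      exfalso
      obtain ⟨b1, b2⟩ := N_bounds hsN hw
      rcases loc c c' hc with ⟨_, hc⟩ | hc | ⟨_, hc⟩
      · nlinarith
      · have := fan h x v _ hsN hsee hw hc s0' s1 (e2 ▸ y1) (e2 ▸ y2)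
        rw [LfP_comb e1 e2] at hL
        linarith
      · nlinarith
    have iA : [d.lo v, v] <:+: A ++ d.lo v :: v :: d.hi v :: B := ⟨A, d.hi v :: B, by simp⟩
    have iB : [v, d.hi v] <:+: A ++ d.lo v :: v :: d.hi v :: B := ⟨A ++ [d.lo v], B, by simp⟩
    have upd : ∀ p, WL h x (A ++ d.lo v :: (d.mid v ++ d.hi v :: B)) p →
        WL h x (A ++ d.lo v :: v :: d.hi v :: B) p := by
      rintro p ⟨c, c', hc, y1, y2, hL⟩
      rcases loc c c' hc with ⟨hc, _⟩ | hc | ⟨hc, _⟩
      · exact ⟨c, c', hc.trans ⟨[], v :: d.hi v :: B, by simp⟩, y1, y2, hL⟩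
      · have m1 : c ∈ d.N v := hc.subset (by simp)
        have m2 : c' ∈ d.N v := hc.subset (by simp)
        have hlt := pair_lt hsN hc
        have b1 := (N_bounds hsN m1).1
        have b2 := (N_bounds hsN m2).2
        -- generic step
        have gen : ∀ w ∈ d.N v, ∀ s : ℝ, 0 ≤ s → s ≤ 1 → p.2 = (1 - s) * h w + s * h v →
            p.1 ≤ (1 - s) * x w + s * x v := by
          intro w hw s s0 s1 e2
          have hq : 0 ≤ (1 - s) * Lf h x c c' w + s * Lf h x c c' v := by
            rcases s0.eq_or_lt with rfl | s0'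
            · simp only [sub_zero, one_mul, zero_mul, add_zero] at e2 ⊢
              rcases pair_between hsN hc hw with q | q
              · have := sorted_inj hsN hw m1 (by linarith)
                subst this; unfold Lf; linarith
              · have := sorted_inj hsN hw m2 (by linarith)
                subst this; unfold Lf; linarith
            · exact (fan h x v _ hsN hsee hw hc s0' s1 (e2 ▸ y1) (e2 ▸ y2)).le
          have id : (1 - s) * Lf h x c c' w + s * Lf h x c c' v - LfP h x c c' p =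
              (h c' - h c) * ((1 - s) * x w + s * x v - p.1) := by
            unfold Lf LfP; rw [e2]; ring
          by_contra hn
          push Not at hn
          have : (h c' - h c) * ((1 - s) * x w + s * x v - p.1) < 0 :=
            mul_neg_of_pos_of_neg (by linarith) (by linarith)
          linarith
        rcases le_total p.2 (h v) with hp | hp
        · refine ⟨d.lo v, v, iA, by linarith, hp, ?_⟩
          have hd : 0 < h v - h (d.lo v) := by linarith
          have := gen _ mlo ((p.2 - h (d.lo v)) / (h v - h (d.lo v)))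
            (div_nonneg (by linarith) hd.le) ((div_le_one hd).2 (by linarith))
            (by field_simp; ring)
          have h5 := mul_le_mul_of_nonneg_left this hd.le
          have id : (h v - h (d.lo v)) * ((1 - (p.2 - h (d.lo v)) / (h v - h (d.lo v))) *
              x (d.lo v) + (p.2 - h (d.lo v)) / (h v - h (d.lo v)) * x v) =
              (h v - p.2) * x (d.lo v) + (p.2 - h (d.lo v)) * x v := by
            field_simp; ring
          unfold LfP; linarith
        · refine ⟨v, d.hi v, iB, hp, by linarith, ?_⟩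
          have hd : 0 < h (d.hi v) - h v := by linarith
          have := gen _ mhi ((h (d.hi v) - p.2) / (h (d.hi v) - h v))
            (div_nonneg (by linarith) hd.le) ((div_le_one hd).2 (by linarith))
            (by field_simp; ring)
          have h5 := mul_le_mul_of_nonneg_left this hd.le
          have id : (h (d.hi v) - h v) * ((1 - (h (d.hi v) - p.2) / (h (d.hi v) - h v)) *
              x (d.hi v) + (h (d.hi v) - p.2) / (h (d.hi v) - h v) * x v) =
              (p.2 - h v) * x (d.hi v) + (h (d.hi v) - p.2) * x v := by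
            field_simp; ring
          unfold LfP; linarith
      · exact ⟨c, c', hc.trans ⟨A ++ [d.lo v, v], [], by simp⟩, y1, y2, hL⟩
    have hE : ∀ u w, Ed d (v :: ord) u w → Ed d ord u w ∨ (w = v ∧ u ∈ d.N v) := by
      rintro u w (⟨e1, e2⟩ | e)
      · rcases mem_cons.1 e1 with rfl | e1
        · exact Or.inr ⟨rfl, e2⟩
        · exact Or.inl (Or.inl ⟨e1, e2⟩)
      · exact Or.inl (Or.inr e)
    have hI : ∀ u, In d (v :: ord) u → In d ord u ∨ u = v := by
      rintro u (e | e)
      · rcases mem_cons.1 e with rfl | e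
        · exact Or.inr rfl
        · exact Or.inl (Or.inl e)
      · exact Or.inl (Or.inr e)
    have vnot : ¬ WL h x (A ++ d.lo v :: (d.mid v ++ d.hi v :: B)) (pos h x v) := by
      intro hw
      have := avoid _ mlo _ (right_mem_segment _ _ _) hw
      have e2 : h v = h (d.lo v) := congrArg Prod.snd this
      linarith
    -- an old edge and a new edge
    have oldnew : ∀ u u' w, Ed d ord u u' → w ∈ d.N v →
        ∀ z ∈ segment ℝ (pos h x u) (pos h x u'), z ∈ segment ℝ (pos h x w) (pos h x v) →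
          (w = u ∨ w = u') ∧ z = pos h x w := by
      intro u u' w e hw z hz hz'
      have := avoid w hw z hz' (I.wl u u' e z hz)
      refine ⟨?_, this⟩
      by_contra hn
      push Not at hn
      exact I.off u u' w e (hNI w hw) hn.1 hn.2 (this ▸ hz)
    have offnew : ∀ w ∈ d.N v, ∀ y, In d ord y → pos h x y ∈ segment ℝ (pos h x w) (pos h x v) →
        y = w := by
      intro w hw y hy hm
      exact I.inj _ _ hy (hNI w hw) (avoid w hw _ hm (I.wlv hy))
    refine ⟨?_, ?_, ?_, ?_⟩
    · intro u w e p hp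
      rcases hE u w e with e | ⟨rfl, e⟩
      · exact upd p (I.wl u w e p hp)
      · obtain ⟨s, s0, s1, e1, e2⟩ := seg_param hp
        obtain ⟨b1, b2⟩ := N_bounds hsN e
        rcases le_total (h u) (h w) with q | q
        · refine ⟨d.lo w, w, iA, by nlinarith, by nlinarith, ?_⟩
          rw [LfP_comb e1 e2]
          have z1 : Lf h x (d.lo w) w w = 0 := by unfold Lf; ring
          have z2 : Lf h x (d.lo w) w u ≤ 0 := by
            rcases b1.eq_or_lt with b1 | b1
            · have := sorted_inj hsN mlo e b1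
              rw [← this]; unfold Lf; linarith
            · exact (up_lemma h x w _ hsN hsee _ mlo u e b1 q).le
          rw [z1]; nlinarith
        · refine ⟨w, d.hi w, iB, by nlinarith, by nlinarith, ?_⟩
          rw [LfP_comb e1 e2]
          have z1 : Lf h x w (d.hi w) w = 0 := by unfold Lf; ring
          have z2 : Lf h x w (d.hi w) u ≤ 0 := by
            rcases b2.eq_or_lt with b2 | b2
            · have := sorted_inj hsN e mhi b2
              rw [this]; unfold Lf; linarith
            · exact (down_lemma h x w _ hsN hsee _ mhi u e b2 q).le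
          rw [z1]; nlinarith
    · intro u w hu hw e
      rcases hI u hu with hu1 | rfl <;> rcases hI w hw with hw1 | rfl
      · exact I.inj u w hu1 hw1 e
      · exact absurd (e ▸ I.wlv hu1) vnot
      · exact absurd (e ▸ I.wlv hw1) vnot
      · rfl
    · intro u u' w e hw n1 n2 hm
      rcases hE u u' e with e0 | ⟨rfl, e0⟩
      · rcases hI w hw with hw1 | rfl
        · exact I.off u u' w e0 hw1 n1 n2 hm
        · exact vnot (I.wl u u' e0 _ hm)
      · rcases hI w hw with hw1 | rfl
        · exact n1 (offnew u e0 w hw1 hm)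
        · exact n2 rfl
    · intro u w u' w' e0 e0' hne z hz hz'
      rcases hE u w e0 with e | ⟨rfl, e⟩ <;> rcases hE u' w' e0' with e' | ⟨rfl, e'⟩
      · exact I.cross u w u' w' e e' hne z hz hz'
      · obtain ⟨q1, q2⟩ := oldnew u w u' e e' z hz hz'
        exact ⟨u', q1, Or.inl rfl, q2⟩
      · obtain ⟨q1, q2⟩ := oldnew u' w' u e' e z hz' hz
        exact ⟨u, Or.inl rfl, q1, q2⟩
      · have hne' : u ≠ u' := fun q => hne (by rw [q])
        obtain ⟨s, s0, s1, e1, e2⟩ := seg_param hz
        obtain ⟨r, r0, r1, f1, f2⟩ := seg_param hz'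
        by_cases hs1 : s = 1
        · refine ⟨w', Or.inr rfl, Or.inr rfl, ?_⟩
          ext
          · simpa [pos, hs1] using e1
          · simpa [pos, hs1] using e2
        by_cases hr1 : r = 1
        · refine ⟨w', Or.inr rfl, Or.inr rfl, ?_⟩
          ext
          · simpa [pos, hr1] using f1
          · simpa [pos, hr1] using f2
        exfalso
        have s1' : 0 < 1 - s := sub_pos.2 (lt_of_le_of_ne s1 hs1)
        have r1' : 0 < 1 - r := sub_pos.2 (lt_of_le_of_ne r1 hr1)
        rcases le_total s r with q | q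
        · apply hne'
          apply offnew u' e' u (hNI u e)
          refine ⟨(1 - r) / (1 - s), (r - s) / (1 - s), by positivity,
            div_nonneg (by linarith) s1'.le, by field_simp; ring, ?_⟩
          ext
          · simp only [pos, Prod.fst_add, Prod.smul_fst, smul_eq_mul]
            field_simp; linarith
          · simp only [pos, Prod.snd_add, Prod.smul_snd, smul_eq_mul]
            field_simp; linarith
        · apply hne'
          symm
          apply offnew u e u' (hNI u' e')
          refine ⟨(1 - s) / (1 - r), (s - r) / (1 - r), by positivity,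
            div_nonneg (by linarith) r1'.le, by field_simp; ring, ?_⟩
          ext
          · simp only [pos, Prod.fst_add, Prod.smul_fst, smul_eq_mul]
            field_simp; linarith
          · simp only [pos, Prod.snd_add, Prod.smul_snd, smul_eq_mul]
            field_simp; linarith

end Pool.Agent.MP_d347ac_co.H31

end
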