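import Mathlib

section

set_option autoImplicit false

namespace Pool.Agent.MP_d347ac_co

universe u
variable {V : Type u}

/-- `a, b` are consecutive (in this order) in the list. -/
def Cons : List V → V → V → Prop
  | x :: y :: l, a, b => (x = a ∧ y = b) ∨ Cons (y :: l) a b
  | _, _, _ => False

/-- `b` follows `a` cyclically in the list. -/
def Nx : List V → V → V → Prop
  | [], _, _ => False
  | x :: l, a, b => Cons (x :: l ++ [x]) a b

/-- A set of oriented triangles. -/
abbrev Reg (V : Type u) := V → V → V → Prop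

def Rot (S : Reg V) : Prop := ∀ a b c, S a b c → S b c a
def Le (S T : Reg V) : Prop := ∀ a b c, S a b c → T a b c
/-- half-edge -/
def he (S : Reg V) (a b : V) : Prop := ∃ c, S a b c
/-- boundary half-edge -/
def bd (S : Reg V) (a b : V) : Prop := he S a b ∧ ¬ he S b a
def adj (S : Reg V) (a b : V) : Prop := he S a b ∨ he S b a
def vx (S : Reg V) (v : V) : Prop := ∃ b c, S v b c

/-- Ambient axioms. -/
structure Amb (T : Reg V) : Prop where
  rot : Rot T
  ne : ∀ a b c, T a b c → a ≠ b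
  uniq : ∀ a b c c', T a b c → T a b c' → c = c'
  nz : ∀ S : Reg V, Rot S → Le S T → (∃ a b c, S a b c) → ∃ a b, bd S a b

/-- every simple cycle bounds -/
def SC (D : Reg V) : Prop :=
  ∀ g : List V, g.Nodup → 3 ≤ g.length → (∀ a b, Nx g a b → adj D a b) →
    ∃ S : Reg V, Rot S ∧ Le S D ∧
      ((∀ a b, bd S a b ↔ Nx g a b) ∨ (∀ a b, bd S a b ↔ Nx g b a))

/-- A triangulated disc with counterclockwise boundary cycle `C`. -/
structure Cell (D : Reg V) (C : List V) : Prop where
  rot : Rot D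
  nodup : C.Nodup
  len : 3 ≤ C.length
  bdry : ∀ a b, bd D a b ↔ Nx C a b
  sc : SC D

def orient (p q r : ℝ × ℝ) : ℝ :=
  (q.1 - p.1) * (r.2 - p.2) - (q.2 - p.2) * (r.1 - p.1)

/-- crossing-free straight-line drawing, literally as in the frozen statement -/
def Plane {n : ℕ} (G : SimpleGraph (Fin n)) (p : Fin n → ℝ × ℝ) : Prop :=
  Function.Injective p ∧
    (∀ u v w : Fin n, G.Adj u v → w ≠ u → w ≠ v → p w ∉ segment ℝ (p u) (p v)) ∧
    (∀ u v x y : Fin n, G.Adj u v → G.Adj x y → s(u, v) ≠ s(x, y) →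
      ∀ z ∈ segment ℝ (p u) (p v), z ∈ segment ℝ (p x) (p y) →
        ∃ w : Fin n, (w = u ∨ w = v) ∧ (w = x ∨ w = y) ∧ z = p w)

/-- Part I: a plane drawing embeds in an abstract triangulated triangle. -/
def PartI : Prop :=
  ∀ (n : ℕ) (G : SimpleGraph (Fin n)) (p : Fin n → ℝ × ℝ), Plane G p →
    ∃ (N : ℕ) (T : Reg (Fin N)) (a b c : Fin N) (φ : Fin n → Fin N),
      Amb T ∧ Cell T [a, b, c] ∧ Function.Injective φ ∧
      (∀ v, φ v ∉ [a, b, c] ∧ vx T (φ v)) ∧ ∀ u v, G.Adj u v → adj T (φ u) (φ v)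

/-- Part II: positively oriented faces give a plane drawing of every graph sitting inside. -/
def PartII : Prop :=
  ∀ (N : ℕ) (T : Reg (Fin N)) (a b c : Fin N) (q : Fin N → ℝ × ℝ),
    Amb T → Cell T [a, b, c] → (∀ x y z, T x y z → 0 < orient (q x) (q y) (q z)) →
    ∀ (n : ℕ) (G : SimpleGraph (Fin n)) (φ : Fin n → Fin N), Function.Injective φ →
      (∀ v, φ v ∉ [a, b, c] ∧ vx T (φ v)) → (∀ u v, G.Adj u v → adj T (φ u) (φ v)) →
      Plane G (fun v => q (φ v))

/-- Part III: the main drawing theorem (only the vertices of `R` have to be covered). -/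
def PartIII : Prop :=
  ∀ ε : ℝ, 0 < ε → ∃ K : ℝ, ∀ (N : ℕ) (T : Reg (Fin N)) (a b c : Fin N) (R : Finset (Fin N)),
    Amb T → Cell T [a, b, c] →
    ∃ q : Fin N → ℝ × ℝ, (∀ x y z, T x y z → 0 < orient (q x) (q y) (q z)) ∧
      ∃ L : Finset (ℝ × ℝ × ℝ), (L.card : ℝ) ≤ ε * R.card + K ∧
        (∀ l ∈ L, l.1 ≠ 0 ∨ l.2.1 ≠ 0) ∧
        ∀ v ∈ R, vx T v → v ∉ [a, b, c] →
          ∃ l ∈ L, l.1 * (q v).1 + l.2.1 * (q v).2 = l.2.2

/-- A directed `A`-`B` path for the relation `r`. -/
def IsPath (r : V → V → Prop) (A B : Set V) (l : List V) : Prop :=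
  l.IsChain r ∧ (∃ a ∈ A, l.head? = some a) ∧ (∃ b ∈ B, l.getLast? = some b)

/-- Menger's theorem (directed, vertex version). -/
def Menger : Prop :=
  ∀ (W : Type) [Fintype W] [DecidableEq W] (r : W → W → Prop) (A B : Set W) (k : ℕ),
    (∀ S : Finset W, (∀ l, IsPath r A B l → ∃ s ∈ S, s ∈ l) → k ≤ S.card) →
    ∃ f : Fin k → List W, (∀ i, IsPath r A B (f i) ∧ (f i).Nodup) ∧
      ∀ i j, i ≠ j → List.Disjoint (f i) (f j)

end Pool.Agent.MP_d347ac_co

end

section

set_option autoImplicit false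

namespace Pool.Agent.MP_d347ac_co

universe u
variable {V : Type u}

@[simp] theorem cons_nil (a b : V) : ¬ Cons ([] : List V) a b := by simp [Cons]
@[simp] theorem cons_single (x a b : V) : ¬ Cons [x] a b := by simp [Cons]
@[simp] theorem cons_cons (x y : V) (l : List V) (a b : V) :
    Cons (x :: y :: l) a b ↔ (x = a ∧ y = b) ∨ Cons (y :: l) a b := by simp [Cons]

theorem cons_append_cons (L : List V) (y : V) (R : List V) (a b : V) :
    Cons (L ++ y :: R) a b ↔ Cons (L ++ [y]) a b ∨ Cons (y :: R) a b := by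
  induction L with
  | nil => simp
  | cons x L ih =>
    cases L with
    | nil => simp
    | cons z L =>
      simp only [List.cons_append, cons_cons] at ih ⊢
      rw [ih]; tauto

theorem cons_iff (l : List V) (a b : V) : Cons l a b ↔ ∃ L R, l = L ++ a :: b :: R := by
  constructor
  · intro h
    induction l with
    | nil => simp at h
    | cons x l ih =>
      cases l with
      | nil => simp at h
      | cons y l =>
        rcases (cons_cons _ _ _ _ _).1 h with ⟨rfl, rfl⟩ | h
        · exact ⟨[], l, rfl⟩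
        · obtain ⟨L, R, e⟩ := ih h
          exact ⟨x :: L, R, by simp [e]⟩
  · rintro ⟨L, R, rfl⟩
    rw [cons_append_cons]; right; simp

theorem cons_reverse (l : List V) (a b : V) : Cons l.reverse a b ↔ Cons l b a := by
  rw [cons_iff, cons_iff]
  constructor
  · rintro ⟨L, R, e⟩
    refine ⟨R.reverse, L.reverse, ?_⟩
    have := congrArg List.reverse e
    simpa using this
  · rintro ⟨L, R, rfl⟩
    exact ⟨R.reverse, L.reverse, by simp⟩

theorem Cons.mem_left {l : List V} {a b : V} (h : Cons l a b) : a ∈ l := by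
  obtain ⟨L, R, rfl⟩ := (cons_iff _ _ _).1 h; simp

theorem Cons.mem_right {l : List V} {a b : V} (h : Cons l a b) : b ∈ l := by
  obtain ⟨L, R, rfl⟩ := (cons_iff _ _ _).1 h; simp

theorem Cons.left_mem_init {l : List V} {e a b : V} (h : Cons (l ++ [e]) a b) : a ∈ l := by
  induction l with
  | nil => simp at h
  | cons x l ih =>
    cases l with
    | nil => simp at h; simp [h.1]
    | cons y l =>
      simp only [List.cons_append, cons_cons] at h ih
      rcases h with ⟨rfl, rfl⟩ | h
      · simp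
      · exact List.mem_cons_of_mem _ (ih h)

theorem Cons.right_mem_tail {l : List V} {s a b : V} (h : Cons (s :: l) a b) : b ∈ l := by
  cases l with
  | nil => simp at h
  | cons y l =>
    rcases (cons_cons _ _ _ _ _).1 h with ⟨_, rfl⟩ | h
    · simp
    · exact h.mem_right

theorem Cons.append_left {l : List V} {a b : V} (h : Cons l a b) (L : List V) :
    Cons (L ++ l) a b := by
  obtain ⟨L', R, rfl⟩ := (cons_iff _ _ _).1 h
  exact (cons_iff _ _ _).2 ⟨L ++ L', R, by simp⟩

theorem Cons.append_right {l : List V} {a b : V} (h : Cons l a b) (R : List V) :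
    Cons (l ++ R) a b := by
  obtain ⟨L', R', rfl⟩ := (cons_iff _ _ _).1 h
  exact (cons_iff _ _ _).2 ⟨L', R' ++ R, by simp⟩

theorem cons_append_iff (L R : List V) (a b : V) :
    Cons (L ++ R) a b ↔ Cons L a b ∨ Cons R a b ∨
      ((∃ L', L = L' ++ [a]) ∧ ∃ R', R = b :: R') := by
  cases R with
  | nil => simp
  | cons y R =>
    rw [cons_append_cons]
    rcases List.eq_nil_or_concat L with rfl | ⟨L', x, rfl⟩
    · simp
    · have : L'.concat x ++ [y] = L' ++ x :: [y] := by simp
      rw [this, cons_append_cons]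
      simp only [List.concat_eq_append, cons_cons, cons_single, or_false, List.cons.injEq]
      constructor
      · rintro ((h | ⟨rfl, rfl⟩) | h)
        · exact Or.inl h
        · exact Or.inr (Or.inr ⟨⟨L', rfl⟩, R, rfl, rfl⟩)
        · exact Or.inr (Or.inl h)
      · rintro (h | h | ⟨⟨L'', e⟩, R', rfl, rfl⟩)
        · exact Or.inl (Or.inl h)
        · exact Or.inr h
        · have := List.append_inj_right' e rfl
          simp at this
          exact Or.inl (Or.inr ⟨this, rfl⟩)

theorem exists_cons_succ {l : List V} {e a : V} (h : a ∈ l) : ∃ b, Cons (l ++ [e]) a b := by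
  obtain ⟨L, R, rfl⟩ := List.append_of_mem h
  cases R with
  | nil => exact ⟨e, (cons_iff _ _ _).2 ⟨L, [], by simp⟩⟩
  | cons b R => exact ⟨b, (cons_iff _ _ _).2 ⟨L, R ++ [e], by simp⟩⟩

theorem exists_cons_pred {l : List V} {s b : V} (h : b ∈ l) : ∃ a, Cons (s :: l) a b := by
  obtain ⟨L, R, rfl⟩ := List.append_of_mem h
  rcases List.eq_nil_or_concat L with rfl | ⟨L', a, rfl⟩
  · exact ⟨s, by simp⟩
  · exact ⟨a, (cons_iff _ _ _).2 ⟨s :: L', R, by simp⟩⟩

theorem cons_all {P : V → Prop} {x : V} {l : List V} (hx : P x)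
    (h : ∀ a b, Cons (x :: l) a b → P a → P b) : ∀ v ∈ x :: l, P v := by
  induction l generalizing x with
  | nil => simpa using hx
  | cons y l ih =>
    intro v hv
    rcases List.mem_cons.1 hv with rfl | hv
    · exact hx
    · exact ih (h x y (by simp) hx) (fun a b hab => h a b (by simp [hab])) v hv

theorem cons_all_rev {P : V → Prop} {x : V} {l : List V} (hx : P x)
    (h : ∀ a b, Cons (l ++ [x]) a b → P b → P a) : ∀ v ∈ l ++ [x], P v := by
  have := cons_all (P := P) (x := x) (l := l.reverse) hx (fun a b hab => by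
    have e : x :: l.reverse = (l ++ [x]).reverse := by simp
    rw [e, cons_reverse] at hab
    exact h b a hab)
  intro v hv
  apply this
  simp at hv ⊢; tauto

section idx
variable [DecidableEq V]

theorem Cons.idx {l : List V} (hn : l.Nodup) {a b : V} (h : Cons l a b) :
    l.idxOf a + 1 = l.idxOf b := by
  obtain ⟨L, R, rfl⟩ := (cons_iff _ _ _).1 h
  have h1 : a ∉ L := fun h => by
    have := List.disjoint_of_nodup_append hn h; simp at this
  have h2 : b ∉ L := fun h => by
    have := List.disjoint_of_nodup_append hn h; simp at this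
  have h3 : a ≠ b := by
    have := (List.nodup_append.1 hn).2.1; simp at this; tauto
  rw [List.idxOf_append_of_notMem h1, List.idxOf_append_of_notMem h2]
  simp [h3]

theorem cons_of_idx {l : List V} {a b : V} (ha : a ∈ l) (hb : b ∈ l)
    (h : l.idxOf a + 1 = l.idxOf b) : Cons l a b := by
  induction l with
  | nil => simp at ha
  | cons x l ih =>
    by_cases hxb : x = b
    · subst hxb; simp at h
    have hb' : b ∈ l := by simpa [Ne.symm hxb] using hb
    cases l with
    | nil => simp at hb'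
    | cons y l =>
      by_cases hxa : x = a
      · subst hxa
        left; refine ⟨rfl, ?_⟩
        by_contra hyb
        simp [hxb, hyb] at h
      · right
        have ha' : a ∈ y :: l := by simpa [Ne.symm hxa] using ha
        apply ih ha' hb'
        rw [List.idxOf_cons_ne _ hxa, List.idxOf_cons_ne _ hxb] at h
        omega

theorem idx_inj {l : List V} {a b : V} (ha : a ∈ l) (h : l.idxOf a = l.idxOf b) : a = b :=
  (List.idxOf_inj ha).1 h

end idx

theorem Cons.ne {l : List V} (hn : l.Nodup) {a b : V} (h : Cons l a b) : a ≠ b := by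
  classical
  have := h.idx hn
  rintro rfl; omega

theorem Cons.succ_uniq {l : List V} (hn : l.Nodup) {a b c : V} (h : Cons l a b) (h' : Cons l a c) :
    b = c := by
  classical
  exact idx_inj h.mem_right (by rw [← h.idx hn, ← h'.idx hn])

theorem Cons.pred_uniq {l : List V} (hn : l.Nodup) {a b c : V} (h : Cons l a c) (h' : Cons l b c) :
    a = b := by
  classical
  have h1 := h.idx hn
  have h2 := h'.idx hn
  exact idx_inj h.mem_left (by omega)

theorem Cons.asymm {l : List V} (hn : l.Nodup) {a b : V} (h : Cons l a b) : ¬ Cons l b a := by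
  classical
  intro h'
  have h1 := h.idx hn
  have h2 := h'.idx hn
  omega

@[simp] theorem nx_nil (a b : V) : ¬ Nx ([] : List V) a b := by simp [Nx]
theorem nx_cons (x : V) (l : List V) (a b : V) : Nx (x :: l) a b ↔ Cons (x :: l ++ [x]) a b := by
  simp [Nx]

theorem nx_split (x y : V) (A B : List V) (a b : V) :
    Nx (x :: A ++ y :: B) a b ↔ Cons (x :: A ++ [y]) a b ∨ Cons (y :: B ++ [x]) a b := by
  have : Nx (x :: A ++ y :: B) a b ↔ Cons ((x :: A) ++ y :: (B ++ [x])) a b := by
    rw [List.cons_append, nx_cons]; simp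
  rw [this, cons_append_cons]; simp

theorem nx_rot (A B : List V) (a b : V) : Nx (A ++ B) a b ↔ Nx (B ++ A) a b := by
  cases A with
  | nil => simp
  | cons x A =>
    cases B with
    | nil => simp
    | cons y B =>
      have h1 := nx_split x y A B a b
      have h2 := nx_split y x B A a b
      simp only [List.cons_append] at h1 h2 ⊢
      rw [h1, h2]; tauto

theorem nx_iff (C : List V) (a b : V) :
    Nx C a b ↔ Cons C a b ∨ ((∃ L, C = L ++ [a]) ∧ ∃ R, C = b :: R) := by
  cases C with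
  | nil => simp
  | cons x l =>
    rw [nx_cons, cons_append_iff]
    simp [eq_comm]

theorem Cons.nx {C : List V} {a b : V} (h : Cons C a b) : Nx C a b := (nx_iff _ _ _).2 (Or.inl h)

theorem Nx.mem_left {C : List V} {a b : V} (h : Nx C a b) : a ∈ C := by
  rcases (nx_iff _ _ _).1 h with h | ⟨⟨L, rfl⟩, _⟩
  · exact h.mem_left
  · simp

theorem Nx.mem_right {C : List V} {a b : V} (h : Nx C a b) : b ∈ C := by
  rcases (nx_iff _ _ _).1 h with h | ⟨_, R, rfl⟩
  · exact h.mem_right
  · simp

theorem nx_succ {C : List V} {a : V} (h : a ∈ C) : ∃ b, Nx C a b := by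
  cases C with
  | nil => simp at h
  | cons x l => exact exists_cons_succ (e := x) h

theorem nx_pred {C : List V} {b : V} (h : b ∈ C) : ∃ a, Nx C a b := by
  cases C with
  | nil => simp at h
  | cons x l =>
    have : b ∈ l ++ [x] := by simp at h ⊢; tauto
    exact exists_cons_pred (s := x) this

theorem nx_idx [DecidableEq V] {C : List V} (hn : C.Nodup) {a b : V} (h : Nx C a b) :
    C.idxOf a + 1 = C.idxOf b ∨ (C.idxOf a + 1 = C.length ∧ C.idxOf b = 0) := by
  rcases (nx_iff _ _ _).1 h with h | ⟨⟨L, e⟩, R, e'⟩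
  · exact Or.inl (h.idx hn)
  · right
    constructor
    · subst e
      have h1 : a ∉ L := fun h => by
        have := List.disjoint_of_nodup_append hn h; simp at this
      rw [List.idxOf_append_of_notMem h1]; simp
    · rw [e']; simp

theorem Nx.succ_uniq {C : List V} (hn : C.Nodup) {a b c : V} (h : Nx C a b) (h' : Nx C a c) :
    b = c := by
  classical
  have h1 := nx_idx hn h
  have h2 := nx_idx hn h'
  have h3 := List.idxOf_lt_length_of_mem h.mem_right
  have h4 := List.idxOf_lt_length_of_mem h'.mem_right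
  exact idx_inj h.mem_right (by omega)

theorem Nx.pred_uniq {C : List V} (hn : C.Nodup) {a b c : V} (h : Nx C a c) (h' : Nx C b c) :
    a = b := by
  classical
  have h1 := nx_idx hn h
  have h2 := nx_idx hn h'
  exact idx_inj h.mem_left (by omega)

theorem Nx.asymm {C : List V} (hn : C.Nodup) (hl : 3 ≤ C.length) {a b : V} (h : Nx C a b) :
    ¬ Nx C b a := by
  classical
  intro h'
  have h1 := nx_idx hn h
  have h2 := nx_idx hn h'
  omega

theorem Nx.ne {C : List V} (hn : C.Nodup) (hl : 2 ≤ C.length) {a b : V} (h : Nx C a b) :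
    a ≠ b := by
  classical
  rintro rfl
  have h1 := nx_idx hn h
  omega

theorem nx_all {P : V → Prop} {C : List V} {v : V} (hv : v ∈ C) (hP : P v)
    (h : ∀ a b, Nx C a b → P a → P b) : ∀ w ∈ C, P w := by
  obtain ⟨L, R, rfl⟩ := List.append_of_mem hv
  have := cons_all (P := P) (x := v) (l := R ++ L) hP (fun a b hab => by
    apply h
    rw [nx_rot]
    exact Cons.nx (by simpa using hab))
  intro w hw
  apply this
  simp at hw ⊢; tauto

theorem nx_three (a b c x y : V) :
    Nx [a, b, c] x y ↔ (a = x ∧ b = y) ∨ (b = x ∧ c = y) ∨ (c = x ∧ a = y) := by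
  simp [nx_cons]

theorem pair_sublist {l : List V} {a b : V} (h : [a, b].Sublist l) :
    ∃ L M R, l = L ++ a :: M ++ b :: R := by
  obtain ⟨r1, r2, rfl, ha, hb⟩ := List.cons_sublist_iff.1 h
  obtain ⟨L, M1, rfl⟩ := List.append_of_mem ha
  obtain ⟨M2, R, rfl⟩ := List.append_of_mem (List.singleton_sublist.1 hb)
  exact ⟨L, M1 ++ M2, R, by simp⟩

theorem two_mem {l : List V} {a b : V} (ha : a ∈ l) (hb : b ∈ l) (hab : a ≠ b) :
    (∃ L M R, l = L ++ a :: M ++ b :: R) ∨ ∃ L M R, l = L ++ b :: M ++ a :: R := by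
  obtain ⟨L, R, rfl⟩ := List.append_of_mem ha
  have : b ∈ L ∨ b ∈ R := by simpa [hab.symm] using hb
  rcases this with h | h
  · obtain ⟨L1, M, rfl⟩ := List.append_of_mem h
    exact Or.inr ⟨L1, M, R, by simp⟩
  · obtain ⟨M, R1, rfl⟩ := List.append_of_mem h
    exact Or.inl ⟨L, M, R1, by simp⟩

end Pool.Agent.MP_d347ac_co

end

section

set_option autoImplicit false

namespace Pool.Agent.MP_d347ac_co

universe u
variable {V : Type u}

theorem Le.trans {A B C : Reg V} (h : Le A B) (h' : Le B C) : Le A C :=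
  fun a b c x => h' a b c (h a b c x)

theorem Le.refl (A : Reg V) : Le A A := fun _ _ _ x => x

theorem he.mono {A B : Reg V} (h : Le A B) {a b : V} (x : he A a b) : he B a b :=
  let ⟨c, hc⟩ := x; ⟨c, h _ _ _ hc⟩

theorem adj.mono {A B : Reg V} (h : Le A B) {a b : V} (x : adj A a b) : adj B a b :=
  x.imp (he.mono h) (he.mono h)

theorem adj.symm {A : Reg V} {a b : V} (x : adj A a b) : adj A b a := Or.symm x

theorem vx.mono {A B : Reg V} (h : Le A B) {a : V} (x : vx A a) : vx B a :=
  let ⟨b, c, hc⟩ := x; ⟨b, c, h _ _ _ hc⟩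

theorem Rot.two {S : Reg V} (h : Rot S) {a b c : V} (x : S a b c) : S c a b :=
  h _ _ _ (h _ _ _ x)

theorem he.vx_left {S : Reg V} {a b : V} (x : he S a b) : vx S a :=
  let ⟨c, hc⟩ := x; ⟨b, c, hc⟩

theorem he.vx_right {S : Reg V} (h : Rot S) {a b : V} (x : he S a b) : vx S b :=
  let ⟨c, hc⟩ := x; ⟨c, a, h _ _ _ hc⟩

theorem adj.vx_left {S : Reg V} (h : Rot S) {a b : V} (x : adj S a b) : vx S a :=
  x.elim he.vx_left (he.vx_right h)

theorem adj.vx_right {S : Reg V} (h : Rot S) {a b : V} (x : adj S a b) : vx S b :=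
  x.symm.vx_left h

section amb
variable {T : Reg V} (hT : Amb T)
include hT

theorem he.ne {S : Reg V} (hle : Le S T) {a b : V} (x : he S a b) : a ≠ b :=
  let ⟨_, hc⟩ := x; hT.ne _ _ _ (hle _ _ _ hc)

theorem adj.ne {S : Reg V} (hle : Le S T) {a b : V} (x : adj S a b) : a ≠ b :=
  x.elim (he.ne hT hle) (fun y => (he.ne hT hle y).symm)

/-- a triangle of the ambient on a half-edge of `S` is in `S` -/
theorem he.mem {S : Reg V} (hle : Le S T) {a b c : V} (x : he S a b) (y : T a b c) : S a b c := by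
  obtain ⟨c', hc⟩ := x
  rwa [hT.uniq _ _ _ _ y (hle _ _ _ hc)]

theorem flow [Finite V] {S : Reg V} (hS : Rot S) (hle : Le S T) (G : Set V) {a b : V}
    (hb : bd S a b) (ha : a ∉ G) (hb' : b ∈ G) : ∃ c d, bd S c d ∧ c ∈ G ∧ d ∉ G := by
  classical
  cases nonempty_fintype V
  by_contra hcon
  push Not at hcon
  let In : Finset (V × V) := Finset.univ.filter (fun e => he S e.1 e.2 ∧ e.1 ∉ G ∧ e.2 ∈ G)
  let Out : Finset (V × V) := Finset.univ.filter (fun e => he S e.1 e.2 ∧ e.1 ∈ G ∧ e.2 ∉ G)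
  let th : V × V → V := fun e => if h : he S e.1 e.2 then h.choose else e.1
  have hth : ∀ e : V × V, he S e.1 e.2 → S e.1 e.2 (th e) := fun e h => by
    simp only [th, h, dif_pos]; exact h.choose_spec
  let f : V × V → V × V := fun e => if th e ∈ G then (th e, e.1) else (e.2, th e)
  have h1 : In.card ≤ Out.card := by
    apply Finset.card_le_card_of_injOn f
    · intro e he'
      simp only [In, Finset.coe_filter, Finset.mem_univ, true_and, Set.mem_ofPred_eq] at he'
      have := hth e he'.1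
      simp only [Out, Finset.coe_filter, Finset.mem_univ, true_and, Set.mem_ofPred_eq, f]
      split_ifs with h
      · exact ⟨⟨_, hS.two this⟩, h, he'.2.1⟩
      · exact ⟨⟨_, hS _ _ _ this⟩, he'.2.2, h⟩
    · intro e he' e' he'' hf
      simp only [In, Finset.coe_filter, Finset.mem_univ, true_and, Set.mem_ofPred_eq] at he' he''
      have t1 := hth e he'.1
      have t2 := hth e' he''.1
      simp only [f] at hf
      split_ifs at hf with g1 g2 g2
      · simp only [Prod.mk.injEq] at hf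
        have u1 := hS.two t1
        have u2 := hS.two t2
        rw [← hf.1, ← hf.2] at u2
        exact Prod.ext hf.2 (hT.uniq _ _ _ _ (hle _ _ _ u1) (hle _ _ _ u2))
      · simp only [Prod.mk.injEq] at hf
        have u1 := hS.two t1
        have u2 := hS _ _ _ t2
        rw [← hf.1, ← hf.2] at u2
        have := hT.uniq _ _ _ _ (hle _ _ _ u1) (hle _ _ _ u2)
        exact absurd (this ▸ he'.2.2) he''.2.1
      · simp only [Prod.mk.injEq] at hf
        have u1 := hS _ _ _ t1
        have u2 := hS.two t2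
        rw [← hf.1, ← hf.2] at u2
        have := hT.uniq _ _ _ _ (hle _ _ _ u1) (hle _ _ _ u2)
        exact absurd (this ▸ he''.2.2) he'.2.1
      · simp only [Prod.mk.injEq] at hf
        have u1 := hS _ _ _ t1
        have u2 := hS _ _ _ t2
        rw [← hf.1, ← hf.2] at u2
        exact Prod.ext (hT.uniq _ _ _ _ (hle _ _ _ u1) (hle _ _ _ u2)) hf.1
  have h2 : Out.card ≤ (In.erase (a, b)).card := by
    apply Finset.card_le_card_of_injOn Prod.swap
    · intro e he'
      simp only [Out, Finset.coe_filter, Finset.mem_univ, true_and, Set.mem_ofPred_eq] at he'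
      have hr : he S e.2 e.1 := by
        by_contra hn
        exact he'.2.2 (hcon e.1 e.2 ⟨he'.1, hn⟩ he'.2.1)
      simp only [Finset.coe_erase, In, Finset.coe_filter, Finset.mem_univ, true_and,
        Set.mem_sdiff, Set.mem_ofPred_eq, Set.mem_singleton_iff, Prod.fst_swap, Prod.snd_swap]
      refine ⟨⟨hr, he'.2.2, he'.2.1⟩, fun h => ?_⟩
      have e1 : e.2 = a := congrArg Prod.fst h
      have e2 : e.1 = b := congrArg Prod.snd h
      exact hb.2 (e1 ▸ e2 ▸ he'.1)
    · exact fun _ _ _ _ h => Prod.swap_injective h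
  have h3 : (a, b) ∈ In := by simp [In, hb.1, ha, hb']
  have h4 := Finset.card_erase_lt_of_mem h3
  omega

theorem bd_next [Finite V] {S : Reg V} (hS : Rot S) (hle : Le S T) {a b : V} (hb : bd S a b) :
    ∃ c, bd S b c := by
  obtain ⟨c, d, h, hc, _⟩ := flow hT hS hle {b} hb (by simpa using he.ne hT hle hb.1) rfl
  exact ⟨d, hc ▸ h⟩

theorem bd_prev [Finite V] {S : Reg V} (hS : Rot S) (hle : Le S T) {a b : V} (hb : bd S a b) :
    ∃ c, bd S c a := by
  obtain ⟨c, d, h, _, hd⟩ := flow hT hS hle {a}ᶜ hb (by simp)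
    (by simpa using (he.ne hT hle hb.1).symm)
  have : d = a := by simpa using hd
  exact ⟨c, this ▸ h⟩

theorem bd_full [Finite V] {S : Reg V} (hS : Rot S) (hle : Le S T) {C : List V} (hn : C.Nodup)
    (h : ∀ a b, bd S a b → Nx C a b) {a₀ b₀ : V} (h0 : bd S a₀ b₀) :
    ∀ a b, Nx C a b → bd S a b := by
  have := nx_all (P := fun v => ∃ w, bd S v w) (h _ _ h0).mem_left ⟨_, h0⟩ (by
    rintro a b hab ⟨w, hw⟩
    have := (h _ _ hw).succ_uniq hn hab
    subst this
    exact bd_next hT hS hle hw)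
  intro a b hab
  obtain ⟨w, hw⟩ := this a hab.mem_left
  rwa [← (h _ _ hw).succ_uniq hn hab]

theorem empty_of_bd [Finite V] {S : Reg V} (hS : Rot S) (hle : Le S T) {C : List V} (hn : C.Nodup)
    (h : ∀ a b, bd S a b → Nx C a b) {a b : V} (hab : Nx C a b) (hn' : ¬ bd S a b) :
    ∀ x y z, ¬ S x y z := by
  intro x y z hx
  obtain ⟨a₀, b₀, h0⟩ := hT.nz S hS hle ⟨x, y, z, hx⟩
  exact hn' (bd_full hT hS hle hn h h0 a b hab)

/-- simple connectivity is inherited by a part -/
theorem sc_part [Finite V] {D D1 D2 : Reg V} (hle : Le D T) (hsc : SC D)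
    (h2 : Rot D2) (hor : ∀ a b c, D a b c ↔ D1 a b c ∨ D2 a b c)
    (hdis : ∀ a b c, D1 a b c → ¬ D2 a b c) {C : List V} (hn : C.Nodup)
    (hb : ∀ a b, bd D2 a b ↔ Nx C a b) {a₀ b₀ : V} (h0 : Nx C a₀ b₀) (h0' : bd D a₀ b₀) :
    SC D1 := by
  have l1 : Le D1 D := fun a b c x => (hor a b c).2 (Or.inl x)
  have l2 : Le D2 D := fun a b c x => (hor a b c).2 (Or.inr x)
  have nd : ∀ a b, he D1 a b → ¬ he D2 a b := fun a b ⟨c, hc⟩ x =>
    hdis _ _ _ hc (he.mem hT (l2.trans hle) x (hle _ _ _ (l1 _ _ _ hc)))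
  intro g hg hl hadj
  obtain ⟨S, hS, hSD, hbd⟩ := hsc g hg hl (fun a b h => (hadj a b h).mono l1)
  have hbd' : ∀ a b, bd S a b → adj D1 a b := fun a b h => by
    rcases hbd with e | e
    · exact hadj _ _ ((e _ _).1 h)
    · exact (hadj _ _ ((e _ _).1 h)).symm
  refine ⟨S, hS, ?_, hbd⟩
  let W : Reg V := fun a b c => S a b c ∧ D2 a b c
  have hW : Rot W := fun a b c x => ⟨hS _ _ _ x.1, h2 _ _ _ x.2⟩
  have hWT : Le W T := fun a b c x => hle _ _ _ (hSD _ _ _ x.1)
  have hWS : Le W S := fun a b c x => x.1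
  have hW2 : Le W D2 := fun a b c x => x.2
  have key := empty_of_bd hT hW hWT hn (a := a₀) (b := b₀) (by
    intro a b hab
    by_cases hr : he D2 b a
    · exfalso
      have : bd S a b := ⟨hab.1.mono hWS, fun x => hab.2 (by
        obtain ⟨c, hc⟩ := hr
        exact ⟨c, he.mem hT (hSD.trans hle) x (hle _ _ _ (l2 _ _ _ hc)), hc⟩)⟩
      rcases hbd' _ _ this with x | x
      · exact nd _ _ x (hab.1.mono hW2)
      · exact nd _ _ x hr
    · exact (hb _ _).1 ⟨hab.1.mono hW2, hr⟩) h0 (by
    intro hab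
    have : bd S a₀ b₀ := ⟨hab.1.mono hWS, fun x => h0'.2 (x.mono hSD)⟩
    rcases hbd' _ _ this with x | x
    · exact nd _ _ x (hab.1.mono hW2)
    · exact h0'.2 (x.mono l1))
  intro a b c x
  rcases (hor a b c).1 (hSD _ _ _ x) with y | y
  · exact y
  · exact absurd ⟨x, y⟩ (key a b c)

end amb

/-- A cell or an empty region with a degenerate boundary. -/
def WCell (D : Reg V) (C : List V) : Prop := (C.length ≤ 2 ∧ ∀ a b c, ¬ D a b c) ∨ Cell D C

theorem Cell.rotate {D : Reg V} {A B : List V} (h : Cell D (A ++ B)) : Cell D (B ++ A) :=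
  ⟨h.rot, List.perm_append_comm.nodup_iff.1 h.nodup, by have := h.len; simp at this ⊢; omega,
    fun a b => by rw [h.bdry, nx_rot], h.sc⟩

theorem WCell.cell {D : Reg V} {C : List V} (h : WCell D C) (hl : 3 ≤ C.length) : Cell D C := by
  rcases h with h | h
  · omega
  · exact h

theorem WCell.rot {D : Reg V} {C : List V} (h : WCell D C) : Rot D := by
  rcases h with h | h
  · exact fun a b c x => absurd x (h.2 _ _ _)
  · exact h.rot

theorem Cell.vx_of_mem {D : Reg V} {C : List V} (h : Cell D C) {v : V} (hv : v ∈ C) : vx D v := by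
  obtain ⟨w, hw⟩ := nx_succ hv
  exact ((h.bdry _ _).2 hw).1.vx_left

theorem Cell.adj_of_nx {D : Reg V} {C : List V} (h : Cell D C) {a b : V} (hv : Nx C a b) :
    adj D a b := Or.inl ((h.bdry _ _).2 hv).1

theorem Cell.he_of_int {D : Reg V} {C : List V} (h : Cell D C) {a b : V} (hab : adj D a b)
    (hv : a ∉ C ∨ b ∉ C) : he D a b := by
  rcases hab with x | x
  · exact x
  · by_contra hn
    have := (h.bdry _ _).1 ⟨x, hn⟩
    rcases hv with hv | hv
    · exact hv this.mem_right
    · exact hv this.mem_left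

theorem split [Finite V] {T : Reg V} (hT : Amb T) {D : Reg V} (hle : Le D T) {x y : V}
    {A B P : List V} (hD : Cell D (x :: A ++ y :: B)) (hP : P.Nodup)
    (hPC : ∀ v ∈ P, v ∉ x :: A ++ y :: B)
    (hch : ∀ a b, Cons (x :: P ++ [y]) a b → adj D a b) :
    ∃ D1 D2 : Reg V, (∀ a b c, D a b c ↔ D1 a b c ∨ D2 a b c) ∧
      (∀ a b c, D1 a b c → ¬ D2 a b c) ∧
      WCell D1 (x :: A ++ y :: P.reverse) ∧ WCell D2 (y :: B ++ x :: P) := by
  classical
  by_cases hA : P = [] ∧ A = []
  · obtain ⟨rfl, rfl⟩ := hA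
    refine ⟨fun _ _ _ => False, D, by simp, by simp, Or.inl (by simp), Or.inr ?_⟩
    exact Cell.rotate (A := [x]) (B := y :: B) hD
  by_cases hB : P = [] ∧ B = []
  · obtain ⟨rfl, rfl⟩ := hB
    exact ⟨D, fun _ _ _ => False, by simp, by simp, Or.inr (by simpa using hD), Or.inl (by simp)⟩
  have hn := hD.nodup
  have hn1 : (x :: A ++ y :: P.reverse).Nodup := by
    have e : x :: A ++ y :: P.reverse = (x :: A ++ [y]) ++ P.reverse := by simp
    rw [e, List.nodup_append]
    refine ⟨hn.sublist (by simp), List.nodup_reverse.2 hP, ?_⟩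
    intro a ha b hb hab
    subst hab
    exact hPC a (List.mem_reverse.1 hb) (by simp at ha ⊢; tauto)
  have hn2 : (y :: B ++ x :: P).Nodup := by
    have e : y :: B ++ x :: P = (y :: B ++ [x]) ++ P := by simp
    rw [e, List.nodup_append]
    have hn' : (y :: B ++ x :: A).Nodup := List.perm_append_comm.nodup_iff.1 hn
    refine ⟨hn'.sublist (by simp), hP, ?_⟩
    intro a ha b hb hab
    subst hab
    exact hPC a hb (by simp at ha ⊢; tauto)
  have hl1 : 3 ≤ (x :: A ++ y :: P.reverse).length := by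
    cases A <;> cases P <;> simp at hA ⊢ <;> omega
  have hl2 : 3 ≤ (y :: B ++ x :: P).length := by
    cases B <;> cases P <;> simp at hB ⊢ <;> omega
  set a1 : V → V → Prop := fun a b => Cons (x :: A ++ [y]) a b with ha1
  set a2 : V → V → Prop := fun a b => Cons (y :: B ++ [x]) a b with ha2
  set pe : V → V → Prop := fun a b => Cons (x :: P ++ [y]) a b with hpe
  have n0 : ∀ a b, bd D a b ↔ a1 a b ∨ a2 a b := fun a b => by rw [hD.bdry, nx_split]
  have n1 : ∀ a b, Nx (x :: A ++ y :: P.reverse) a b ↔ a1 a b ∨ pe b a := fun a b => by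
    rw [nx_split]
    have e : y :: P.reverse ++ [x] = (x :: P ++ [y]).reverse := by simp
    rw [e, cons_reverse]
  have n2 : ∀ a b, Nx (y :: B ++ x :: P) a b ↔ a2 a b ∨ pe a b := fun a b => by
    rw [nx_split]
  have d12 : ∀ a b, a1 a b → ¬ a2 a b := fun a b h1 h2 => by
    have m1 : a ∈ x :: A := h1.left_mem_init
    have m2 : a ∈ y :: B := h2.left_mem_init
    exact List.disjoint_of_nodup_append hn m1 m2
  have pnb : ∀ a b, pe a b → ¬ bd D a b ∧ ¬ bd D b a := fun a b h => by
    by_cases hP0 : P = []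
    · subst hP0
      have : x = a ∧ y = b := by simpa [hpe] using h
      obtain ⟨rfl, rfl⟩ := this
      have hA' : A ≠ [] := fun e => hA ⟨rfl, e⟩
      have hB' : B ≠ [] := fun e => hB ⟨rfl, e⟩
      have hyA : y ∉ x :: A := fun h => List.disjoint_of_nodup_append hn h (by simp)
      have i1 : (x :: A ++ y :: B).idxOf y = A.length + 1 := by
        rw [List.idxOf_append_of_notMem hyA]; simp
      have i0 : (x :: A ++ y :: B).idxOf x = 0 := by simp
      have lA := List.length_pos_iff.2 hA'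
      have lB := List.length_pos_iff.2 hB'
      constructor
      · intro hb
        have := nx_idx hn ((hD.bdry _ _).1 hb)
        rw [i0, i1] at this
        simp only [List.length_append, List.length_cons] at this; omega
      · intro hb
        have := nx_idx hn ((hD.bdry _ _).1 hb)
        rw [i0, i1] at this
        simp only [List.length_append, List.length_cons] at this; omega
    · have : a ∈ P ∨ b ∈ P := by
        by_contra hc
        push Not at hc
        have m1 : a ∈ x :: P := h.left_mem_init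
        have m2 : b ∈ P ++ [y] := Cons.right_mem_tail (s := x) h
        have e1 : a = x := by simpa [hc.1] using m1
        have e2 : b = y := by simpa [hc.2] using m2
        subst e1 e2
        obtain ⟨z, P', rfl⟩ := List.exists_cons_of_ne_nil hP0
        have hnn : (a :: (z :: P') ++ [b]).Nodup := by
          have := List.perm_append_comm.nodup_iff.1 hn2
          exact this.sublist (by simp)
        have := Cons.succ_uniq hnn h (c := z) (by simp)
        exact hc.2 (by simp [this])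
      constructor
      · intro hb
        have hb := (hD.bdry _ _).1 hb
        rcases this with h | h
        · exact hPC _ h hb.mem_left
        · exact hPC _ h hb.mem_right
      · intro hb
        have hb := (hD.bdry _ _).1 hb
        rcases this with h | h
        · exact hPC _ h hb.mem_right
        · exact hPC _ h hb.mem_left
  obtain ⟨p1, q1, e1⟩ : ∃ a b, a1 a b := by
    obtain ⟨b, hb⟩ := exists_cons_succ (l := x :: A) (e := y) (a := x) (by simp)
    exact ⟨x, b, hb⟩
  obtain ⟨p2, q2, e2⟩ : ∃ a b, a2 a b := by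
    obtain ⟨b, hb⟩ := exists_cons_succ (l := y :: B) (e := x) (a := y) (by simp)
    exact ⟨y, b, hb⟩
  obtain ⟨S, hS, hSD, hbd⟩ := hD.sc _ hn1 hl1 (fun a b h => by
    rcases (n1 _ _).1 h with h | h
    · exact Or.inl ((n0 _ _).2 (Or.inl h)).1
    · exact (hch _ _ h).symm)
  have hbd : ∀ a b, bd S a b ↔ Nx (x :: A ++ y :: P.reverse) a b := by
    rcases hbd with h | h
    · exact h
    · exfalso
      have := (h q1 p1).2 ((n1 _ _).2 (Or.inl e1))
      exact ((n0 _ _).2 (Or.inl e1)).2 (this.1.mono hSD)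
  let D2 : Reg V := fun a b c => D a b c ∧ ¬ S a b c
  have hD2 : Rot D2 := fun a b c h => ⟨hD.rot _ _ _ h.1, fun s => h.2 (hS.two s)⟩
  have hST := hSD.trans hle
  have hor : ∀ a b c, D a b c ↔ S a b c ∨ D2 a b c := fun a b c => by
    constructor
    · intro h; by_cases s : S a b c
      · exact Or.inl s
      · exact Or.inr ⟨h, s⟩
    · rintro (h | h)
      · exact hSD _ _ _ h
      · exact h.1
  have he2 : ∀ a b, he D2 a b ↔ he D a b ∧ ¬ he S a b := fun a b => by
    constructor
    · rintro ⟨c, h1, h2⟩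
      exact ⟨⟨c, h1⟩, fun s => h2 (he.mem hT hST s (hle _ _ _ h1))⟩
    · rintro ⟨⟨c, h1⟩, h2⟩
      exact ⟨c, h1, fun s => h2 ⟨c, s⟩⟩
  have hbd2 : ∀ a b, bd D2 a b ↔ Nx (y :: B ++ x :: P) a b := fun a b => by
    rw [n2]
    simp only [bd, he2]
    constructor
    · rintro ⟨⟨h1, h2⟩, h3⟩
      by_cases hr : he D b a
      · have s : he S b a := by by_contra s; exact h3 ⟨hr, s⟩
        rcases (n1 _ _).1 ((hbd _ _).1 ⟨s, h2⟩) with h | h
        · exact absurd h1 ((n0 _ _).2 (Or.inl h)).2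
        · exact Or.inr h
      · rcases (n0 _ _).1 ⟨h1, hr⟩ with h | h
        · exact absurd ((hbd _ _).2 ((n1 _ _).2 (Or.inl h))).1 h2
        · exact Or.inl h
    · rintro (h | h)
      · have hb := (n0 _ _).2 (Or.inr h)
        refine ⟨⟨hb.1, fun s => ?_⟩, fun r => hb.2 r.1⟩
        rcases (n1 _ _).1 ((hbd _ _).1 ⟨s, fun r => hb.2 (r.mono hSD)⟩) with h' | h'
        · exact d12 _ _ h' h
        · exact (pnb _ _ h').2 hb
      · have hb := (hbd _ _).2 ((n1 b a).2 (Or.inr h))
        refine ⟨⟨?_, hb.2⟩, fun r => r.2 hb.1⟩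
        by_contra hn'
        exact (pnb _ _ h).2 ⟨hb.1.mono hSD, hn'⟩
  refine ⟨S, D2, hor, fun a b c s d => d.2 s, Or.inr ⟨hS, hn1, hl1, hbd, ?_⟩,
    Or.inr ⟨hD2, hn2, hl2, hbd2, ?_⟩⟩
  · exact sc_part hT hle hD.sc hD2 hor (fun a b c s d => d.2 s) hn2 hbd2
      ((n2 _ _).2 (Or.inl e2)) ((n0 _ _).2 (Or.inr e2))
  · exact sc_part hT hle hD.sc hS (fun a b c => by rw [hor]; tauto) (fun a b c d s => d.2 s) hn1 hbd
      ((n1 _ _).2 (Or.inl e1)) ((n0 _ _).2 (Or.inl e1))

end Pool.Agent.MP_d347ac_co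

end

section

set_option autoImplicit false

namespace Pool.Agent.MP_d347ac_co

/-- list of consecutive pairs -/
def prs : List ℕ → List (ℕ × ℕ)
  | x :: y :: l => (x, y) :: prs (y :: l)
  | _ => []

theorem mem_prs (l : List ℕ) (a b : ℕ) : (a, b) ∈ prs l ↔ Cons l a b := by
  induction l with
  | nil => simp [prs]
  | cons x l ih =>
    cases l with
    | nil => simp [prs]
    | cons y l => simp [prs, ih, eq_comm]

theorem prs_append (L : List ℕ) (y : ℕ) (R : List ℕ) :
    prs (L ++ y :: R) = prs (L ++ [y]) ++ prs (y :: R) := by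
  induction L with
  | nil => simp [prs]
  | cons x L ih =>
    cases L with
    | nil => simp [prs]
    | cons z L => simp only [List.cons_append, prs] at ih ⊢; rw [ih]

/-- State of the incremental construction; `G` is the closed frontier walk. -/
structure St (T : Reg ℕ) (E : ℕ → ℕ → Prop) (G : List ℕ) : Prop where
  amb : Amb T
  tE : ∀ a b c, T a b c → E a b
  symm : ∀ a b, E a b → E b a
  irr : ∀ a, ¬ E a a
  pE : ∀ a b, Cons G a b → E a b
  free : ∀ a b, E a b → (he T a b ↔ ¬ Cons G b a)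
  nd : (prs G).Nodup
  sc : ∀ K : ℕ, (∀ a b, E a b → b < K) → ∀ φ : ℕ → ℕ → ZMod 2, (∀ a b, φ a b = φ b a) →
    (∀ a b, ¬ E a b → φ a b = 0) → (∀ a, ∑ b ∈ Finset.range K, φ a b = 0) →
    ∃ χ : ℕ → ℕ → ZMod 2, (∀ a b, ¬ he T a b → χ a b = 0) ∧ (∀ a b c, T a b c → χ a b = χ b c) ∧
      ∀ a b, φ a b = χ a b + χ b a
  fin : ∃ K, ∀ a b, E a b → b < K

def addE (E : ℕ → ℕ → Prop) (u w : ℕ) : ℕ → ℕ → Prop :=
  fun x y => E x y ∨ (x = u ∧ y = w) ∨ (x = w ∧ y = u)

theorem St.init (b t : ℕ) (h : b ≠ t) :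
    St (fun _ _ _ => False) (addE (fun _ _ => False) b t) [b, t, b] := by
  refine ⟨⟨by simp [Rot], by simp, by simp, fun S _ hle ⟨a, b, c, h⟩ => (hle _ _ _ h).elim⟩,
    by simp, ?_, ?_, ?_, ?_, ?_, ?_, ⟨b + t + 1, ?_⟩⟩
  · simp only [addE]; tauto
  · intro a; simp only [addE, false_or]; omega
  · intro x y; simp only [addE, cons_cons, cons_single, false_or, or_false]; omega
  · intro x y; simp only [addE, cons_cons, cons_single, he]; simp; omega
  · simp [prs, h]
  · intro K hK φ hs h0 hd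
    refine ⟨fun _ _ => 0, by simp, by simp, fun x y => ?_⟩
    have : φ b t = 0 := by
      rw [← hd b, Finset.sum_eq_single t]
      · intro y _ hy; apply h0; simp only [addE, false_or]; omega
      · intro ht; exact absurd (Finset.mem_range.2 (hK b t (by simp [addE]))) ht
    by_cases e : addE (fun _ _ => False) b t x y
    · rcases e with e | ⟨rfl, rfl⟩ | ⟨rfl, rfl⟩
      · exact e.elim
      · simpa using this
      · simpa [hs x y] using this
    · simpa using h0 _ _ e
  · intro x y; simp only [addE, false_or]; omega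

theorem St.pend {T : Reg ℕ} {E : ℕ → ℕ → Prop} {L R : List ℕ} {a w : ℕ}
    (h : St T E (L ++ a :: R)) (hw : ∀ x, ¬ E w x) (hwa : w ≠ a) :
    St T (addE E a w) (L ++ a :: w :: a :: R) := by
  have hw' : ∀ x, ¬ E x w := fun x e => hw x (h.symm _ _ e)
  have ec : ∀ x y, Cons (L ++ a :: w :: a :: R) x y ↔
      Cons (L ++ a :: R) x y ∨ (a = x ∧ w = y) ∨ (w = x ∧ a = y) := fun x y => by
    rw [cons_append_cons, cons_append_cons L a R]; simp only [cons_cons]; tauto
  refine ⟨h.amb, fun x y z t => Or.inl (h.tE _ _ _ t), ?_, ?_, ?_, ?_, ?_, ?_, ?_⟩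
  · rintro x y (e | e | e)
    · exact Or.inl (h.symm _ _ e)
    · exact Or.inr (Or.inr e.symm)
    · exact Or.inr (Or.inl e.symm)
  · rintro x (e | e | e)
    · exact h.irr _ e
    · omega
    · omega
  · intro x y c
    rcases (ec _ _).1 c with c | c | c
    · exact Or.inl (h.pE _ _ c)
    · exact Or.inr (Or.inl ⟨c.1.symm, c.2.symm⟩)
    · exact Or.inr (Or.inr ⟨c.1.symm, c.2.symm⟩)
  · rintro x y (e | ⟨rfl, rfl⟩ | ⟨rfl, rfl⟩)
    · rw [h.free _ _ e, ec]
      have h1 : w ≠ x := fun q => hw y (q ▸ e)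
      have h2 : w ≠ y := fun q => hw' x (q ▸ e)
      tauto
    · rw [ec]
      exact ⟨fun ⟨c, t⟩ => absurd (h.tE _ _ _ t) (hw' _), fun q => absurd (by tauto) q⟩
    · rw [ec]
      exact ⟨fun ⟨c, t⟩ => absurd (h.tE _ _ _ t) (hw _), fun q => absurd (by tauto) q⟩
  · have nd := h.nd
    have n1 : (a, w) ∉ prs (L ++ a :: R) := fun q => hw' _ (h.pE _ _ ((mem_prs _ _ _).1 q))
    have n2 : (w, a) ∉ prs (L ++ a :: R) := fun q => hw _ (h.pE _ _ ((mem_prs _ _ _).1 q))
    rw [prs_append] at nd n1 n2 ⊢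
    have : (prs (L ++ [a]) ++ prs (a :: w :: a :: R)).Perm
        ((a, w) :: (w, a) :: (prs (L ++ [a]) ++ prs (a :: R))) := by
      simp only [prs]
      exact List.perm_middle.trans (List.Perm.cons _ List.perm_middle)
    rw [this.nodup_iff, List.nodup_cons, List.nodup_cons]
    refine ⟨?_, n2, nd⟩
    rw [List.mem_cons]
    rintro (q | q)
    · simp at q; omega
    · exact n1 q
  · intro K hK φ hs h0 hd
    have z : φ w a = 0 := by
      rw [← hd w, Finset.sum_eq_single a]
      · intro y _ hy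
        apply h0
        rintro (e | e | e)
        · exact hw _ e
        · exact hwa e.1
        · exact hy e.2
      · intro ht; exact absurd (Finset.mem_range.2 (hK w a (by simp [addE]))) ht
    refine h.sc K (fun x y e => hK x y (Or.inl e)) φ hs (fun x y e => ?_) hd
    by_cases q : addE E a w x y
    · rcases q with q | ⟨rfl, rfl⟩ | ⟨rfl, rfl⟩
      · exact absurd q e
      · rw [hs]; exact z
      · exact z
    · exact h0 _ _ q
  · obtain ⟨K, hK⟩ := h.fin
    refine ⟨K + a + w + 1, ?_⟩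
    rintro x y (e | e | e)
    · have := hK _ _ e; omega
    · omega
    · omega

def tri (p q r : ℕ) : Reg ℕ := fun x y z =>
  (x = p ∧ y = q ∧ z = r) ∨ (x = q ∧ y = r ∧ z = p) ∨ (x = r ∧ y = p ∧ z = q)

theorem St.ear {T : Reg ℕ} {E : ℕ → ℕ → Prop} {L R : List ℕ} {w a b : ℕ}
    (h : St T E (L ++ w :: a :: b :: R)) (hwb : w ≠ b) (hE : ¬ E w b) :
    St (fun x y z => T x y z ∨ tri b a w x y z) (addE E w b) (L ++ w :: b :: R) := by
  classical
  have c1 : Cons (L ++ w :: a :: b :: R) w a := (cons_iff _ _ _).2 ⟨L, b :: R, rfl⟩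
  have c2 : Cons (L ++ w :: a :: b :: R) a b := (cons_iff _ _ _).2 ⟨L ++ [w], R, by simp⟩
  have e1 := h.pE _ _ c1
  have e2 := h.pE _ _ c2
  have hwa : w ≠ a := fun q => h.irr a (q ▸ e1)
  have hab : a ≠ b := fun q => h.irr a (q ▸ e2)
  have f1 : ¬ he T a w := fun q => (h.free _ _ (h.symm _ _ e1)).1 q c1
  have f2 : ¬ he T b a := fun q => (h.free _ _ (h.symm _ _ e2)).1 q c2
  have f3 : ¬ he T w b := fun ⟨c, t⟩ => hE (h.tE _ _ _ t)
  have f4 : ¬ he T b w := fun ⟨c, t⟩ => hE (h.symm _ _ (h.tE _ _ _ t))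
  have nd := h.nd
  rw [prs_append] at nd
  have pm : (prs (L ++ [w]) ++ prs (w :: a :: b :: R)).Perm
      ((w, a) :: (a, b) :: (prs (L ++ [w]) ++ prs (b :: R))) := by
    simp only [prs]
    exact List.perm_middle.trans (List.Perm.cons _ List.perm_middle)
  rw [pm.nodup_iff, List.nodup_cons, List.nodup_cons] at nd
  obtain ⟨nd1, nd2, nd3⟩ := nd
  simp only [List.mem_cons, List.mem_append, mem_prs, not_or] at nd1 nd2
  have eo : ∀ x y, Cons (L ++ w :: a :: b :: R) x y ↔
      Cons (L ++ [w]) x y ∨ (w = x ∧ a = y) ∨ (a = x ∧ b = y) ∨ Cons (b :: R) x y := fun x y => by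
    rw [cons_append_cons]; simp only [cons_cons]
  have en : ∀ x y, Cons (L ++ w :: b :: R) x y ↔
      Cons (L ++ [w]) x y ∨ (w = x ∧ b = y) ∨ Cons (b :: R) x y := fun x y => by
    rw [cons_append_cons]; simp only [cons_cons]
  have heN : ∀ x y, he (fun x y z => T x y z ∨ tri b a w x y z) x y ↔
      he T x y ∨ (x = b ∧ y = a) ∨ (x = a ∧ y = w) ∨ (x = w ∧ y = b) := fun x y => by
    simp only [he, tri, exists_or]
    constructor
    · rintro (q | ⟨c, q⟩ | ⟨c, q⟩ | ⟨c, q⟩) <;> tauto
    · rintro (q | q | q | q)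
      · exact Or.inl q
      · exact Or.inr (Or.inl ⟨w, q.1, q.2, rfl⟩)
      · exact Or.inr (Or.inr (Or.inl ⟨b, q.1, q.2, rfl⟩))
      · exact Or.inr (Or.inr (Or.inr ⟨a, q.1, q.2, rfl⟩))
  have ntri : ∀ x y z, tri b a w x y z → ¬ he T x y := by
    rintro x y z (⟨rfl, rfl, rfl⟩ | ⟨rfl, rfl, rfl⟩ | ⟨rfl, rfl, rfl⟩) <;> assumption
  refine ⟨⟨?_, ?_, ?_, ?_⟩, ?_, ?_, ?_, ?_, ?_, ?_, ?_, ?_⟩
  · rintro x y z (t | t)
    · exact Or.inl (h.amb.rot _ _ _ t)
    · right; unfold tri at t ⊢; tauto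
  · rintro x y z (t | t)
    · exact h.amb.ne _ _ _ t
    · unfold tri at t; omega
  · rintro x y z z' (t | t) (t' | t')
    · exact h.amb.uniq _ _ _ _ t t'
    · exact absurd ⟨z, t⟩ (ntri _ _ _ t')
    · exact absurd ⟨z', t'⟩ (ntri _ _ _ t)
    · unfold tri at t t'; omega
  · intro S hS hle hne
    by_cases q : S w b a
    · refine ⟨w, b, ⟨a, q⟩, fun r => ?_⟩
      rcases (heN _ _).1 (r.mono hle) with r | r | r | r
      · exact f4 r
      · exact hwa r.2
      · exact hab r.1.symm
      · exact hwb r.2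
    · refine h.amb.nz S hS (fun x y z s => ?_) hne
      rcases hle _ _ _ s with t | (⟨rfl, rfl, rfl⟩ | ⟨rfl, rfl, rfl⟩ | ⟨rfl, rfl, rfl⟩)
      · exact t
      · exact absurd (hS.two s) q
      · exact absurd (hS _ _ _ s) q
      · exact absurd s q
  · rintro x y z (t | (⟨rfl, rfl, rfl⟩ | ⟨rfl, rfl, rfl⟩ | ⟨rfl, rfl, rfl⟩))
    · exact Or.inl (h.tE _ _ _ t)
    · exact Or.inl (h.symm _ _ e2)
    · exact Or.inl (h.symm _ _ e1)
    · exact Or.inr (Or.inl ⟨rfl, rfl⟩)
  · rintro x y (e | e | e)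
    · exact Or.inl (h.symm _ _ e)
    · exact Or.inr (Or.inr e.symm)
    · exact Or.inr (Or.inl e.symm)
  · rintro x (e | e | e)
    · exact h.irr _ e
    · omega
    · omega
  · intro x y c
    rcases (en _ _).1 c with c | c | c
    · exact Or.inl (h.pE _ _ ((eo _ _).2 (Or.inl c)))
    · exact Or.inr (Or.inl ⟨c.1.symm, c.2.symm⟩)
    · exact Or.inl (h.pE _ _ ((eo _ _).2 (Or.inr (Or.inr (Or.inr c)))))
  · rintro x y (e | ⟨rfl, rfl⟩ | ⟨rfl, rfl⟩)
    · rw [heN, h.free _ _ e, en, eo]
      have q1 : ¬ (x = w ∧ y = b) := by rintro ⟨rfl, rfl⟩; exact hE e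
      have q2 : ¬ (w = y ∧ b = x) := by rintro ⟨rfl, rfl⟩; exact hE (h.symm _ _ e)
      by_cases p1 : x = b ∧ y = a
      · obtain ⟨rfl, rfl⟩ := p1
        refine ⟨fun _ => ?_, fun _ => Or.inr (Or.inl ⟨rfl, rfl⟩)⟩
        rintro (q | q | q)
        · exact nd2.1 q
        · exact q2 q
        · exact nd2.2 q
      by_cases p2 : x = a ∧ y = w
      · obtain ⟨rfl, rfl⟩ := p2
        refine ⟨fun _ => ?_, fun _ => Or.inr (Or.inr (Or.inl ⟨rfl, rfl⟩))⟩
        rintro (q | q | q)
        · exact nd1.2.1 q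
        · exact q2 q
        · exact nd1.2.2 q
      have p1' : ¬ (a = y ∧ b = x) := fun q => p1 ⟨q.2.symm, q.1.symm⟩
      have p2' : ¬ (w = y ∧ a = x) := fun q => p2 ⟨q.2.symm, q.1.symm⟩
      simp only [p1, p2, q1, q2, p1', p2', or_false, false_or]
    · rw [heN, en]
      have q1 : ¬ Cons (L ++ [x]) y x := fun q =>
        hE (h.symm _ _ (h.pE _ _ ((eo _ _).2 (Or.inl q))))
      have q2 : ¬ Cons (y :: R) y x := fun q =>
        hE (h.symm _ _ (h.pE _ _ ((eo _ _).2 (Or.inr (Or.inr (Or.inr q))))))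
      refine ⟨fun _ => ?_, fun _ => Or.inr (Or.inr (Or.inr ⟨rfl, rfl⟩))⟩
      rintro (q | q | q)
      · exact q1 q
      · exact hwb q.1
      · exact q2 q
    · rw [heN, en]
      refine ⟨?_, fun q => absurd (Or.inr (Or.inl ⟨rfl, rfl⟩)) q⟩
      rintro (q | q | q | q)
      · exact absurd q f4
      · exact absurd q.2 hwa
      · exact absurd q.1.symm hab
      · exact absurd q.2 hwb
  · rw [prs_append]
    have : (prs (L ++ [w]) ++ prs (w :: b :: R)).Perm
        ((w, b) :: (prs (L ++ [w]) ++ prs (b :: R))) := by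
      simp only [prs]
      exact List.perm_middle
    rw [this.nodup_iff, List.nodup_cons]
    refine ⟨?_, nd3⟩
    simp only [List.mem_append, mem_prs]
    rintro (q | q)
    · exact hE (h.pE _ _ ((eo _ _).2 (Or.inl q)))
    · exact hE (h.pE _ _ ((eo _ _).2 (Or.inr (Or.inr (Or.inr q)))))
  · intro K hK φ hs h0 hd
    let k := φ w b
    let ι : ℕ → ℕ → ZMod 2 := fun x y =>
      if (x = b ∧ y = a) ∨ (x = a ∧ y = w) ∨ (x = w ∧ y = b) then k else 0
    have hKa : a < K := hK _ _ (Or.inl e1)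
    have hKb : b < K := hK _ _ (Or.inl e2)
    have hKw : w < K := hK _ _ (Or.inl (h.symm _ _ e1))
    have two : ∀ t : ZMod 2, t + t = 0 := by decide
    obtain ⟨χ, x1, x2, x3⟩ := h.sc K (fun x y e => hK x y (Or.inl e))
      (fun x y => φ x y + ι x y + ι y x) (fun x y => by rw [hs x y]; ring) (fun x y e => by
        have q1 : ¬ (x = b ∧ y = a) := by rintro ⟨rfl, rfl⟩; exact e (h.symm _ _ e2)
        have q2 : ¬ (x = a ∧ y = w) := by rintro ⟨rfl, rfl⟩; exact e (h.symm _ _ e1)
        have q3 : ¬ (y = b ∧ x = a) := by rintro ⟨rfl, rfl⟩; exact e e2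
        have q4 : ¬ (y = a ∧ x = w) := by rintro ⟨rfl, rfl⟩; exact e e1
        by_cases p1 : x = w ∧ y = b
        · obtain ⟨rfl, rfl⟩ := p1
          simp [ι, hwb, hwa, hab.symm, hwb.symm, k, two]
        by_cases p2 : y = w ∧ x = b
        · obtain ⟨rfl, rfl⟩ := p2
          simp [ι, hwb, hwa, hab.symm, hwb.symm, k, two, hs x y]
        have : φ x y = 0 := h0 _ _ (by
          rintro (q | q | q)
          · exact e q
          · exact p1 q
          · exact p2 q.symm)
        simp [ι, q1, q2, q3, q4, p1, p2, this]) (fun x => by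
        rw [Finset.sum_add_distrib, Finset.sum_add_distrib, hd, zero_add]
        by_cases p1 : x = b
        · subst p1
          rw [Finset.sum_eq_single a, Finset.sum_eq_single w]
          · simp [ι, two]
          · intro y _ hy; simp [ι, hy, hab.symm, hwb.symm]
          · intro q; exact absurd (Finset.mem_range.2 hKw) q
          · intro y _ hy; simp [ι, hy, hab.symm, hwb.symm]
          · intro q; exact absurd (Finset.mem_range.2 hKa) q
        by_cases p2 : x = a
        · subst p2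
          rw [Finset.sum_eq_single w, Finset.sum_eq_single b]
          · simp [ι, two]
          · intro y _ hy; simp [ι, hy, hab, hwa.symm]
          · intro q; exact absurd (Finset.mem_range.2 hKb) q
          · intro y _ hy; simp [ι, hy, hab, hwa.symm]
          · intro q; exact absurd (Finset.mem_range.2 hKw) q
        by_cases p3 : x = w
        · subst p3
          rw [Finset.sum_eq_single b, Finset.sum_eq_single a]
          · simp [ι, two]
          · intro y _ hy; simp [ι, hy, hwa, hwb]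
          · intro q; exact absurd (Finset.mem_range.2 hKa) q
          · intro y _ hy; simp [ι, hy, hwa, hwb]
          · intro q; exact absurd (Finset.mem_range.2 hKb) q
        simp [ι, p1, p2, p3])
    refine ⟨fun x y => χ x y + ι x y, fun x y q => ?_, ?_, fun x y => ?_⟩
    · rw [heN] at q
      show χ x y + ι x y = 0
      rw [x1 _ _ (fun r => q (Or.inl r))]
      simp only [ι]
      rw [if_neg (fun r => q (Or.inr r))]; simp
    · rintro x y z (t | t)
      · have n1 : ¬ ((x = b ∧ y = a) ∨ (x = a ∧ y = w) ∨ (x = w ∧ y = b)) := by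
          rintro (⟨rfl, rfl⟩ | ⟨rfl, rfl⟩ | ⟨rfl, rfl⟩)
          · exact f2 ⟨_, t⟩
          · exact f1 ⟨_, t⟩
          · exact f3 ⟨_, t⟩
        have t' := h.amb.rot _ _ _ t
        have n2 : ¬ ((y = b ∧ z = a) ∨ (y = a ∧ z = w) ∨ (y = w ∧ z = b)) := by
          rintro (⟨rfl, rfl⟩ | ⟨rfl, rfl⟩ | ⟨rfl, rfl⟩)
          · exact f2 ⟨_, t'⟩
          · exact f1 ⟨_, t'⟩
          · exact f3 ⟨_, t'⟩
        simp only [ι, if_neg n1, if_neg n2, x2 _ _ _ t]
      · have t' : tri b a w y z x := by unfold tri at t ⊢; tauto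
        simp only [x1 _ _ (ntri _ _ _ t), x1 _ _ (ntri _ _ _ t'), ι]
        rw [if_pos (by unfold tri at t; tauto), if_pos (by unfold tri at t; tauto)]
    · have := x3 x y
      have e : φ x y = (φ x y + ι x y + ι y x) + ι x y + ι y x := by
        have := two (ι x y); have := two (ι y x); grind
      rw [e, this]; ring
  · obtain ⟨K, hK⟩ := h.fin
    refine ⟨K + w + b + 1, ?_⟩
    rintro x y (e | e | e)
    · have := hK _ _ e; omega
    · omega
    · omega

theorem St.ears {L R : List ℕ} {w z : ℕ} (M : List ℕ) :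
    ∀ {T : Reg ℕ} {E : ℕ → ℕ → Prop} {a : ℕ}, St T E (L ++ w :: a :: (M ++ z :: R)) →
    (M ++ [z]).Nodup → (∀ x ∈ M ++ [z], ¬ E w x ∧ x ≠ w) →
    ∃ T' E', St T' E' (L ++ w :: z :: R) ∧
      ∀ x y, E' x y ↔ E x y ∨ (x = w ∧ y ∈ M ++ [z]) ∨ (y = w ∧ x ∈ M ++ [z]) := by
  induction M with
  | nil =>
    intro T E a h _ hx
    have := hx z (by simp)
    exact ⟨_, _, h.ear this.2.symm this.1, fun x y => by simp only [addE]; simp; tauto⟩
  | cons m M ih =>
    intro T E a h hn hx
    have := hx m (by simp)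
    have hn' : m ∉ M ++ [z] ∧ (M ++ [z]).Nodup := List.nodup_cons.1 hn
    obtain ⟨T', E', h', e⟩ := ih (h.ear this.2.symm this.1) hn'.2 (fun x hx' => by
      have := hx x (List.mem_cons_of_mem _ hx')
      refine ⟨?_, this.2⟩
      rintro (q | q | q)
      · exact this.1 q
      · exact hn'.1 (q.2 ▸ hx')
      · exact this.2 q.2)
    refine ⟨T', E', h', fun x y => ?_⟩
    rw [e]; simp only [addE, List.cons_append, List.mem_cons]; tauto

theorem St.cone {T : Reg ℕ} {E : ℕ → ℕ → Prop} {L M R : List ℕ} {g z w : ℕ}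
    (h : St T E (L ++ g :: (M ++ z :: R))) (hn : (g :: (M ++ [z])).Nodup) (hw : ∀ x, ¬ E w x) :
    (∀ x ∈ g :: (M ++ [z]), ∃ y, E x y) ∧ ∃ T' E', St T' E' (L ++ g :: w :: z :: R) ∧
      ∀ x y, E' x y ↔ E x y ∨ (x = w ∧ y ∈ g :: (M ++ [z])) ∨ (y = w ∧ x ∈ g :: (M ++ [z])) := by
  have us : ∀ x ∈ g :: (M ++ [z]), ∃ y, E x y := by
    have sub : ∀ a b, Cons (g :: (M ++ [z])) a b → E a b := fun a b c => h.pE a b (by
      have := (c.append_left L).append_right R
      simpa using this)
    intro x hx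
    rcases List.mem_cons.1 hx with rfl | hx
    · obtain ⟨y, hy⟩ := exists_cons_succ (l := x :: M) (e := z) (a := x) (by simp)
      exact ⟨y, sub _ _ hy⟩
    · obtain ⟨y, hy⟩ := exists_cons_pred (s := g) hx
      exact ⟨y, h.symm _ _ (sub _ _ hy)⟩
  have ne : ∀ x ∈ g :: (M ++ [z]), x ≠ w := fun x hx q => by
    obtain ⟨y, hy⟩ := us x hx
    exact hw y (q ▸ hy)
  refine ⟨us, ?_⟩
  have h1 := h.pend hw (ne g (by simp)).symm
  have hn' := List.nodup_cons.1 hn
  obtain ⟨T', E', h', e⟩ := St.ears (L := L ++ [g]) (R := R) (w := w) (z := z) M (a := g)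
    (by simpa using h1) hn'.2 (fun x hx => by
      refine ⟨?_, ne x (List.mem_cons_of_mem _ hx)⟩
      rintro (q | q | q)
      · exact hw _ q
      · exact ne g (by simp) q.1.symm
      · exact hn'.1 (q.2 ▸ hx))
  refine ⟨T', E', by simpa using h', fun x y => ?_⟩
  rw [e]; simp only [addE, List.mem_cons]; tauto

end Pool.Agent.MP_d347ac_co

end
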