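import Pool.Agent.Mg.S11659.Gad9707
import Pool.Agent.Mg.S11659.G9061cd
import Pool.Agent.Mg.S11659.G9195a8

section

set_option autoImplicit false

namespace Pool.Agent.MP_d347ac_co

/-- restriction of a region on the naturals to `Fin K` -/
def res (K : ℕ) (T : Reg ℕ) : Reg (Fin K) := fun a b c => T a.val b.val c.val

section
variable {T : Reg ℕ} {E : ℕ → ℕ → Prop} {G : List ℕ} {K : ℕ}

theorem St.he_res (h : St T E G) (hK : ∀ a b, E a b → b < K) (a b : Fin K) :
    he (res K T) a b ↔ he T a.val b.val := by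
  constructor
  · rintro ⟨c, t⟩; exact ⟨_, t⟩
  · rintro ⟨c, t⟩
    exact ⟨⟨c, hK _ _ (h.tE _ _ _ (h.amb.rot _ _ _ t))⟩, t⟩

theorem St.amb_res (h : St T E G) : Amb (res K T) := by
  refine ⟨fun a b c t => h.amb.rot _ _ _ t, fun a b c t q => h.amb.ne _ _ _ t (congrArg _ q),
    fun a b c c' t t' => Fin.ext (h.amb.uniq _ _ _ _ t t'), ?_⟩
  rintro S hS hle ⟨a, b, c, s⟩
  let S' : Reg ℕ := fun x y z => ∃ a b c : Fin K, a.val = x ∧ b.val = y ∧ c.val = z ∧ S a b c
  obtain ⟨x, y, ⟨z, a, b, c, rfl, rfl, rfl, s⟩, q⟩ := h.amb.nz S'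
    (by rintro _ _ _ ⟨a, b, c, rfl, rfl, rfl, s⟩; exact ⟨b, c, a, rfl, rfl, rfl, hS _ _ _ s⟩)
    (by rintro _ _ _ ⟨a, b, c, rfl, rfl, rfl, s⟩; exact hle _ _ _ s)
    ⟨_, _, _, a, b, c, rfl, rfl, rfl, s⟩
  exact ⟨a, b, ⟨c, s⟩, fun ⟨d, s'⟩ => q ⟨_, b, a, d, rfl, rfl, rfl, s'⟩⟩

theorem St.sc_res (h : St T E G) (hK : ∀ a b, E a b → b < K) : SC (res K T) := by
  classical
  intro g hn hl hadj
  have hA : Amb (res K T) := h.amb_res
  let P : ℕ → ℕ → Prop := fun x y =>
    ∃ a b : Fin K, a.val = x ∧ b.val = y ∧ (Nx g a b ∨ Nx g b a)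
  have hP : ∀ a b : Fin K, P a.val b.val ↔ (Nx g a b ∨ Nx g b a) := fun a b => by
    constructor
    · rintro ⟨a', b', e1, e2, q⟩
      rwa [Fin.ext e1, Fin.ext e2] at q
    · exact fun q => ⟨a, b, rfl, rfl, q⟩
  have aE : ∀ a b : Fin K, adj (res K T) a b → E a.val b.val := by
    rintro a b (⟨c, t⟩ | ⟨c, t⟩)
    · exact h.tE _ _ _ t
    · exact h.symm _ _ (h.tE _ _ _ t)
  obtain ⟨χ, x1, x2, x3⟩ := h.sc K hK (fun x y => if P x y then 1 else 0)
    (fun x y => by
      have : P x y ↔ P y x := by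
        constructor <;> rintro ⟨a, b, e1, e2, q⟩ <;> exact ⟨b, a, e2, e1, q.symm⟩
      simp only [this])
    (fun x y e => by
      rw [if_neg]
      rintro ⟨a, b, rfl, rfl, q | q⟩
      · exact e (aE _ _ (hadj _ _ q))
      · exact e (h.symm _ _ (aE _ _ (hadj _ _ q))))
    (fun x => by
      by_cases hx : ∃ a ∈ g, a.val = x
      · obtain ⟨a, ha, rfl⟩ := hx
        obtain ⟨s, hs⟩ := nx_succ ha
        obtain ⟨r, hr⟩ := nx_pred ha
        have hsr : s ≠ r := fun q => hs.asymm hn hl (q ▸ hr)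
        have : ∀ y ∈ Finset.range K, (if P a.val y then (1 : ZMod 2) else 0) =
            (if s.val = y then 1 else 0) + (if r.val = y then 1 else 0) := fun y hy => by
          obtain ⟨b, rfl⟩ : ∃ b : Fin K, b.val = y := ⟨⟨y, Finset.mem_range.1 hy⟩, rfl⟩
          simp only [hP, Fin.val_inj]
          by_cases q1 : s = b
          · subst q1
            simp [hs, hsr.symm]
          by_cases q2 : r = b
          · subst q2
            simp [hr, hsr]
          rw [if_neg, if_neg q1, if_neg q2, add_zero]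
          rintro (q | q)
          · exact q1 (hs.succ_uniq hn q)
          · exact q2 (hr.pred_uniq hn q)
        rw [Finset.sum_congr rfl this, Finset.sum_add_distrib, Finset.sum_ite_eq,
          Finset.sum_ite_eq]
        simp only [Finset.mem_range, Fin.is_lt, if_true]
        decide
      · refine Finset.sum_eq_zero fun y _ => ?_
        rw [if_neg]
        rintro ⟨a, b, rfl, rfl, q | q⟩
        · exact hx ⟨a, q.mem_left, rfl⟩
        · exact hx ⟨a, q.mem_right, rfl⟩)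
  let S : Reg (Fin K) := fun a b c => res K T a b c ∧ χ a.val b.val = 1
  have hS : Rot S := fun a b c s => ⟨hA.rot _ _ _ s.1, by rw [← x2 _ _ _ s.1]; exact s.2⟩
  have hle : Le S (res K T) := fun a b c s => s.1
  have hh : ∀ a b : Fin K, he S a b ↔ χ a.val b.val = 1 := fun a b => by
    constructor
    · rintro ⟨c, s⟩; exact s.2
    · intro q
      by_cases r : he T a.val b.val
      · obtain ⟨c, t⟩ := (h.he_res hK a b).2 r
        exact ⟨c, t, q⟩
      · rw [x1 _ _ r] at q; exact absurd q (by decide)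
  have z1 : ∀ s t : ZMod 2, s = 1 → ¬ t = 1 → s + t ≠ 0 := by decide
  have z2 : ∀ s t : ZMod 2, 1 = s + t → (s = 1 ∧ ¬ t = 1) ∨ (t = 1 ∧ ¬ s = 1) := by decide
  have b1 : ∀ a b, bd S a b → Nx g a b ∨ Nx g b a := fun a b q => by
    have q1 := (hh _ _).1 q.1
    have q2 := fun r => q.2 ((hh _ _).2 r)
    have := x3 a.val b.val
    rw [← hP]
    by_contra r
    simp only [if_neg r] at this
    exact z1 _ _ q1 q2 this.symm
  have b2 : ∀ a b, Nx g a b → bd S a b ∨ bd S b a := fun a b q => by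
    have := x3 a.val b.val
    simp only [if_pos ((hP a b).2 (Or.inl q))] at this
    simpa only [bd, hh] using z2 _ _ this
  refine ⟨S, hS, hle, ?_⟩
  by_cases c : ∃ a b, Nx g a b ∧ bd S a b
  · obtain ⟨a₀, b₀, c1, c2⟩ := c
    have := nx_all (P := fun v => ∃ w, Nx g v w ∧ bd S v w) c1.mem_left ⟨_, c1, c2⟩ (by
      rintro a b hab ⟨w, hw, hw'⟩
      obtain rfl := hw.succ_uniq hn hab
      obtain ⟨c, hc⟩ := bd_next hA hS hle hw'
      rcases b1 _ _ hc with q | q
      · exact ⟨c, q, hc⟩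
      · obtain rfl := q.pred_uniq hn hab
        exact absurd hc.1 hw'.2)
    have f : ∀ a b, Nx g a b → bd S a b := fun a b q => by
      obtain ⟨w, hw, hw'⟩ := this a q.mem_left
      rwa [← hw.succ_uniq hn q]
    refine Or.inl fun a b => ⟨fun q => ?_, f a b⟩
    rcases b1 _ _ q with r | r
    · exact r
    · exact absurd (f _ _ r).1 q.2
  · push Not at c
    refine Or.inr fun a b => ⟨fun q => ?_, fun q => (b2 _ _ q).resolve_left (c _ _ q)⟩
    exact (b1 _ _ q).resolve_left (fun r => c _ _ r q)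

theorem St.final {a b c : Fin K} (h : St T E [a.val, b.val, c.val, a.val])
    (hK : ∀ a b, E a b → b < K) (hab : a ≠ b) (hbc : b ≠ c) (hca : c ≠ a) :
    Cell (res K T) [a, b, c] ∧ ∀ x y : Fin K, E x.val y.val → adj (res K T) x y := by
  have e : ∀ x y : Fin K, Cons [a.val, b.val, c.val, a.val] x.val y.val ↔ Nx [a, b, c] x y :=
    fun x y => by simp [nx_three, Fin.val_inj]
  have hn : [a, b, c].Nodup := by simp [hab, hbc, hca.symm]
  refine ⟨⟨h.amb_res.rot, hn, by simp, fun x y => ?_, h.sc_res hK⟩, fun x y q => ?_⟩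
  · simp only [bd, h.he_res hK, ← e]
    constructor
    · rintro ⟨⟨z, t⟩, q⟩
      by_contra r
      exact q ((h.free _ _ (h.symm _ _ (h.tE _ _ _ t))).2 r)
    · intro q
      have e1 := h.pE _ _ q
      refine ⟨(h.free _ _ e1).2 fun r => ?_, fun r => (h.free _ _ (h.symm _ _ e1)).1 r q⟩
      exact ((e _ _).1 q).asymm hn (by simp) ((e _ _).1 r)
  · simp only [adj, h.he_res hK]
    rw [h.free _ _ q, h.free _ _ (h.symm _ _ q), e, e]
    by_contra r
    push Not at r
    exact r.1.asymm hn (by simp) r.2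

end

end Pool.Agent.MP_d347ac_co

end

section

set_option autoImplicit false

namespace Pool.Agent.MP_d347ac_co

/-- Shape of the frontier: gaps of auxiliary vertices separated by the entries of `A`. -/
inductive Sh : List ℕ → List ℕ → List ℕ → Prop
  | gap (G : List ℕ) : 2 ≤ G.length → Sh G [] G
  | cons (G : List ℕ) (e : ℕ) (F A S : List ℕ) :
      2 ≤ G.length → Sh F A S → Sh (G ++ e :: F) (e :: A) (G ++ S)

theorem Sh.perm {F A S : List ℕ} (h : Sh F A S) : F.Perm (S ++ A) := by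
  induction h with
  | gap G _ => simp
  | cons G e F A S _ _ ih =>
    rw [List.append_assoc]
    exact List.Perm.append_left _ ((List.Perm.cons _ ih).trans List.perm_middle.symm)

theorem Sh.ends {F A S : List ℕ} (h : Sh F A S) :
    ∃ g M z N, F = g :: (M ++ [z]) ∧ S = g :: (N ++ [z]) := by
  induction h with
  | gap G hG =>
    cases G with
    | nil => simp at hG
    | cons g G =>
      rcases List.eq_nil_or_concat G with rfl | ⟨M, z, rfl⟩
      · simp at hG
      · exact ⟨g, M, z, M, by simp, by simp⟩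
  | cons G e F A S hG _ ih =>
    obtain ⟨g, M, z, N, rfl, rfl⟩ := ih
    cases G with
    | nil => simp at hG
    | cons x G => exact ⟨x, G ++ e :: g :: M, z, G ++ g :: N, by simp, by simp⟩

theorem Sh.glue {F A S F' A' S' : List ℕ} (h : Sh F A S) (e : ℕ) (h' : Sh F' A' S') :
    Sh (F ++ e :: F') (A ++ e :: A') (S ++ S') := by
  induction h with
  | gap G hG => exact Sh.cons G e _ _ _ hG h'
  | cons G x F A S hG _ ih => simpa using Sh.cons G x _ _ _ hG ih

theorem Sh.inv_cons {F A S : List ℕ} {e : ℕ} (h : Sh F (e :: A) S) :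
    ∃ G F' S', F = G ++ e :: F' ∧ S = G ++ S' ∧ 2 ≤ G.length ∧ Sh F' A S' := by
  cases h with
  | cons G _ F' _ S' hG h' => exact ⟨G, F', S', rfl, rfl, hG, h'⟩

theorem Sh.left (L : List ℕ) : ∀ {F A S : List ℕ}, Sh F (L ++ A) S →
    ∃ P F₁ S₀ S₁, F = P ++ F₁ ∧ S = S₀ ++ S₁ ∧ Sh F₁ A S₁ ∧
      ∀ F' A' S', Sh F' A' S' → Sh (P ++ F') (L ++ A') (S₀ ++ S') := by
  induction L with
  | nil => exact fun h => ⟨[], _, [], _, rfl, rfl, h, fun _ _ _ h' => h'⟩
  | cons e L ih =>
    intro F A S h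
    obtain ⟨G, F', S', rfl, rfl, hG, h'⟩ := Sh.inv_cons h
    obtain ⟨P, F₁, S₀, S₁, rfl, rfl, h1, h2⟩ := ih h'
    refine ⟨G ++ e :: P, F₁, G ++ S₀, S₁, by simp, by simp, h1, fun F' A' S' q => ?_⟩
    simpa using Sh.cons G e _ _ _ hG (h2 _ _ _ q)

theorem Sh.right (R : List ℕ) (A : List ℕ) : ∀ {F S : List ℕ}, Sh F (A ++ R) S →
    ∃ F₁ Q S₁ S₂, F = F₁ ++ Q ∧ S = S₁ ++ S₂ ∧ Sh F₁ A S₁ ∧
      ∀ F' A' S', Sh F' A' S' → Sh (F' ++ Q) (A' ++ R) (S' ++ S₂) := by
  induction A with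
  | nil =>
    intro F S h
    cases R with
    | nil => exact ⟨F, [], S, [], by simp, by simp, h, fun _ _ _ q => by simpa using q⟩
    | cons e R =>
      obtain ⟨G, F', S', rfl, rfl, hG, h'⟩ := Sh.inv_cons h
      exact ⟨G, e :: F', G, S', rfl, rfl, Sh.gap G hG, fun _ _ _ q => q.glue e h'⟩
  | cons e A ih =>
    intro F S h
    obtain ⟨G, F', S', rfl, rfl, hG, h'⟩ := Sh.inv_cons h
    obtain ⟨F₁, Q, S₁, S₂, rfl, rfl, h1, h2⟩ := ih h'
    exact ⟨G ++ e :: F₁, Q, G ++ S₁, S₂, by simp, by simp, Sh.cons G e _ _ _ hG h1, h2⟩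

def used (E : ℕ → ℕ → Prop) (x : ℕ) : Prop := ∃ y, E x y

/-- `E'` extends `E` using only the new auxiliary vertices, among them those of `N`. -/
structure Ext (n : ℕ) (E E' : ℕ → ℕ → Prop) (N : List ℕ) : Prop where
  mono : ∀ x y, E x y → E' x y
  real : ∀ x, x < n → used E' x → used E x
  nd : N.Nodup
  new : ∀ s ∈ N, n ≤ s ∧ ¬ used E s ∧ used E' s

theorem Ext.used {n : ℕ} {E E' : ℕ → ℕ → Prop} {N : List ℕ} (h : Ext n E E' N) {x : ℕ}
    (q : used E x) : used E' x := let ⟨y, hy⟩ := q; ⟨y, h.mono _ _ hy⟩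

theorem Ext.refl (n : ℕ) (E : ℕ → ℕ → Prop) : Ext n E E [] :=
  ⟨fun _ _ q => q, fun _ _ q => q, by simp, by simp⟩

theorem Ext.trans {n : ℕ} {E E' E'' : ℕ → ℕ → Prop} {N N' N'' : List ℕ} (h : Ext n E E' N)
    (h' : Ext n E' E'' N') (hp : N''.Perm (N ++ N')) : Ext n E E'' N'' := by
  refine ⟨fun x y q => h'.mono _ _ (h.mono _ _ q), fun x hx q => h.real x hx (h'.real x hx q),
    hp.nodup_iff.2 (List.nodup_append.2 ⟨h.nd, h'.nd, ?_⟩), fun s hs => ?_⟩
  · rintro a ha b hb rfl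
    exact (h'.new a hb).2.1 (h.new a ha).2.2
  · rcases List.mem_append.1 (hp.mem_iff.1 hs) with q | q
    · exact ⟨(h.new s q).1, (h.new s q).2.1, h'.used (h.new s q).2.2⟩
    · exact ⟨(h'.new s q).1, fun r => (h'.new s q).2.1 (h.used r), (h'.new s q).2.2⟩

theorem St.fresh {T : Reg ℕ} {E : ℕ → ℕ → Prop} {G : List ℕ} (h : St T E G) (n : ℕ) :
    ∃ w, n ≤ w ∧ ∀ x, ¬ E w x := by
  obtain ⟨K, hK⟩ := h.fin
  exact ⟨K + n, by omega, fun x e => by have := hK _ _ (h.symm _ _ e); omega⟩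

theorem St.scone (n : ℕ) {T : Reg ℕ} {E : ℕ → ℕ → Prop} {L M R : List ℕ} {g z : ℕ}
    (h : St T E (L ++ g :: (M ++ z :: R))) (hn : (g :: (M ++ [z])).Nodup) :
    ∃ w T' E', St T' E' (L ++ g :: w :: z :: R) ∧ Ext n E E' [w] := by
  obtain ⟨w, hw, hw'⟩ := h.fresh n
  obtain ⟨us, T', E', h', e⟩ := h.cone hn hw'
  refine ⟨w, T', E', h', fun x y q => (e _ _).2 (Or.inl q), ?_, by simp, ?_⟩
  · rintro x hx ⟨y, q⟩
    rcases (e _ _).1 q with q | q | q
    · exact ⟨y, q⟩
    · omega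
    · exact us x q.2
  · intro s hs
    obtain rfl := List.mem_singleton.1 hs
    exact ⟨hw, fun ⟨y, q⟩ => hw' y q, g, (e _ _).2 (Or.inr (Or.inl ⟨rfl, by simp⟩))⟩

theorem St.spend (n : ℕ) {T : Reg ℕ} {E : ℕ → ℕ → Prop} {L R : List ℕ} {a : ℕ}
    (h : St T E (L ++ a :: R)) (ha : used E a) :
    ∃ w E', St T E' (L ++ a :: w :: a :: R) ∧ Ext n E E' [w] := by
  obtain ⟨w, hw, hw'⟩ := h.fresh n
  have hwa : w ≠ a := by
    rintro rfl
    obtain ⟨y, q⟩ := ha
    exact hw' y q
  refine ⟨w, _, h.pend hw' hwa, fun x y q => Or.inl q, ?_, by simp, ?_⟩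
  · rintro x hx ⟨y, q | q | q⟩
    · exact ⟨y, q⟩
    · exact q.1 ▸ ha
    · omega
  · intro s hs
    obtain rfl := List.mem_singleton.1 hs
    exact ⟨hw, fun ⟨y, q⟩ => hw' y q, a, Or.inr (Or.inr ⟨rfl, rfl⟩)⟩

theorem St.fan (n : ℕ) {R : List ℕ} {v : ℕ} (k : ℕ) :
    ∀ {T : Reg ℕ} {E : ℕ → ℕ → Prop} {L : List ℕ}, St T E (L ++ v :: R) → used E v →
    ∃ T' E' X N, St T' E' (L ++ (X ++ R)) ∧ Ext n E E' N ∧
      ∀ G F A S, 2 ≤ G.length → Sh F A S →
        Sh (G ++ (X ++ F)) (List.replicate (k + 1) v ++ A) (G ++ (N ++ S)) := by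
  induction k with
  | zero =>
    intro T E L h _
    exact ⟨T, E, [v], [], h, Ext.refl n E, fun G F A S hG q => Sh.cons G v F A S hG q⟩
  | succ k ih =>
    intro T E L h hv
    obtain ⟨c, E₁, h1, x1⟩ := h.spend n hv
    have hc : v ≠ c := fun q => (x1.new c (by simp)).2.1 (q ▸ hv)
    obtain ⟨b, T₂, E₂, h2, x2⟩ := St.scone n (M := []) h1 (by simp [hc])
    obtain ⟨T₃, E₃, X, N, h3, x3, s3⟩ := ih (L := L ++ [v, b, c]) (by simpa using h2)
      (x2.used (x1.used hv))
    refine ⟨T₃, E₃, v :: b :: c :: X, b :: c :: N, by simpa using h3,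
      (x1.trans x2 (N'' := [b, c]) (List.Perm.swap _ _ _)).trans x3 (List.Perm.refl _),
      fun G F A S hG q => ?_⟩
    exact Sh.cons G v _ _ _ hG (s3 [b, c] F A S (by simp) q)

theorem St.open (n : ℕ) {T : Reg ℕ} {E : ℕ → ℕ → Prop} {L R : List ℕ} {g v z : ℕ} (k : ℕ)
    (h : St T E (L ++ g :: v :: z :: R)) (hn : [g, v, z].Nodup) (hv : used E v) :
    ∃ T' E' X N, St T' E' (L ++ g :: (X ++ z :: R)) ∧ Ext n E E' N ∧
      Sh (g :: (X ++ [z])) (List.replicate k v) (g :: (N ++ [z])) := by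
  cases k with
  | zero =>
    obtain ⟨c, T₁, E₁, h1, x1⟩ := St.scone n (M := [v]) h hn
    exact ⟨T₁, E₁, [c], [c], h1, x1, Sh.gap _ (by simp)⟩
  | succ k =>
    simp only [List.nodup_cons, List.mem_cons, not_or] at hn
    obtain ⟨a, T₁, E₁, h1, x1⟩ := St.scone n (M := []) h (by simp [hn.1.1])
    obtain ⟨b, T₂, E₂, h2, x2⟩ := St.scone n (L := L ++ [g, a]) (g := v) (M := []) (z := z)
      (R := R) (by simpa using h1) (by simp [hn.2.1.1])
    obtain ⟨T₃, E₃, X, N, h3, x3, s3⟩ := St.fan n k h2 (x2.used (x1.used hv))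
    refine ⟨T₃, E₃, a :: (X ++ [b]), a :: (N ++ [b]), by simpa using h3,
      (x1.trans x2 (List.Perm.refl _)).trans x3 ?_, ?_⟩
    · exact List.Perm.cons _ (List.perm_append_comm)
    · simpa using s3 [g, a] [b, z] [] [b, z] (by simp) (Sh.gap _ (by simp))

/-- Combinatorial record of a left-to-right sweep: the processed set and the list of the
sources of the edges meeting the sweep line. -/
inductive Sweep {n : ℕ} (G : SimpleGraph (Fin n)) : Finset (Fin n) → List (Fin n) → Prop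
  | nil : Sweep G ∅ []
  | step (D : Finset (Fin n)) (L I R : List (Fin n)) (v : Fin n) (k : ℕ) :
      Sweep G D (L ++ (I ++ R)) → v ∉ D → I.Nodup → (∀ u ∈ D, G.Adj u v → u ∈ I) →
      Sweep G (insert v D) (L ++ (List.replicate k v ++ R))

theorem Sweep.st {n : ℕ} {G : SimpleGraph (Fin n)} {D : Finset (Fin n)} {A : List (Fin n)}
    (h : Sweep G D A) : ∃ T E F S, St T E (F ++ [n]) ∧ F.head? = some n ∧
      Sh F (A.map Fin.val) S ∧ S.Nodup ∧ (∀ s ∈ S, n ≤ s ∧ used E s) ∧
      (∀ v : Fin n, used E v.val ↔ v ∈ D) ∧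
      ∀ u ∈ D, ∀ v ∈ D, G.Adj u v → E u.val v.val := by
  induction h with
  | nil =>
    refine ⟨_, _, [n, n + 1], [n, n + 1], St.init n (n + 1) (by omega), rfl, Sh.gap _ (by simp),
      by simp, ?_, ?_, by simp⟩
    · intro s hs
      simp only [List.mem_cons, List.not_mem_nil, or_false] at hs
      rcases hs with rfl | rfl
      · exact ⟨le_rfl, _, Or.inr (Or.inl ⟨rfl, rfl⟩)⟩
      · exact ⟨by omega, _, Or.inr (Or.inr ⟨rfl, rfl⟩)⟩
    · intro v
      have := v.isLt
      simp only [used, addE, false_or, Finset.notMem_empty, iff_false, not_exists]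
      omega
  | step D L I R v k _ hv hI hadj ih =>
    obtain ⟨T, E, F, S, h, hd, sh, nd, hS, hu, hE⟩ := ih
    simp only [List.map_append] at sh
    obtain ⟨P, F₁, S₀, S₁, rfl, rfl, sh1, k1⟩ := Sh.left _ sh
    obtain ⟨F₂, Q, S₂, S₃, rfl, rfl, sh2, k2⟩ := Sh.right _ _ sh1
    have pm := sh2.perm
    obtain ⟨g, M, z, N, rfl, rfl⟩ := sh2.ends
    have hn : (g :: (M ++ [z])).Nodup := by
      rw [pm.nodup_iff, List.nodup_append]
      refine ⟨(List.nodup_append.1 (List.nodup_append.1 nd).2.1).1,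
        hI.map Fin.val_injective, ?_⟩
      rintro a ha b hb rfl
      obtain ⟨u, _, rfl⟩ := List.mem_map.1 hb
      have := (hS _ (List.mem_append_right _ (List.mem_append_left _ ha))).1
      have := u.isLt
      omega
    have hw : ∀ x, ¬ E v.val x := fun x e => hv ((hu v).1 ⟨x, e⟩)
    obtain ⟨us, T₁, E₁, h1, e1⟩ := St.cone (L := P) (M := M) (R := Q ++ [n]) (g := g) (z := z)
      (by simpa using h) hn hw
    have hg := (hS g (by simp)).1
    have hz := (hS z (by simp)).1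
    have hvn := v.isLt
    have hgz : g ≠ z := by
      rintro rfl
      simp at hn
    have uv : used E₁ v.val := ⟨g, (e1 _ _).2 (Or.inr (Or.inl ⟨rfl, by simp⟩))⟩
    obtain ⟨T₂, E₂, X, N', h2, x2, s2⟩ := St.open n k h1 (by simp [hgz]; omega) uv
    have m1 : ∀ x, used E x → used E₁ x := fun x ⟨y, q⟩ => ⟨y, (e1 _ _).2 (Or.inl q)⟩
    refine ⟨T₂, E₂, P ++ ((g :: (X ++ [z])) ++ Q), S₀ ++ ((g :: (N' ++ [z])) ++ S₃),
      by simpa using h2, ?_, ?_, ?_, ?_, ?_, ?_⟩
    · cases P <;> simpa using hd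
    · simpa using k1 _ _ _ (k2 _ _ _ s2)
    · have p1 : (S₀ ++ ((g :: (N' ++ [z])) ++ S₃)).Perm (N' ++ (S₀ ++ g :: z :: S₃)) := by
        rw [List.perm_iff_count]; intro a; simp [List.count_cons]; omega
      have p2 : (S₀ ++ g :: z :: S₃).Sublist (S₀ ++ ((g :: (N ++ [z])) ++ S₃)) := by simp
      rw [p1.nodup_iff, List.nodup_append]
      refine ⟨x2.nd, nd.sublist p2, ?_⟩
      rintro a ha b hb rfl
      exact (x2.new a ha).2.1 (m1 _ (hS a (p2.subset hb)).2)
    · intro s hs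
      by_cases q : s ∈ N'
      · exact ⟨(x2.new s q).1, (x2.new s q).2.2⟩
      · have := hS s (by simp at hs ⊢; tauto)
        exact ⟨this.1, x2.used (m1 _ this.2)⟩
    · intro u
      rw [Finset.mem_insert]
      constructor
      · intro q
        obtain ⟨y, q⟩ := x2.real _ u.isLt q
        rcases (e1 _ _).1 q with q | q | q
        · exact Or.inr ((hu u).1 ⟨y, q⟩)
        · exact Or.inl (Fin.ext q.1)
        · exact Or.inr ((hu u).1 (us _ q.2))
      · rintro (rfl | q)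
        · exact x2.used uv
        · exact x2.used (m1 _ ((hu u).2 q))
    · have key : ∀ u ∈ D, G.Adj u v → E₂ u.val v.val := fun u hu' a =>
        x2.mono _ _ ((e1 _ _).2 (Or.inr (Or.inr ⟨rfl, pm.mem_iff.2
          (List.mem_append_right _ (List.mem_map_of_mem (hadj u hu' a)))⟩)))
      intro u hu' w hw' a
      rcases Finset.mem_insert.1 hu' with q | q <;> rcases Finset.mem_insert.1 hw' with r | r
      · rw [q, r] at a; exact absurd a G.irrefl
      · subst q; exact h2.symm _ _ (key w r a.symm)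
      · subst r; exact key u q a
      · exact x2.mono _ _ ((e1 _ _).2 (Or.inl (hE u q w r a)))

theorem Sweep.cell {n : ℕ} {G : SimpleGraph (Fin n)} (h : Sweep G Finset.univ []) :
    ∃ (N : ℕ) (T : Reg (Fin N)) (a b c : Fin N) (φ : Fin n → Fin N),
      Amb T ∧ Cell T [a, b, c] ∧ Function.Injective φ ∧
      (∀ v, φ v ∉ [a, b, c] ∧ vx T (φ v)) ∧ ∀ u v, G.Adj u v → adj T (φ u) (φ v) := by
  obtain ⟨T, E, F, S, h, hd, sh, nd, hS, hu, hE⟩ := h.st
  have pm := sh.perm
  obtain ⟨g, M, z, N, rfl, rfl⟩ := sh.ends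
  obtain rfl : n = g := by simpa [eq_comm] using hd
  have hn : (n :: (M ++ [z])).Nodup := pm.nodup_iff.2 (by simpa using nd)
  obtain ⟨c, T₁, E₁, h1, x1⟩ := St.scone n (L := []) (M := M) (R := [n]) (g := n) (z := z)
    (by simpa using h) hn
  obtain ⟨K, hK⟩ := h1.fin
  have uK : ∀ x, used E₁ x → x < K := fun x ⟨y, q⟩ => hK _ _ (h1.symm _ _ q)
  have un := hS n (by simp)
  have uz := hS z (by simp)
  have uc := x1.new c (by simp)
  have uv : ∀ v : Fin n, used E₁ v.val := fun v => x1.used ((hu v).2 (Finset.mem_univ v))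
  have fin := St.final (a := ⟨n, uK _ (x1.used un.2)⟩) (b := ⟨c, uK _ uc.2.2⟩)
    (c := ⟨z, uK _ (x1.used uz.2)⟩) h1 hK
    (by intro q; exact uc.2.1 ((Fin.mk.inj q) ▸ un.2))
    (by intro q; exact uc.2.1 ((Fin.mk.inj q) ▸ uz.2))
    (by intro q; have := Fin.mk.inj q; subst this; simp at hn)
  refine ⟨K, res K T₁, _, _, _, fun v => ⟨v.val, uK _ (uv v)⟩, h1.amb_res, fin.1,
    fun u v q => Fin.ext (Fin.mk.inj q), fun v => ⟨?_, ?_⟩, fun u v a => fin.2 _ _ ?_⟩
  · have := v.isLt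
    have := uz.1
    have := uc.1
    simp only [List.mem_cons, Fin.mk.injEq, List.not_mem_nil, or_false]
    omega
  · obtain ⟨y, q⟩ := uv v
    exact (fin.2 ⟨v.val, uK _ (uv v)⟩ ⟨y, hK _ _ q⟩ q).vx_left fin.1.rot
  · exact x1.mono _ _ (hE u (Finset.mem_univ _) v (Finset.mem_univ _) a)

end Pool.Agent.MP_d347ac_co

end

section

set_option autoImplicit false

namespace Pool.Agent.MP_d347ac_co

section
variable {n : ℕ} (p : Fin n → ℝ × ℝ)

/-- slope of a directed edge -/
noncomputable def slp (e : Fin n × Fin n) : ℝ :=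
  ((p e.2).2 - (p e.1).2) / ((p e.2).1 - (p e.1).1)

/-- height of the line through a directed edge at abscissa `s` -/
noncomputable def ht (e : Fin n × Fin n) (s : ℝ) : ℝ := (p e.1).2 + (s - (p e.1).1) * slp p e

def Below (e f : Fin n × Fin n) : Prop :=
  ∀ s, (p e.1).1 < s → (p f.1).1 < s → s < (p e.2).1 → s < (p f.2).1 → ht p e s < ht p f s

theorem ht_left (e : Fin n × Fin n) : ht p e (p e.1).1 = (p e.1).2 := by simp [ht]

theorem ht_right {e : Fin n × Fin n} (h : (p e.1).1 < (p e.2).1) :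
    ht p e (p e.2).1 = (p e.2).2 := by
  have : (p e.2).1 - (p e.1).1 ≠ 0 := by linarith [sub_pos.2 h] |> fun (q : 0 < _) => q.ne'
  simp only [ht, slp]; field_simp; ring

theorem ht_seg {e : Fin n × Fin n} {s : ℝ} (h : (p e.1).1 < (p e.2).1) (h1 : (p e.1).1 ≤ s)
    (h2 : s ≤ (p e.2).1) : (s, ht p e s) ∈ segment ℝ (p e.1) (p e.2) := by
  have hd : 0 < (p e.2).1 - (p e.1).1 := sub_pos.2 h
  refine ⟨((p e.2).1 - s) / ((p e.2).1 - (p e.1).1), (s - (p e.1).1) / ((p e.2).1 - (p e.1).1),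
    div_nonneg (by linarith) hd.le, div_nonneg (by linarith) hd.le, by field_simp; ring, ?_⟩
  ext
  · simp only [Prod.fst_add, Prod.smul_fst, smul_eq_mul]; field_simp; ring
  · simp only [Prod.snd_add, Prod.smul_snd, smul_eq_mul, ht, slp]; field_simp; ring

theorem ht_ivt (e f : Fin n × Fin n) {a b : ℝ} (ha : ht p e a < ht p f a)
    (hb : ht p f b < ht p e b) :
    ∃ t, 0 < t ∧ t < 1 ∧ ht p e (a + t * (b - a)) = ht p f (a + t * (b - a)) := by
  have hd : 0 < (ht p f a - ht p e a) + (ht p e b - ht p f b) := by linarith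
  refine ⟨(ht p f a - ht p e a) / ((ht p f a - ht p e a) + (ht p e b - ht p f b)),
    div_pos (by linarith) hd, (div_lt_one hd).2 (by linarith), ?_⟩
  have e1 : ∀ (e : Fin n × Fin n) (t : ℝ),
      ht p e (a + t * (b - a)) = ht p e a + t * (ht p e b - ht p e a) := fun e t => by
    simp only [ht]; ring
  rw [e1, e1]
  field_simp
  ring

variable {p} {G : SimpleGraph (Fin n)}

theorem nocross (h : Plane G p) {e f : Fin n × Fin n} (he : G.Adj e.1 e.2) (hf : G.Adj f.1 f.2)
    (hne : s(e.1, e.2) ≠ s(f.1, f.2)) {s : ℝ} (h1 : (p e.1).1 < s) (h2 : (p f.1).1 < s)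
    (h3 : s < (p e.2).1) (h4 : s < (p f.2).1) : ht p e s ≠ ht p f s := by
  intro q
  obtain ⟨w, hw, _, hz⟩ := h.2.2 _ _ _ _ he hf hne _ (ht_seg p (h1.trans h3) h1.le h3.le)
    (q ▸ ht_seg p (h2.trans h4) h2.le h4.le)
  have := congrArg Prod.fst hz
  rcases hw with rfl | rfl <;> simp only at this <;> linarith

theorem below_of (h : Plane G p) {e f : Fin n × Fin n} (he : G.Adj e.1 e.2) (hf : G.Adj f.1 f.2)
    (hne : s(e.1, e.2) ≠ s(f.1, f.2)) {a : ℝ} (h1 : (p e.1).1 ≤ a) (h2 : (p f.1).1 ≤ a)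
    (h3 : a ≤ (p e.2).1) (h4 : a ≤ (p f.2).1) (ha : ht p e a < ht p f a) : Below p e f := by
  intro s k1 k2 k3 k4
  by_contra q
  have q' : ht p f s < ht p e s :=
    lt_of_le_of_ne (not_lt.1 q) (nocross h he hf hne k1 k2 k3 k4).symm
  obtain ⟨t, t0, t1, ht'⟩ := ht_ivt p e f ha q'
  refine nocross h he hf hne ?_ ?_ ?_ ?_ ht' <;> nlinarith

theorem Below.le {e f : Fin n × Fin n} (h : Below p e f) {a : ℝ} (h1 : (p e.1).1 < a)
    (h2 : (p f.1).1 < a) (h3 : a ≤ (p e.2).1) (h4 : a ≤ (p f.2).1) : ht p e a ≤ ht p f a := by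
  by_contra q
  obtain ⟨s, s1, s2⟩ := exists_between (max_lt h1 h2)
  obtain ⟨s3, s4⟩ := max_lt_iff.1 s1
  obtain ⟨t, t0, t1, ht'⟩ := ht_ivt p e f (h s s3 s4 (by linarith) (by linarith)) (not_le.1 q)
  refine (h _ ?_ ?_ ?_ ?_).ne ht' <;> nlinarith

end

theorem three_split {α : Type} (g : α → ℝ) (y : ℝ) (A : List α)
    (h : A.Pairwise (fun e f => g e ≤ g f)) :
    ∃ L I R, A = L ++ (I ++ R) ∧ (∀ e ∈ L, g e < y) ∧ (∀ e ∈ I, g e = y) ∧ ∀ e ∈ R, y < g e := by
  induction A with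
  | nil => exact ⟨[], [], [], rfl, by simp, by simp, by simp⟩
  | cons a A ih =>
    obtain ⟨h1, h2⟩ := List.pairwise_cons.1 h
    obtain ⟨L, I, R, rfl, hL, hI, hR⟩ := ih h2
    rcases lt_trichotomy (g a) y with q | q | q
    · exact ⟨a :: L, I, R, rfl, by simpa [q] using hL, hI, hR⟩
    · obtain rfl : L = [] := List.eq_nil_iff_forall_not_mem.2 fun e he => by
        have := hL e he; have := h1 e (by simp [he]); linarith
      exact ⟨[], a :: I, R, rfl, by simp, by simpa [q] using hI, hR⟩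
    · refine ⟨[], [], a :: (L ++ (I ++ R)), rfl, by simp, by simp, fun e he => ?_⟩
      rcases List.mem_cons.1 he with rfl | he
      · exact q
      · exact q.trans_le (h1 e he)

theorem exists_sorted {α : Type} (O : Finset α) (m : α → ℝ)
    (hm : ∀ a ∈ O, ∀ b ∈ O, m a = m b → a = b) :
    ∃ l : List α, (∀ e, e ∈ l ↔ e ∈ O) ∧ l.Pairwise (fun a b => m a < m b) := by
  classical
  have pm := List.mergeSort_perm O.toList (fun a b => decide (m a ≤ m b))
  have mem : ∀ e, e ∈ O.toList.mergeSort (fun a b => decide (m a ≤ m b)) ↔ e ∈ O := fun e => by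
    rw [pm.mem_iff, Finset.mem_toList]
  refine ⟨_, mem, ?_⟩
  have s := List.pairwise_mergeSort (le := fun a b => decide (m a ≤ m b))
    (fun a b c h1 h2 => by simp only [decide_eq_true_eq] at *; exact h1.trans h2)
    (fun a b => by simpa using le_total (m a) (m b)) O.toList
  have nd := pm.nodup_iff.2 O.nodup_toList
  refine (s.and nd).imp_of_mem fun {a b} ha hb q => ?_
  exact lt_of_le_of_ne (by simpa using q.1) fun r => q.2 (hm a ((mem _).1 ha) b ((mem _).1 hb) r)

theorem sweep_of_plane {n : ℕ} {G : SimpleGraph (Fin n)} {p : Fin n → ℝ × ℝ} (h : Plane G p)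
    (hx : Function.Injective fun v => (p v).1) (D : Finset (Fin n)) :
    (∀ u ∈ D, ∀ w, w ∉ D → (p u).1 < (p w).1) →
    ∃ A : List (Fin n × Fin n), (∀ e, e ∈ A ↔ G.Adj e.1 e.2 ∧ e.1 ∈ D ∧ e.2 ∉ D) ∧
      A.Pairwise (Below p) ∧ Sweep G D (A.map Prod.fst) := by
  classical
  induction D using Finset.induction_on_max_value (fun v => (p v).1) with
  | empty => exact fun _ => ⟨[], by simp, by simp, Sweep.nil⟩
  | insert v D hv hmax ih =>
    intro hD
    have lt1 : ∀ u ∈ D, (p u).1 < (p v).1 := fun u hu =>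
      lt_of_le_of_ne (hmax u hu) fun q => hv (hx q ▸ hu)
    have lt2 : ∀ w, w ∉ D → w ≠ v → (p v).1 < (p w).1 := fun w hw hw' =>
      hD v (by simp) w (by simp [hw, hw'])
    have le2 : ∀ w, w ∉ D → (p v).1 ≤ (p w).1 := fun w hw => by
      by_cases q : w = v
      · rw [q]
      · exact (lt2 w hw q).le
    obtain ⟨A, mA, pA, sA⟩ := ih fun u hu w hw => (lt1 u hu).trans_le (le2 w hw)
    have hg : ∀ e ∈ A, (ht p e (p v).1 = (p v).2 ↔ e.2 = v) := fun e he => by
      obtain ⟨a, e1, e2⟩ := (mA e).1 he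
      have l1 := lt1 _ e1
      have l2 := le2 _ e2
      constructor
      · intro q
        by_contra r
        have := ht_seg p (l1.trans_le l2) l1.le l2
        rw [q] at this
        exact h.2.1 _ _ v a (fun r => hv (r ▸ e1)) (Ne.symm r) this
      · intro q
        rw [← q]
        exact ht_right p (l1.trans_le l2)
    have ndA : A.Nodup := pA.imp_of_mem fun {e f} he _ q r => by
      subst r
      obtain ⟨a, e1, e2⟩ := (mA e).1 he
      obtain ⟨s, s1, s2⟩ := exists_between ((lt1 _ e1).trans_le (le2 _ e2))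
      exact lt_irrefl _ (q s s1 s1 s2 s2)
    obtain ⟨L, I, R, rfl, hL, hI, hR⟩ := three_split (fun e => ht p e (p v).1) (p v).2 A
      (pA.imp_of_mem fun {e f} he hf q => q.le (lt1 _ ((mA e).1 he).2.1)
        (lt1 _ ((mA f).1 hf).2.1) (le2 _ ((mA e).1 he).2.2) (le2 _ ((mA f).1 hf).2.2))
    obtain ⟨O, mO, pO⟩ := exists_sorted
      (Finset.univ.filter fun e : Fin n × Fin n => G.Adj e.1 e.2 ∧ e.1 = v ∧ e.2 ∉ D) (slp p) (by
        have key : ∀ e f : Fin n × Fin n, G.Adj e.1 e.2 → G.Adj f.1 f.2 → e.1 = v → f.1 = v →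
            e.2 ∉ D → slp p e = slp p f → ¬ (p e.2).1 < (p f.2).1 := by
          intro e f a b e1 f1 e2 q r
          have l1 : (p e.1).1 < (p e.2).1 := e1 ▸ lt2 _ e2 (e1 ▸ a.ne.symm)
          have l2 : (p f.1).1 < (p e.2).1 := by rw [f1, ← e1]; exact l1
          have := ht_seg p (l2.trans r) l2.le r.le
          have e3 : ht p f (p e.2).1 = (p e.2).2 := by
            rw [← ht_right p l1]; simp only [ht, e1, f1, q]
          rw [e3] at this
          exact h.2.1 _ _ e.2 b (fun k => by rw [k] at l2; exact lt_irrefl _ l2)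
            (fun k => by rw [k] at r; exact lt_irrefl _ r) this
        intro e he f hf q
        simp only [Finset.mem_filter, Finset.mem_univ, true_and] at he hf
        have k1 := key e f he.1 hf.1 he.2.1 hf.2.1 he.2.2 q
        have k2 := key f e hf.1 he.1 hf.2.1 he.2.1 hf.2.2 q.symm
        exact Prod.ext (he.2.1.trans hf.2.1.symm) (hx (le_antisymm (not_lt.1 k2) (not_lt.1 k1))))
    simp only [Finset.mem_filter, Finset.mem_univ, true_and] at mO
    have nv : ∀ e ∈ L ++ (I ++ R), e ∈ L ∨ e ∈ R → e.2 ≠ v := fun e he q r => by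
      have := (hg e he).2 r
      rcases q with q | q
      · exact (hL e q).ne this
      · exact (hR e q).ne' this
    have sne : ∀ e ∈ L ++ (I ++ R), e ∈ L ∨ e ∈ R → ∀ f ∈ O, s(e.1, e.2) ≠ s(f.1, f.2) := by
      intro e he q f hf r
      have f1 := ((mO f).1 hf).2.1
      have e1 := ((mA e).1 he).2.1
      rcases Sym2.eq_iff.1 r with r | r
      · exact hv (f1 ▸ r.1 ▸ e1)
      · exact nv e he q (r.2.trans f1)
    have hO : ∀ f ∈ O, ht p f (p v).1 = (p v).2 := fun f hf => by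
      rw [← ((mO f).1 hf).2.1]; exact ht_left p f
    refine ⟨L ++ (O ++ R), fun e => ?_, ?_, ?_⟩
    · simp only [List.mem_append, Finset.mem_insert, not_or]
      constructor
      · rintro (q | q | q)
        · have he : e ∈ L ++ (I ++ R) := by simp [q]
          exact ⟨((mA e).1 he).1, Or.inr ((mA e).1 he).2.1, nv e he (Or.inl q), ((mA e).1 he).2.2⟩
        · obtain ⟨a, e1, e2⟩ := (mO e).1 q
          exact ⟨a, Or.inl e1, e1 ▸ a.ne.symm, e2⟩
        · have he : e ∈ L ++ (I ++ R) := by simp [q]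
          exact ⟨((mA e).1 he).1, Or.inr ((mA e).1 he).2.1, nv e he (Or.inr q), ((mA e).1 he).2.2⟩
      · rintro ⟨a, e1 | e1, e2, e3⟩
        · exact Or.inr (Or.inl ((mO e).2 ⟨a, e1, e3⟩))
        · have he := (mA e).2 ⟨a, e1, e3⟩
          have := he
          simp only [List.mem_append] at this
          rcases this with q | q | q
          · exact Or.inl q
          · exact absurd ((hg e he).1 (hI e q)) e2
          · exact Or.inr (Or.inr q)
    · simp only [List.pairwise_append, List.mem_append] at pA ⊢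
      obtain ⟨p1, ⟨_, p3, _⟩, p5⟩ := pA
      refine ⟨p1, ⟨pO.imp_of_mem fun {e f} he hf q s s1 _ _ _ => ?_, p3, fun f hf e q => ?_⟩, ?_⟩
      · have e1 := ((mO e).1 he).2.1
        have f1 := ((mO f).1 hf).2.1
        simp only [ht, e1, f1] at s1 ⊢
        nlinarith
      · have he : e ∈ L ++ (I ++ R) := by simp [q]
        obtain ⟨a, e1, e2⟩ := (mA e).1 he
        obtain ⟨b, f1, f2⟩ := (mO f).1 hf
        exact below_of h b a (sne e he (Or.inr q) f hf).symm (a := (p v).1) (f1 ▸ le_rfl)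
          (lt1 _ e1).le (le2 _ f2) (le2 _ e2) (hO f hf ▸ hR e q)
      · rintro e q f (hf | hf)
        · have he : e ∈ L ++ (I ++ R) := by simp [q]
          obtain ⟨a, e1, e2⟩ := (mA e).1 he
          obtain ⟨b, f1, f2⟩ := (mO f).1 hf
          exact below_of h a b (sne e he (Or.inl q) f hf) (a := (p v).1) (lt1 _ e1).le
            (f1 ▸ le_rfl) (le2 _ e2) (le2 _ f2) (hO f hf ▸ hL e q)
        · exact p5 e q f (Or.inr hf)
    · have eO : O.map Prod.fst = List.replicate O.length v := by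
        rw [List.eq_replicate_iff]
        refine ⟨by simp, fun b hb => ?_⟩
        obtain ⟨f, hf, rfl⟩ := List.mem_map.1 hb
        exact ((mO f).1 hf).2.1
      simp only [List.map_append] at sA ⊢
      rw [eO]
      refine Sweep.step D _ _ _ v _ sA hv ?_ fun u hu a => ?_
      · refine List.Nodup.map_on (fun e he f hf q => Prod.ext q ?_)
          (List.nodup_append.1 (List.nodup_append.1 ndA).2.1).1
        rw [(hg e (by simp [he])).1 (hI e he), (hg f (by simp [hf])).1 (hI f hf)]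
      · have he := (mA (u, v)).2 ⟨a, hu, hv⟩
        have := he
        simp only [List.mem_append] at this
        rcases this with q | q | q
        · exact absurd rfl (nv _ he (Or.inl q))
        · exact List.mem_map.2 ⟨_, q, rfl⟩
        · exact absurd rfl (nv _ he (Or.inr q))

theorem plane_shear {n : ℕ} {G : SimpleGraph (Fin n)} {p : Fin n → ℝ × ℝ} (h : Plane G p) :
    ∃ q : Fin n → ℝ × ℝ, Plane G q ∧ Function.Injective fun v => (q v).1 := by
  classical
  obtain ⟨τ, hτ⟩ := Infinite.exists_notMem_finset (Finset.univ.image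
    fun e : Fin n × Fin n => ((p e.2).1 - (p e.1).1) / ((p e.1).2 - (p e.2).2))
  let f : ℝ × ℝ → ℝ × ℝ := fun z => (z.1 + τ * z.2, z.2)
  have finj : Function.Injective f := fun a b q => by
    simp only [f, Prod.mk.injEq] at q
    exact Prod.ext (by rw [q.2] at q; linarith [q.1]) q.2
  have fseg : ∀ a b z, z ∈ segment ℝ (f a) (f b) → ∃ y ∈ segment ℝ a b, f y = z := by
    rintro a b z ⟨s, t, hs, ht, hst, rfl⟩
    refine ⟨s • a + t • b, ⟨s, t, hs, ht, hst, rfl⟩, ?_⟩
    simp only [f]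
    ext <;> simp
    ring
  refine ⟨fun v => f (p v), ⟨finj.comp h.1, fun u v w a h1 h2 q => ?_, ?_⟩, fun u w q => ?_⟩
  · obtain ⟨y, hy, e⟩ := fseg _ _ _ q
    exact h.2.1 u v w a h1 h2 (finj e ▸ hy)
  · intro u v x y a b hne z z1 z2
    obtain ⟨y1, hy1, rfl⟩ := fseg _ _ _ z1
    obtain ⟨y2, hy2, e⟩ := fseg _ _ _ z2
    obtain ⟨w, w1, w2, rfl⟩ := h.2.2 u v x y a b hne y1 hy1 (finj e ▸ hy2)
    exact ⟨w, w1, w2, rfl⟩
  · simp only [f] at q
    by_cases r : (p u).2 = (p w).2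
    · exact h.1 (Prod.ext (by rw [r] at q; linarith) r)
    · exfalso
      apply hτ
      refine Finset.mem_image.2 ⟨(u, w), Finset.mem_univ _, ?_⟩
      have : (p u).2 - (p w).2 ≠ 0 := sub_ne_zero.2 r
      field_simp
      linarith

theorem partI : PartI := by
  intro n G p h
  obtain ⟨q, hq, hx⟩ := plane_shear h
  obtain ⟨A, mA, _, sA⟩ := sweep_of_plane hq hx Finset.univ (by simp)
  obtain rfl : A = [] := List.eq_nil_iff_forall_not_mem.2 fun e he => by simpa using (mA e).1 he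
  exact Sweep.cell sA

end Pool.Agent.MP_d347ac_co

end

section

set_option autoImplicit false

namespace Pool.Agent.MP_d347ac_co.H31

open List

variable {V : Type}

def QChain (d : Dat V) (ord : List V) (C : Finset V) : Prop :=
  ∀ y ∈ C, ∀ y' ∈ C, QLe d ord y y' ∨ QLe d ord y' y

theorem QLe.refl (d : Dat V) (ord : List V) (u : V) : QLe d ord u u := fun _ _ h => h

theorem QLe.trans {d : Dat V} {ord : List V} {u v w : V} (h1 : QLe d ord u v)
    (h2 : QLe d ord v w) : QLe d ord u w := fun g hg h => h2 g hg (h1 g hg h)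

theorem greedy [DecidableEq V] (d : Dat V) (ord : List V) (s : ℕ) (U : Finset V) :
    ∃ (S : Finset V) (l : ℕ) (col : V → ℕ), S ⊆ U ∧ l * (s + 1) ≤ U.card ∧
      (∀ y ∈ S, col y < l) ∧
      (∀ y ∈ S, ∀ y' ∈ S, col y = col y' → QLe d ord y y' ∨ QLe d ord y' y) ∧
      ∀ C ⊆ U \ S, QChain d ord C → C.card ≤ s := by
  induction U using Finset.strongInduction with
  | H U ih =>
    by_cases hex : ∀ C ⊆ U, QChain d ord C → C.card ≤ s
    · exact ⟨∅, 0, fun _ => 0, by simp, by simp, by simp, by simp, by simpa using hex⟩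
    · push Not at hex
      obtain ⟨C, hCU, hC, hs⟩ := hex
      have hne : C.Nonempty := Finset.card_pos.1 (by omega)
      obtain ⟨S, l, col, a1, a2, a3, a4, a5⟩ := ih (U \ C) (Finset.sdiff_ssubset hCU hne)
      refine ⟨S ∪ C, l + 1, fun y => if y ∈ C then l else col y, ?_, ?_, ?_, ?_, ?_⟩
      · exact Finset.union_subset (a1.trans Finset.sdiff_subset) hCU
      · have := Finset.card_sdiff_add_card_eq_card hCU
        rw [add_mul]; omega
      · intro y hy
        dsimp only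
        split_ifs with h
        · omega
        · have := a3 y ((Finset.mem_union.1 hy).resolve_right h); omega
      · intro y hy y' hy' e
        dsimp only at e
        split_ifs at e with h h' h'
        · exact hC y h y' h'
        · have := a3 y' ((Finset.mem_union.1 hy').resolve_right h'); omega
        · have := a3 y ((Finset.mem_union.1 hy).resolve_right h); omega
        · exact a4 y ((Finset.mem_union.1 hy).resolve_right h) y'
            ((Finset.mem_union.1 hy').resolve_right h') e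
      · intro C' hC'
        apply a5
        intro y hy
        have := hC' hy
        simp only [Finset.mem_sdiff, Finset.mem_union, not_or] at this ⊢
        tauto

theorem heights [DecidableEq V] {d : Dat V} {ord C : List V} (hB : Build d ord C) (s : ℕ)
    (A : Finset V) (hA : ∀ C ⊆ A, QChain d ord C → C.card ≤ s) :
    ∃ h : V → ℝ, Mono d ord h ∧ ∀ y ∈ A, ∃ j ≤ s, h y = (j : ℝ) := by
  classical
  obtain ⟨h0, H0, hr⟩ := hB.exists_mono
  set F : V → Finset (Finset V) := fun v =>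
    A.powerset.filter (fun C => QChain d ord C ∧ ∀ y ∈ C, QLe d ord y v) with hF
  set r : V → ℕ := fun v => (F v).sup Finset.card with hr'
  have rs : ∀ v, r v ≤ s := by
    intro v
    refine Finset.sup_le ?_
    intro C hC
    rw [Finset.mem_filter, Finset.mem_powerset] at hC
    exact hA C hC.1 hC.2.1
  have hq : ∀ u v, QLe d ord u v → h0 u ≤ h0 v := by
    intro u v huv
    refine huv (fun y => h0 u ≤ h0 y) ⟨fun w hw => ⟨fun q => q.trans (H0.2 w hw).1.le,
      fun q => q.trans (H0.2 w hw).2.le⟩, fun q => q.trans H0.1.le⟩ le_rfl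
  have step : ∀ u v, QLe d ord u v → h0 u < h0 v →
      (r u : ℝ) + (if u ∈ A then 0 else h0 u) < (r v : ℝ) + (if v ∈ A then 0 else h0 v) := by
    intro u v huv hlt
    have r1 : r u ≤ r v := by
      refine Finset.sup_mono ?_
      intro C hC
      rw [Finset.mem_filter] at hC ⊢
      exact ⟨hC.1, hC.2.1, fun y hy => (hC.2.2 y hy).trans huv⟩
    have u1 : (if u ∈ A then 0 else h0 u) ≤ h0 u := by
      split_ifs
      · exact (hr u).1.le
      · exact le_rfl
    by_cases hv : v ∈ A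
    · have r2 : r u + 1 ≤ r v := by
        have hne : (F u).Nonempty := ⟨∅, by simp [hF, QChain]⟩
        obtain ⟨C, hC, e⟩ := Finset.exists_mem_eq_sup _ hne Finset.card
        rw [Finset.mem_filter, Finset.mem_powerset] at hC
        have hvC : v ∉ C := fun hm => by have := hq _ _ (hC.2.2 v hm); linarith
        have : insert v C ∈ F v := by
          rw [Finset.mem_filter, Finset.mem_powerset]
          refine ⟨Finset.insert_subset hv hC.1, ?_, ?_⟩
          · intro y hy y' hy'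
            rcases Finset.mem_insert.1 hy with e1 | e1 <;>
              rcases Finset.mem_insert.1 hy' with e2 | e2
            · rw [e1, e2]; exact Or.inl (QLe.refl _ _ _)
            · rw [e1]; exact Or.inr ((hC.2.2 _ e2).trans huv)
            · rw [e2]; exact Or.inl ((hC.2.2 _ e1).trans huv)
            · exact hC.2.1 y e1 y' e2
          · intro y hy
            rcases Finset.mem_insert.1 hy with e1 | e1
            · rw [e1]; exact QLe.refl _ _ _
            · exact (hC.2.2 _ e1).trans huv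
        have h2 : (insert v C).card ≤ r v := Finset.le_sup (f := Finset.card) this
        rw [Finset.card_insert_of_notMem hvC] at h2
        have : r u = C.card := e
        omega
      have r3 : (r u : ℝ) + 1 ≤ r v := by exact_mod_cast r2
      rw [if_pos hv]
      have := (hr u).2
      linarith
    · rw [if_neg hv]
      have r3 : (r u : ℝ) ≤ r v := by exact_mod_cast r1
      linarith
  refine ⟨fun v => (r v : ℝ) + (if v ∈ A then 0 else h0 v), ⟨?_, fun v hv => ⟨?_, ?_⟩⟩, ?_⟩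
  · exact step _ _ (fun g hg => hg.2) H0.1
  · exact step _ _ (fun g hg => (hg.1 v hv).1) (H0.2 v hv).1
  · exact step _ _ (fun g hg => (hg.1 v hv).2) (H0.2 v hv).2
  · intro y hy
    exact ⟨r y, rs y, by simp [hy]⟩

theorem partB [Fintype V] [DecidableEq V] {d : Dat V} {ord C : List V} (hB : Build d ord C)
    (U : Finset V) (hU : ∀ y ∈ U, y ∈ ord) (s R : ℕ) :
    ∃ (h x : V → ℝ) (l k : ℕ), PlaneInv d ord C h x ∧ l * (s + 1) ≤ U.card ∧
      R * k ≤ l * (R * R) + 2 * U.card ∧ Lines h x U (k + (s + 1)) := by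
  classical
  obtain ⟨S, l, col, a1, a2, a3, a4, a5⟩ := greedy d ord s U
  obtain ⟨h, H, hA⟩ := heights hB s (U \ S) a5
  set ρ : V → ℕ := fun y => ((S.filter (fun y' => Cov d ord y' y)).image col).card with hρ
  have notin : ∀ y ∈ S, col y ∉ (S.filter (fun y' => Cov d ord y' y)).image col := by
    intro y hy hm
    obtain ⟨y', h1, h2⟩ := Finset.mem_image.1 hm
    rw [Finset.mem_filter] at h1
    have := hB.F2 h1.2
    rcases a4 y' h1.1 y hy h2 with q | q
    · exact this.1 q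
    · exact this.2 q
  have ρ1 : ∀ y ∈ S, ∀ y' ∈ S, Cov d ord y y' → ρ y < ρ y' := by
    intro y hy y' _ hc
    refine Finset.card_lt_card ⟨Finset.image_subset_image ?_, fun hsub => ?_⟩
    · intro w hw
      rw [Finset.mem_filter] at hw ⊢
      exact ⟨hw.1, hw.2.trans_below hc.below⟩
    · exact notin y hy (hsub (Finset.mem_image_of_mem _ (Finset.mem_filter.2 ⟨hy, hc⟩)))
  have ρ2 : ∀ y ∈ S, ρ y < l := by
    intro y hy
    have : (S.filter (fun y' => Cov d ord y' y)).image col ⊂ Finset.range l := by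
      refine ⟨?_, fun hsub => notin y hy (hsub (Finset.mem_range.2 (a3 y hy)))⟩
      intro j hj
      obtain ⟨y', h1, rfl⟩ := Finset.mem_image.1 hj
      exact Finset.mem_range.2 (a3 y' (Finset.mem_filter.1 h1).1)
    simpa using Finset.card_lt_card this
  obtain ⟨D, x, k, G, b1, b2⟩ := layers hB H (fun y hy => hU y (a1 hy)) R ρ ρ1 l
  obtain ⟨x', c1, c2⟩ := free_ext hB H (D' := Finset.univ) ⟨by simp, by simp, by simp⟩ _ D x rfl
    G.cl G.val
  have hSD : S ∩ D = S := Finset.inter_eq_left.2 fun y hy => b1 y hy (ρ2 y hy)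
  refine ⟨h, x', l, k, hB.plane H fun z hz => c1 z hz (Finset.mem_univ _), a2, ?_, ?_⟩
  · have := Finset.card_le_card a1
    rw [hSD] at b2; omega
  · refine G.cov.add (fun y hy => c2 y (Finset.mem_inter.1 hy).2) ?_
    rw [hSD]
    refine ⟨(Finset.range (s + 1)).image (fun j : ℕ => ((0 : ℝ), (1 : ℝ), (j : ℝ))),
      Finset.card_image_le.trans (by simp), ?_, ?_⟩
    · intro l hl
      obtain ⟨j, -, rfl⟩ := Finset.mem_image.1 hl
      simp
    · intro y hy
      obtain ⟨j, hj, e⟩ := hA y hy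
      exact ⟨(0, 1, (j : ℝ)), Finset.mem_image_of_mem _ (Finset.mem_range.2 (by omega)),
        by simp [e]⟩

/-- Part A: every plane straight-line drawing embeds in a canonical ordering. -/
def PartA : Prop :=
  ∀ (n : ℕ) (G : SimpleGraph (Fin n)) (p : Fin n → ℝ × ℝ), Plane G p →
    ∃ (K : ℕ) (d : Dat (Fin K)) (ord ctr : List (Fin K)) (φ : Fin n → Fin K),
      Build d ord ctr ∧ Function.Injective φ ∧ (∀ v, φ v ∈ ord) ∧
        ∀ u v, G.Adj u v → φ u ∈ d.N (φ v) ∨ φ v ∈ d.N (φ u)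

theorem few_lines (hA : PartA) (n : ℕ) (G : SimpleGraph (Fin n)) (p : Fin n → ℝ × ℝ)
    (hp : Plane G p) (s R : ℕ) :
    ∃ (q : Fin n → ℝ × ℝ) (l k m : ℕ), Plane G q ∧ l * (s + 1) ≤ n ∧
      R * k ≤ l * (R * R) + 2 * n ∧ m ≤ k + (s + 1) ∧
      ∃ a b c : Fin m → ℝ, (∀ i, a i ≠ 0 ∨ b i ≠ 0) ∧
        ∀ v : Fin n, ∃ i : Fin m, a i * (q v).1 + b i * (q v).2 = c i := by
  classical
  obtain ⟨K, d, ord, ctr, φ, hB, hφ, hmem, hadj⟩ := hA n G p hp
  obtain ⟨h, x, l, k, I, a1, a2, Ls, b1, b2, b3⟩ := partB hB (Finset.univ.image φ)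
    (by intro y hy; obtain ⟨v, -, rfl⟩ := Finset.mem_image.1 hy; exact hmem v) s R
  rw [Finset.card_image_of_injective _ hφ, Finset.card_univ, Fintype.card_fin] at a1 a2
  have hE : ∀ u v, G.Adj u v → Ed d ord (φ u) (φ v) ∨ Ed d ord (φ v) (φ u) := by
    intro u v huv
    rcases hadj u v huv with q | q
    · exact Or.inl (Or.inl ⟨hmem v, q⟩)
    · exact Or.inr (Or.inl ⟨hmem u, q⟩)
  refine ⟨fun v => pos h x (φ v), l, k, Ls.card, ⟨?_, ?_, ?_⟩, a1, a2, b1,
    fun i => (Ls.equivFin.symm i).1.1, fun i => (Ls.equivFin.symm i).1.2.1,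
    fun i => (Ls.equivFin.symm i).1.2.2, fun i => b2 _ (Ls.equivFin.symm i).2, ?_⟩
  · intro u v e
    exact hφ (I.inj _ _ (Or.inl (hmem u)) (Or.inl (hmem v)) e)
  · intro u v w huv h1 h2
    rcases hE u v huv with e | e
    · exact I.off _ _ _ e (Or.inl (hmem w)) (hφ.ne h1) (hφ.ne h2)
    · rw [segment_symm]
      exact I.off _ _ _ e (Or.inl (hmem w)) (hφ.ne h2) (hφ.ne h1)
  · have key : ∀ u v u' v', Ed d ord (φ u) (φ v) → Ed d ord (φ u') (φ v') → s(u, v) ≠ s(u', v') →
        ∀ z ∈ segment ℝ (pos h x (φ u)) (pos h x (φ v)),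
          z ∈ segment ℝ (pos h x (φ u')) (pos h x (φ v')) →
          ∃ w : Fin n, (w = u ∨ w = v) ∧ (w = u' ∨ w = v') ∧ z = pos h x (φ w) := by
      intro u v u' v' e e' hne z hz hz'
      obtain ⟨w, q1, q2, q3⟩ := I.cross _ _ _ _ e e' (by
        intro hs
        apply hne
        rcases Sym2.eq_iff.1 hs with ⟨r1, r2⟩ | ⟨r1, r2⟩
        · rw [hφ r1, hφ r2]
        · rw [hφ r1, hφ r2, Sym2.eq_swap]) z hz hz'
      rcases q1 with rfl | rfl
      · exact ⟨u, Or.inl rfl, q2.imp (fun r => hφ r) (fun r => hφ r), q3⟩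
      · exact ⟨v, Or.inr rfl, q2.imp (fun r => hφ r) (fun r => hφ r), q3⟩
    intro u v u' v' huv huv' hne z hz hz'
    rcases hE u v huv with e | e <;> rcases hE u' v' huv' with e' | e'
    · exact key u v u' v' e e' hne z hz hz'
    · obtain ⟨w, q1, q2, q3⟩ := key u v v' u' e e' (by rwa [Sym2.eq_swap (a := v')]) z hz
        (by rwa [segment_symm])
      exact ⟨w, q1, q2.symm, q3⟩
    · obtain ⟨w, q1, q2, q3⟩ := key v u u' v' e e' (by rwa [Sym2.eq_swap (a := v)]) z
        (by rwa [segment_symm]) hz'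
      exact ⟨w, q1.symm, q2, q3⟩
    · obtain ⟨w, q1, q2, q3⟩ := key v u v' u' e e'
        (by rwa [Sym2.eq_swap (a := v), Sym2.eq_swap (a := v')]) z
        (by rwa [segment_symm]) (by rwa [segment_symm])
      exact ⟨w, q1.symm, q2.symm, q3⟩
  · intro v
    obtain ⟨l, hl, e⟩ := b3 (φ v) (Finset.mem_image_of_mem _ (Finset.mem_univ v))
    exact ⟨Ls.equivFin ⟨l, hl⟩, by simpa [pos] using e⟩

theorem sublinear (hA : PartA) :
    ∀ ε : ℝ, 0 < ε → ∃ N : ℕ, ∀ n : ℕ, N ≤ n → ∀ G : SimpleGraph (Fin n),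
      (∃ p : Fin n → ℝ × ℝ, Plane G p) →
      ∃ p : Fin n → ℝ × ℝ, Plane G p ∧
        ∃ k : ℕ, (k : ℝ) ≤ ε * n ∧ ∃ a b c : Fin k → ℝ, (∀ i, a i ≠ 0 ∨ b i ≠ 0) ∧
          ∀ v : Fin n, ∃ i : Fin k, a i * (p v).1 + b i * (p v).2 = c i := by
  intro ε hε
  obtain ⟨R, hR⟩ := exists_nat_gt (6 / ε)
  obtain ⟨s, hs⟩ := exists_nat_gt (3 * R / ε)
  obtain ⟨N, hN⟩ := exists_nat_gt (3 * (s + 1) / ε)
  refine ⟨N, fun n hn G ⟨p, hp⟩ => ?_⟩
  obtain ⟨q, l, k, m, hq, a1, a2, a3, hl⟩ := few_lines hA n G p hp s R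
  refine ⟨q, hq, m, ?_, hl⟩
  have b1 : (l : ℝ) * (s + 1) ≤ n := by exact_mod_cast a1
  have b2 : (R : ℝ) * k ≤ l * (R * R) + 2 * n := by exact_mod_cast a2
  have b3 : (m : ℝ) ≤ k + (s + 1) := by exact_mod_cast a3
  have b4 : (N : ℝ) ≤ n := by exact_mod_cast hn
  rw [div_lt_iff₀ hε] at hR hs hN
  have n0 : (0 : ℝ) ≤ n := Nat.cast_nonneg _
  have l0 : (0 : ℝ) ≤ l := Nat.cast_nonneg _
  have R0 : (0 : ℝ) < R := by
    by_contra hn; push Not at hn; nlinarith
  have c1 : 3 * ((s : ℝ) + 1) ≤ ε * n := by nlinarith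
  have c2 : 3 * ((l : ℝ) * R) ≤ ε * n := by
    have : (l : ℝ) * (3 * R) ≤ l * (s * ε) := mul_le_mul_of_nonneg_left hs.le l0
    nlinarith
  have c3 : (R : ℝ) * (3 * k) ≤ R * (2 * (ε * n)) := by
    have := mul_le_mul_of_nonneg_left c2 R0.le
    have := mul_le_mul_of_nonneg_right hR.le n0
    nlinarith
  have c4 := le_of_mul_le_mul_left c3 R0
  linarith

end Pool.Agent.MP_d347ac_co.H31

end

section

set_option autoImplicit false

namespace Pool.Agent.MP_d347ac_co

theorem partA : H31.PartA := fun n G p h => exists_build_of partI n G p h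

end Pool.Agent.MP_d347ac_co

end
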